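import Pool.Agent.Work.MP_bda6fa_nest.Interface
set_option autoImplicit false

/-! Disorder correlations decrease when the domain increases (block DISM). -/

namespace XorIsing
open scoped Classical
open Finset

namespace DISM

/-- product of two sums over configurations: the second variable is the symmetric difference -/
theorem dbl (D : Finset V) (a b : Finset V → ℝ) :
    (∑ M ∈ D.powerset, a M) * (∑ M ∈ D.powerset, b M)
      = ∑ X ∈ D.powerset, ∑ M ∈ D.powerset, a (symmDiff X M) * b M := by
  rw [sum_mul_sum, sum_comm, sum_comm (s := D.powerset) (t := D.powerset)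
    (f := fun X M => a (symmDiff X M) * b M)]
  refine sum_congr rfl fun M hM => ?_
  rw [mem_powerset] at hM
  refine sum_nbij' (fun X => symmDiff X M) (fun X => symmDiff X M) ?_ ?_ ?_ ?_ ?_
  · intro X hX
    rw [mem_powerset] at hX ⊢
    exact symmDiff_sub hX hM
  · intro X hX
    rw [mem_powerset] at hX ⊢
    exact symmDiff_sub hX hM
  · intro X _
    exact symmDiff_symmDiff_cancel_right _ _
  · intro X _
    exact symmDiff_symmDiff_cancel_right _ _
  · intro X _
    simp only [symmDiff_symmDiff_cancel_right]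

theorem spin_edge (M : Finset V) (e : Edge) :
    spin M e.1 * spin M (tip e) = 1 ∨ spin M e.1 * spin M (tip e) = -1 := by
  rcases spin_cases M e.1 with h1 | h1 <;> rcases spin_cases M (tip e) with h2 | h2 <;>
    rw [h1, h2] <;> norm_num

/-- the same domain, more edges -/
theorem edges (hG : S_G1s) (β : ℝ) (hβ : 0 ≤ β) (H : Finset V) (F F' : Finset Edge) (hF : F' ⊆ F)
    (t : V × Bool) : pzc β H F t * pz β H F' ≤ pzc β H F' t * pz β H F := by
  unfold pzc pz
  rw [dbl, dbl]
  refine sum_le_sum fun X _ => ?_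
  set c : Edge → ℝ := fun e => if cut t e then -1 else 1 with hc
  set x : Edge → ℝ := fun e => spin X e.1 * spin X (tip e) with hx
  have hcc : ∀ e, c e = 1 ∨ c e = -1 := by
    intro e
    rw [hc]
    simp only
    split_ifs
    · right; rfl
    · left; rfl
  have hxx : ∀ e, x e = 1 ∨ x e = -1 := fun e => spin_edge X e
  set J : Edge → ℝ := fun e => if e ∈ F' then β * (1 + c e * x e) else β with hJ
  set ε : Edge → ℝ := fun e => if e ∈ F' then 1 else c e * x e with hε
  have hJ0 : ∀ e ∈ F, 0 ≤ J e := by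
    intro e _
    rw [hJ]
    simp only
    split_ifs
    · refine mul_nonneg hβ ?_
      rcases hcc e with h1 | h1 <;> rcases hxx e with h2 | h2 <;> rw [h1, h2] <;> norm_num
    · exact hβ
  have hε1 : ∀ e, ε e = 1 ∨ ε e = -1 := by
    intro e
    rw [hε]
    simp only
    split_ifs
    · left; rfl
    · rcases hcc e with h1 | h1 <;> rcases hxx e with h2 | h2 <;> rw [h1, h2] <;> norm_num
  have key := hG H F J ε hJ0 hε1
  have hsplit : ∀ f : Edge → ℝ, ∑ e ∈ F, f e = ∑ e ∈ F', f e + ∑ e ∈ F \ F', f e := by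
    intro f
    rw [add_comm]
    exact (sum_sdiff hF).symm
  have hL : ∑ M ∈ H.powerset, Real.exp (β * ∑ e ∈ F, (if cut t e then -1 else 1) *
        (spin (symmDiff X M) e.1 * spin (symmDiff X M) (tip e))) *
        Real.exp (β * ∑ e ∈ F', spin M e.1 * spin M (tip e))
      = pA H F (fun e => ε e * J e) ∅ := by
    unfold pA
    refine sum_congr rfl fun M _ => ?_
    rw [prod_empty, mul_one, ← Real.exp_add]
    congr 1
    rw [hsplit (fun e => ε e * J e * (spin M e.1 * spin M (tip e))),
      hsplit (fun e => (if cut t e then (-1 : ℝ) else 1) *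
        (spin (symmDiff X M) e.1 * spin (symmDiff X M) (tip e))), mul_add, mul_sum, mul_sum, mul_sum]
    have h1 : ∑ e ∈ F', ε e * J e * (spin M e.1 * spin M (tip e))
        = ∑ e ∈ F', β * ((if cut t e then (-1 : ℝ) else 1) *
          (spin (symmDiff X M) e.1 * spin (symmDiff X M) (tip e)))
          + ∑ e ∈ F', β * (spin M e.1 * spin M (tip e)) := by
      rw [← sum_add_distrib]
      refine sum_congr rfl fun e he => ?_
      have hεe : ε e = 1 := if_pos he
      have hJe : J e = β * (1 + c e * x e) := if_pos he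
      rw [hεe, hJe, spin_symmDiff, spin_symmDiff]
      have h3 : (if cut t e then (-1 : ℝ) else 1) = c e := rfl
      have h4 : x e = spin X e.1 * spin X (tip e) := rfl
      rw [h3, h4]
      ring
    have h2 : ∑ e ∈ F \ F', ε e * J e * (spin M e.1 * spin M (tip e))
        = ∑ e ∈ F \ F', β * ((if cut t e then (-1 : ℝ) else 1) *
          (spin (symmDiff X M) e.1 * spin (symmDiff X M) (tip e))) := by
      refine sum_congr rfl fun e he => ?_
      have he' : e ∉ F' := (mem_sdiff.1 he).2
      have hεe : ε e = c e * x e := if_neg he'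
      have hJe : J e = β := if_neg he'
      rw [hεe, hJe, spin_symmDiff, spin_symmDiff]
      have h3 : (if cut t e then (-1 : ℝ) else 1) = c e := rfl
      have h4 : x e = spin X e.1 * spin X (tip e) := rfl
      rw [h3, h4]
      ring
    rw [h1, h2]
    ring
  have hR : ∑ M ∈ H.powerset, Real.exp (β * ∑ e ∈ F', (if cut t e then -1 else 1) *
        (spin (symmDiff X M) e.1 * spin (symmDiff X M) (tip e))) *
        Real.exp (β * ∑ e ∈ F, spin M e.1 * spin M (tip e))
      = pA H F J ∅ := by
    unfold pA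
    refine sum_congr rfl fun M _ => ?_
    rw [prod_empty, mul_one, ← Real.exp_add]
    congr 1
    rw [hsplit (fun e => J e * (spin M e.1 * spin M (tip e))),
      hsplit (fun e => spin M e.1 * spin M (tip e)), mul_add, mul_sum, mul_sum, mul_sum]
    have h1 : ∑ e ∈ F', J e * (spin M e.1 * spin M (tip e))
        = ∑ e ∈ F', β * ((if cut t e then (-1 : ℝ) else 1) *
          (spin (symmDiff X M) e.1 * spin (symmDiff X M) (tip e)))
          + ∑ e ∈ F', β * (spin M e.1 * spin M (tip e)) := by
      rw [← sum_add_distrib]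
      refine sum_congr rfl fun e he => ?_
      have hJe : J e = β * (1 + c e * x e) := if_pos he
      rw [hJe, spin_symmDiff, spin_symmDiff]
      have h3 : (if cut t e then (-1 : ℝ) else 1) = c e := rfl
      have h4 : x e = spin X e.1 * spin X (tip e) := rfl
      rw [h3, h4]
      ring
    have h2 : ∑ e ∈ F \ F', J e * (spin M e.1 * spin M (tip e))
        = ∑ e ∈ F \ F', β * (spin M e.1 * spin M (tip e)) := by
      refine sum_congr rfl fun e he => ?_
      have hJe : J e = β := if_neg (mem_sdiff.1 he).2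
      rw [hJe]
    rw [h1, h2]
    ring
  rw [hL, hR]
  exact key

/-- spins outside the support give a power of two -/
theorem extend (Λ : Finset V) (f : Finset V → ℝ) (hf : ∀ M N : Finset V, M ∩ Λ = N ∩ Λ → f M = f N)
    (S : Finset V) : Disjoint S Λ →
    ∑ M ∈ (S ∪ Λ).powerset, f M = 2 ^ S.card * ∑ M ∈ Λ.powerset, f M := by
  induction S using Finset.induction_on with
  | empty =>
    intro _
    rw [empty_union, card_empty, pow_zero, one_mul]
  | insert v S hv ih =>
    intro hd
    rw [disjoint_insert_left] at hd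
    have h1 : v ∉ S ∪ Λ := by
      rw [mem_union]
      rintro (h | h)
      · exact hv h
      · exact hd.1 h
    rw [insert_union, sum_powerset_insert h1, card_insert_of_notMem hv, pow_succ]
    have h2 : ∀ M ∈ (S ∪ Λ).powerset, f (insert v M) = f M := by
      intro M _
      apply hf
      rw [insert_inter_of_notMem hd.1]
    rw [sum_congr rfl h2, ih hd.2]
    ring

theorem spin_inter {Λ M N : Finset V} (h : M ∩ Λ = N ∩ Λ) {v : V} (hv : v ∈ Λ) :
    spin M v = spin N v := by
  unfold spin
  refine if_congr ?_ rfl rfl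
  have h1 : v ∈ M ∩ Λ ↔ v ∈ N ∩ Λ := by rw [h]
  rw [mem_inter, mem_inter] at h1
  tauto

theorem pz_ext (β : ℝ) (H Λ : Finset V) (h : Λ ⊆ H) :
    pz β H (inn Λ) = 2 ^ (H \ Λ).card * pz β Λ (inn Λ) := by
  unfold pz
  rw [← extend Λ _ _ (H \ Λ) sdiff_disjoint, sdiff_union_of_subset h]
  intro M N hMN
  congr 2
  refine sum_congr rfl fun e he => ?_
  rw [mem_inn] at he
  rw [spin_inter hMN he.1, spin_inter hMN he.2]

theorem pzc_ext (β : ℝ) (H Λ : Finset V) (h : Λ ⊆ H) (t : V × Bool) :
    pzc β H (inn Λ) t = 2 ^ (H \ Λ).card * pzc β Λ (inn Λ) t := by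
  unfold pzc
  rw [← extend Λ _ _ (H \ Λ) sdiff_disjoint, sdiff_union_of_subset h]
  intro M N hMN
  congr 2
  refine sum_congr rfl fun e he => ?_
  rw [mem_inn] at he
  rw [spin_inter hMN he.1, spin_inter hMN he.2]

end DISM

theorem p_DISM (h : S_G1s) : S_DISM := by
  intro β H Λ t hβ hΛ
  have hsub : inn Λ ⊆ inn H := by
    intro e he
    rw [mem_inn] at he ⊢
    exact ⟨hΛ he.1, hΛ he.2⟩
  have h1 := DISM.edges h β hβ H (inn H) (inn Λ) hsub t
  rw [DISM.pz_ext β H Λ hΛ, DISM.pzc_ext β H Λ hΛ] at h1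
  unfold dis
  rw [div_le_div_iff₀ (pz_pos _ _ _) (pz_pos _ _ _)]
  have h2 : (0 : ℝ) < 2 ^ (H \ Λ).card := by positivity
  have h3 : (2 : ℝ) ^ (H \ Λ).card * (pzc β H (inn H) t * pz β Λ (inn Λ))
      ≤ 2 ^ (H \ Λ).card * (pzc β Λ (inn Λ) t * pz β H (inn H)) := by
    calc (2 : ℝ) ^ (H \ Λ).card * (pzc β H (inn H) t * pz β Λ (inn Λ))
        = pzc β H (inn H) t * (2 ^ (H \ Λ).card * pz β Λ (inn Λ)) := by ring
      _ ≤ 2 ^ (H \ Λ).card * pzc β Λ (inn Λ) t * pz β H (inn H) := h1
      _ = 2 ^ (H \ Λ).card * (pzc β Λ (inn Λ) t * pz β H (inn H)) := by ring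
  exact le_of_mul_le_mul_left h3 h2

end XorIsing
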