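import Pool.Agent.Work.MP_bda6fa_nest.Interface
set_option autoImplicit false

/-! Block ETA: the boundary of the set of the triangles with no circuit around them. -/

namespace XorIsing
open scoped Classical
open Finset

namespace BETA

/-- the base point of the triangle of kind `true` at the edge -/
noncomputable def up (e : Edge) : V := if e.2 = 2 then e.1 - (0, 1) else e.1

/-- the base point of the triangle of kind `false` at the edge -/
noncomputable def dn (e : Edge) : V := if e.2 = 1 then e.1 - (1, 0) else e.1 - (0, 1)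

theorem up0 (v : V) : up (v, 0) = v := by simp [up]
theorem up1 (v : V) : up (v, 1) = v := by simp [up]
theorem up2 (v : V) : up (v, 2) = v - (0, 1) := by simp [up]
theorem dn0 (v : V) : dn (v, 0) = v - (0, 1) := by simp [dn]
theorem dn1 (v : V) : dn (v, 1) = v - (1, 0) := by simp [dn]
theorem dn2 (v : V) : dn (v, 2) = v - (0, 1) := by simp [dn]

theorem mem_up (e : Edge) : e ∈ tri (up e, true) := by
  obtain ⟨v, k⟩ := e
  rw [mem_tri_up]
  fin_cases k
  · left
    show ((v, 0) : Edge) = (up (v, 0), 0)
    rw [up0]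
  · right; left
    show ((v, 1) : Edge) = (up (v, 1), 1)
    rw [up1]
  · right; right
    show ((v, 2) : Edge) = (up (v, 2) + (0, 1), 2)
    rw [up2, sub_add_cancel]

theorem mem_dn (e : Edge) : e ∈ tri (dn e, false) := by
  obtain ⟨v, k⟩ := e
  rw [mem_tri_down]
  fin_cases k
  · right; left
    show ((v, 0) : Edge) = (dn (v, 0) + (0, 1), 0)
    rw [dn0, sub_add_cancel]
  · right; right
    show ((v, 1) : Edge) = (dn (v, 1) + (1, 0), 1)
    rw [dn1, sub_add_cancel]
  · left
    show ((v, 2) : Edge) = (dn (v, 2) + (0, 1), 2)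
    rw [dn2, sub_add_cancel]

theorem box_up {ρ : ℕ} {e : Edge} (h : e.1 ∈ box ρ ∨ tip e ∈ box ρ) :
    up e ∈ box (ρ + 1) ∧ dn e ∈ box (ρ + 1) := by
  obtain ⟨⟨a, b⟩, k⟩ := e
  simp only [mem_box] at h ⊢
  fin_cases k
  · have h1 : up (((a, b), 0) : Edge) = (a, b) := up0 _
    have h2 : dn (((a, b), 0) : Edge) = (a, b) - (0, 1) := dn0 _
    have h3 : tip (((a, b), 0) : Edge) = (a + 1, b + 0) := rfl
    simp only [Fin.zero_eta, Fin.isValue, h1, h2, h3, Prod.mk_sub_mk] at h ⊢
    push_cast
    omega
  · have h1 : up (((a, b), 1) : Edge) = (a, b) := up1 _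
    have h2 : dn (((a, b), 1) : Edge) = (a, b) - (1, 0) := dn1 _
    have h3 : tip (((a, b), 1) : Edge) = (a + 0, b + 1) := rfl
    simp only [Fin.mk_one, Fin.isValue, h1, h2, h3, Prod.mk_sub_mk] at h ⊢
    push_cast
    omega
  · have h1 : up (((a, b), 2) : Edge) = (a, b) - (0, 1) := up2 _
    have h2 : dn (((a, b), 2) : Edge) = (a, b) - (0, 1) := dn2 _
    have h3 : tip (((a, b), 2) : Edge) = (a + 1, b + -1) := rfl
    simp only [Fin.reduceFinMk, Fin.isValue, h1, h2, h3, Prod.mk_sub_mk] at h ⊢
    push_cast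
    omega

/-- the parity of the degree -/
theorem deg_card (η : Finset Edge) (v : V) :
    (((η.filter (fun e => e.1 = v ∨ tip e = v)).card : ℕ) : ZMod 2) =
      ∑ k : Fin 3, chi η (v, k) + ∑ k : Fin 3, chi η (v - dir k, k) := by
  have h1 : η.filter (fun e => e.1 = v ∨ tip e = v) =
      η.filter (fun e => e.1 = v) ∪ η.filter (fun e => tip e = v) := filter_or _ _ _
  have hdisj : Disjoint (η.filter (fun e => e.1 = v)) (η.filter (fun e => tip e = v)) := by
    rw [disjoint_left]
    intro e he he'
    have h2 := (mem_filter.1 he).2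
    have h3 := (mem_filter.1 he').2
    obtain ⟨u, k⟩ := e
    have h4 : u + dir k = u := h3.trans h2.symm
    have h5 : dir k = 0 := by simpa using h4
    fin_cases k <;> simp [dir] at h5
  have hA : ((η.filter (fun e => e.1 = v)).card : ZMod 2) = ∑ k : Fin 3, chi η (v, k) := by
    have h2 : η.filter (fun e => e.1 = v) =
        (univ.filter (fun k : Fin 3 => ((v, k) : Edge) ∈ η)).image (fun k => ((v, k) : Edge)) := by
      ext e
      rw [mem_filter, mem_image]
      constructor
      · rintro ⟨h3, h4⟩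
        refine ⟨e.2, mem_filter.2 ⟨mem_univ _, ?_⟩, ?_⟩
        · rw [← h4]; exact h3
        · rw [← h4]
      · rintro ⟨k, h3, h4⟩
        rw [← h4]
        exact ⟨(mem_filter.1 h3).2, rfl⟩
    rw [h2, card_image_of_injective _ (fun a b hab => (Prod.mk.inj hab).2), card_filter]
    push_cast
    exact sum_congr rfl fun k _ => by unfold chi; rfl
  have hB : ((η.filter (fun e => tip e = v)).card : ZMod 2) =
      ∑ k : Fin 3, chi η (v - dir k, k) := by
    have h2 : η.filter (fun e => tip e = v) =
        (univ.filter (fun k : Fin 3 => ((v - dir k, k) : Edge) ∈ η)).image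
          (fun k => ((v - dir k, k) : Edge)) := by
      ext e
      rw [mem_filter, mem_image]
      constructor
      · rintro ⟨h3, h4⟩
        have h5 : ((v - dir e.2, e.2) : Edge) = e := by
          rw [← h4]
          unfold tip
          rw [add_sub_cancel_right]
        refine ⟨e.2, mem_filter.2 ⟨mem_univ _, ?_⟩, h5⟩
        rw [h5]; exact h3
      · rintro ⟨k, h3, h4⟩
        rw [← h4]
        refine ⟨(mem_filter.1 h3).2, ?_⟩
        show v - dir k + dir k = v
        exact sub_add_cancel _ _
    rw [h2, card_image_of_injective _ (fun a b hab => (Prod.mk.inj hab).2), card_filter]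
    push_cast
    exact sum_congr rfl fun k _ => by unfold chi; rfl
  rw [h1, card_union_of_disjoint hdisj]
  push_cast
  rw [hA, hB]

/-- a set of edges which is the boundary of a set of triangles is even -/
theorem even_of (η : Finset Edge) (b : V × Bool → ZMod 2)
    (h : ∀ e, chi η e = b (up e, true) + b (dn e, false)) : EvenAll η := by
  intro v
  have h1 := deg_card η v
  rw [Fin.sum_univ_three, Fin.sum_univ_three] at h1
  have d0 : dir 0 = (1, 0) := rfl
  have d1 : dir 1 = (0, 1) := rfl
  have d2 : dir 2 = (1, -1) := rfl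
  rw [h, h, h, h, h, h, up0, up1, up2, dn0, dn1, dn2, up0, up1, up2, dn0, dn1, dn2, d0, d1, d2] at h1
  have e1 : v - (1, -1) - (0, 1) = v - ((1, 0) : V) := by
    ext <;> simp
  have e2 : v - (1, 0) - (0, 1) = v - (0, 1) - ((1, 0) : V) := by abel
  rw [e1, e2] at h1
  have h2 : (((η.filter (fun e => e.1 = v ∨ tip e = v)).card : ℕ) : ZMod 2) = 0 := by
    rw [h1]
    linear_combination z2 (b (v, true)) + z2 (b (v - (0, 1), false)) + z2 (b (v - (1, 0), false)) +
      z2 (b (v - (0, 1), true)) + z2 (b (v - (1, 0), true)) + z2 (b (v - (0, 1) - (1, 0), false))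
  exact (ZMod.natCast_eq_zero_iff_even).1 h2

end BETA

/-- Block ETA. -/
theorem p_ETA (h : S_ESTEP) (h2 : S_PETA) : S_ETA := by
  intro H ω ρ hω hbox
  -- the boundary of the set of triangles with `Ev`
  set η : Finset Edge := ω.filter (fun e =>
    ¬ (Ev H (BETA.up e, true) ω ↔ Ev H (BETA.dn e, false) ω)) with hη
  have hmem : ∀ e, e ∈ η ↔ ¬ (Ev H (BETA.up e, true) ω ↔ Ev H (BETA.dn e, false) ω) := by
    intro e
    rw [hη, mem_filter]
    refine ⟨fun h => h.2, fun hn => ⟨?_, hn⟩⟩
    by_contra he
    exact hn ⟨h H ω e _ _ hω he (BETA.mem_up e) (BETA.mem_dn e),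
      h H ω e _ _ hω he (BETA.mem_dn e) (BETA.mem_up e)⟩
  have hchi : ∀ e, chi η e = (fun t : V × Bool => if Ev H t ω then (1 : ZMod 2) else 0)
      (BETA.up e, true) + (fun t : V × Bool => if Ev H t ω then (1 : ZMod 2) else 0)
      (BETA.dn e, false) := by
    intro e
    have hm := hmem e
    show chi η e = (if Ev H (BETA.up e, true) ω then (1 : ZMod 2) else 0) +
      (if Ev H (BETA.dn e, false) ω then (1 : ZMod 2) else 0)
    unfold chi
    by_cases h1 : Ev H (BETA.up e, true) ω <;> by_cases h3 : Ev H (BETA.dn e, false) ω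
    · rw [if_pos h1, if_pos h3, if_neg (by rw [hm]; simp [h1, h3])]; decide
    · rw [if_pos h1, if_neg h3, if_pos (by rw [hm]; simp [h1, h3])]; decide
    · rw [if_neg h1, if_pos h3, if_pos (by rw [hm]; simp [h1, h3])]; decide
    · rw [if_neg h1, if_neg h3, if_neg (by rw [hm]; simp [h1, h3])]; decide
  have heven : EvenAll η := BETA.even_of η (fun t => if Ev H t ω then (1 : ZMod 2) else 0) hchi
  refine ⟨η, filter_subset _ _, heven, ?_, ?_⟩
  · intro e he
    have h1 := (hmem e).1 he
    by_contra hcon
    have h3 : e.1 ∈ box ρ ∨ tip e ∈ box ρ := by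
      by_contra h4
      push Not at h4
      exact hcon h4
    obtain ⟨h4, h5⟩ := BETA.box_up h3
    exact h1 ⟨fun h6 => absurd h6 (hbox _ h4), fun h6 => absurd h6 (hbox _ h5)⟩
  · -- walk to the right
    obtain ⟨N, hN⟩ := exists_bound ω
    have hfar : ∀ v : V, N ≤ v.1 → (Par η (v, true) ↔ ¬ Ev H (v, true) ω) := by
      intro v hv
      have hnc : ∀ e ∈ ω, ¬ cut ((v, true) : V × Bool) e := by
        intro e he hc
        have h1 := hN e he
        rcases hc with ⟨-, -, h3⟩ | ⟨-, -, h3⟩
        · have h4 : v.1 + 1 ≤ e.1.1 := h3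
          omega
        · have h4 : v.1 ≤ e.1.1 := by simpa using h3
          omega
      have hev : Ev H (v, true) ω := by
        refine ⟨∅, empty_subset _, fun e he => ?_⟩
        simp [hnc e he]
      have hpar : ¬ Par η (v, true) := by
        unfold Par
        have h1 : η.filter (fun e => cut ((v, true) : V × Bool) e) = ∅ := by
          refine filter_eq_empty_iff.2 fun e he => hnc e ?_
          exact (mem_filter.1 he).1
        rw [h1]
        simp
      exact ⟨fun h1 => absurd h1 hpar, fun h1 => absurd hev h1⟩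
    have hstep : ∀ (e : Edge), (Par η (BETA.up e, true) ↔ ¬ Ev H (BETA.up e, true) ω) ↔
        (Par η (BETA.dn e, false) ↔ ¬ Ev H (BETA.dn e, false) ω) := by
      intro e
      have h1 := h2 η e (BETA.up e, true) (BETA.dn e, false) heven (by simp) (BETA.mem_up e)
        (BETA.mem_dn e)
      have h3 := hmem e
      by_cases p1 : Par η (BETA.up e, true) <;> by_cases p2 : Par η (BETA.dn e, false) <;>
        by_cases p3 : Ev H (BETA.up e, true) ω <;> by_cases p4 : Ev H (BETA.dn e, false) ω <;>
        simp_all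
    have hwalk : ∀ n : ℕ, ∀ v : V, N ≤ v.1 + n → (Par η (v, true) ↔ ¬ Ev H (v, true) ω) := by
      intro n
      induction n with
      | zero =>
        intro v hv
        exact hfar v (by simpa using hv)
      | succ n ih =>
        intro v hv
        have h1 := ih (v + (1, 0)) (by
          have h3 : (v + (1, 0) : V).1 = v.1 + 1 := rfl
          rw [h3]
          push_cast at hv
          omega)
        have h3 := hstep (v + (1, 0), 1)
        rw [BETA.up1, BETA.dn1, add_sub_cancel_right] at h3
        have h4 := hstep (v + (0, 1), 2)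
        rw [BETA.up2, BETA.dn2, add_sub_cancel_right] at h4
        exact h4.2 (h3.1 h1)
    have h1 := hwalk (N - 0).toNat (0, 0) (by
      show N ≤ 0 + ((N - 0).toNat : ℤ)
      omega)
    refine h1.2 (hbox _ ?_)
    rw [mem_box]
    push_cast
    show (-((ρ : ℤ) + 1) ≤ 0 ∧ (0 : ℤ) ≤ (ρ : ℤ) + 1) ∧ -((ρ : ℤ) + 1) ≤ 0 ∧ (0 : ℤ) ≤ (ρ : ℤ) + 1
    omega

end XorIsing
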