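import Pool.Agent.Work.MP_bda6fa_nest.Interface
set_option autoImplicit false

/-! HT: high temperature expansion. -/

namespace XorIsing
open scoped Classical
open Finset

namespace HT

theorem tip_ne' (e : Edge) : e.1 ≠ tip e := by
  intro h
  have h2 : dir e.2 = 0 := by
    have h3 : e.1 + 0 = e.1 + dir e.2 := by rw [add_zero]; exact h
    exact (add_left_cancel h3).symm
  obtain ⟨v, k⟩ := e
  fin_cases k <;> simp [dir] at h2

/-- product of the edge signs -/
noncomputable def P (η : Finset Edge) (M : Finset V) : ℝ := ∏ e ∈ η, spin M e.1 * spin M (tip e)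

theorem P_flip (η : Finset Edge) (M : Finset V) (v : V) :
    P η (symmDiff M {v}) = P η M * (-1) ^ (η.filter (fun e => e.1 = v ∨ tip e = v)).card := by
  unfold P
  have h1 : ∀ e ∈ η, spin (symmDiff M {v}) e.1 * spin (symmDiff M {v}) (tip e) =
      (spin M e.1 * spin M (tip e)) * (if e.1 = v ∨ tip e = v then -1 else 1) := by
    intro e _
    rw [spin_symmDiff, spin_symmDiff]
    have h2 : spin {v} e.1 * spin {v} (tip e) = if e.1 = v ∨ tip e = v then -1 else 1 := by
      unfold spin
      have h3 := tip_ne' e
      by_cases ha : e.1 = v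
      · have hb : tip e ≠ v := fun h => h3 (ha.trans h.symm)
        simp [ha, hb]
      · by_cases hb : tip e = v
        · simp [ha, hb]
        · simp [ha, hb]
    rw [← h2]
    ring
  rw [prod_congr rfl h1, prod_mul_distrib]
  congr 1
  rw [prod_ite]
  simp

theorem P_even (D : Finset V) (η : Finset Edge) (h : EvenOn D η) (M : Finset V) (hM : M ⊆ D) : P η M = 1 := by
  induction M using Finset.induction_on with
  | empty => simp [P, spin]
  | insert v M hv ih =>
    have h1 : insert v M = symmDiff M {v} := by
      ext u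
      rw [mem_insert, mem_symmDiff, mem_singleton]
      constructor
      · rintro (h1 | h1)
        · right
          exact ⟨h1, fun h2 => hv (h1 ▸ h2)⟩
        · left
          exact ⟨h1, fun h2 => hv (h2 ▸ h1)⟩
      · rintro (⟨h1, _⟩ | ⟨h1, _⟩)
        · right; exact h1
        · left; exact h1
    rw [h1, P_flip, ih (fun u hu => hM (mem_insert_of_mem hu)), one_mul]
    exact (h v (hM (mem_insert_self v M))).neg_one_pow

theorem sum_P (D : Finset V) (η : Finset Edge) :
    ∑ M ∈ D.powerset, P η M = if EvenOn D η then (2 : ℝ) ^ D.card else 0 := by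
  split_ifs with h
  · rw [sum_congr rfl (fun M hM => P_even D η h M (mem_powerset.1 hM)), sum_const, card_powerset]
    simp
  · unfold EvenOn at h
    push Not at h
    obtain ⟨v, hv, h1⟩ := h
    have h2 : (-1 : ℝ) ^ (η.filter (fun e => e.1 = v ∨ tip e = v)).card = -1 := by
      rw [Nat.not_even_iff_odd] at h1
      exact h1.neg_one_pow
    have h3 : ∑ M ∈ D.powerset, P η M = ∑ M ∈ D.powerset, P η (symmDiff M {v}) := by
      refine sum_nbij' (fun M => symmDiff M {v}) (fun M => symmDiff M {v}) ?_ ?_ ?_ ?_ ?_
      · intro M hM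
        exact mem_powerset.2 (symmDiff_sub (mem_powerset.1 hM) (singleton_subset_iff.2 hv))
      · intro M hM
        exact mem_powerset.2 (symmDiff_sub (mem_powerset.1 hM) (singleton_subset_iff.2 hv))
      · intro M _
        exact symmDiff_symmDiff_cancel_right _ _
      · intro M _
        exact symmDiff_symmDiff_cancel_right _ _
      · intro M _
        show P η M = P η (symmDiff (symmDiff M {v}) {v})
        rw [symmDiff_symmDiff_cancel_right]
    have h4 : ∑ M ∈ D.powerset, P η (symmDiff M {v}) = - ∑ M ∈ D.powerset, P η M := by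
      rw [← sum_neg_distrib]
      refine sum_congr rfl fun M _ => ?_
      rw [P_flip, h2]
      ring
    linarith

theorem exp_edge (β s : ℝ) (hs : s = 1 ∨ s = -1) :
    Real.exp (2 * β * s) = (Real.sinh (2 * β) * s + (Real.cosh (2 * β) - 1)) + 1 := by
  rcases hs with rfl | rfl
  · rw [mul_one, mul_one, ← Real.cosh_add_sinh]
    ring
  · rw [show 2 * β * (-1) = -(2 * β) by ring, ← Real.cosh_sub_sinh]
    ring

theorem edge_sign (M : Finset V) (e : Edge) : spin M e.1 * spin M (tip e) = 1 ∨ spin M e.1 * spin M (tip e) = -1 := by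
  rcases spin_cases M e.1 with h | h <;> rcases spin_cases M (tip e) with h' | h' <;> rw [h, h'] <;> norm_num

end HT

theorem p_HT : S_HT := by
  intro β D F
  unfold pz
  have h1 : ∀ M ∈ D.powerset, Real.exp (2 * β * ∑ e ∈ F, spin M e.1 * spin M (tip e)) =
      ∑ ω ∈ F.powerset, ∑ η ∈ ω.powerset, Real.sinh (2 * β) ^ η.card * (Real.cosh (2 * β) - 1) ^ (ω.card - η.card) *
        HT.P η M := by
    intro M _
    rw [mul_sum, Real.exp_sum, prod_congr rfl (fun e _ => HT.exp_edge β _ (HT.edge_sign M e)), prod_add]
    refine sum_congr rfl fun ω _ => ?_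
    rw [prod_const_one, mul_one, prod_add]
    refine sum_congr rfl fun η hη => ?_
    rw [prod_mul_distrib, prod_const, prod_const, card_sdiff_of_subset (mem_powerset.1 hη)]
    unfold HT.P
    ring
  rw [sum_congr rfl h1, sum_comm, mul_sum]
  refine sum_congr rfl fun ω _ => ?_
  rw [sum_comm]
  unfold g
  rw [mul_sum]
  refine sum_congr rfl fun η _ => ?_
  rw [← mul_sum, HT.sum_P]
  split_ifs
  · ring
  · ring

end XorIsing
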