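import Pool.Agent.Work.MP_bda6fa_nest.ESTEP
set_option autoImplicit false

/-! Block PETA: the parity of the number of crossed edges changes exactly across the edges of an even set. -/

namespace XorIsing
open scoped Classical
open Finset

theorem tip_ne (f : Edge) : f.1 ≠ tip f := by
  obtain ⟨⟨a, b⟩, k⟩ := f
  fin_cases k
  · simp [tip, dir0]
  · simp [tip, dir1]
  · simp [tip, dir2]

/-- handshake lemma modulo 2 -/
theorem handshake (η : Finset Edge) (hη : EvenAll η) (χ : V → ZMod 2) :
    ∑ f ∈ η, (χ f.1 + χ (tip f)) = 0 := by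
  set S : Finset V := η.image (fun f => f.1) ∪ η.image tip with hS
  have h1 : ∑ f ∈ η, χ f.1 = ∑ v ∈ S, ∑ f ∈ η.filter (fun f => f.1 = v), χ f.1 := by
    rw [sum_fiberwise_of_maps_to]
    intro f hf
    exact mem_union_left _ (mem_image_of_mem _ hf)
  have h2 : ∑ f ∈ η, χ (tip f) = ∑ v ∈ S, ∑ f ∈ η.filter (fun f => tip f = v), χ (tip f) := by
    rw [sum_fiberwise_of_maps_to]
    intro f hf
    exact mem_union_right _ (mem_image_of_mem _ hf)
  rw [sum_add_distrib, h1, h2, ← sum_add_distrib]
  refine sum_eq_zero fun v _ => ?_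
  have h3 : ∑ f ∈ η.filter (fun f => f.1 = v), χ f.1 = ((η.filter (fun f => f.1 = v)).card : ZMod 2) * χ v := by
    rw [sum_congr rfl (g := fun _ => χ v) fun f hf => by rw [(mem_filter.1 hf).2], sum_const, nsmul_eq_mul]
  have h4 : ∑ f ∈ η.filter (fun f => tip f = v), χ (tip f) =
      ((η.filter (fun f => tip f = v)).card : ZMod 2) * χ v := by
    rw [sum_congr rfl (g := fun _ => χ v) fun f hf => by rw [(mem_filter.1 hf).2], sum_const, nsmul_eq_mul]
  rw [h3, h4, ← add_mul, ← Nat.cast_add, ← card_union_of_disjoint, ← filter_or]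
  · have h5 : (((η.filter (fun e => e.1 = v ∨ tip e = v)).card : ℕ) : ZMod 2) = 0 := by
      rw [ZMod.natCast_eq_zero_iff]
      exact (hη v).two_dvd
    rw [h5, zero_mul]
  · rw [disjoint_filter]
    intro f _ h6 h7
    exact tip_ne f (h6.trans h7.symm)

theorem card_zmod (η : Finset Edge) (q : Edge → Prop) :
    (((η.filter q).card : ℕ) : ZMod 2) = ∑ f ∈ η, (if q f then 1 else 0) := by
  rw [sum_boole]

theorem p_PETA : S_PETA := by
  intro η e t t' hη hne h1 h2
  obtain ⟨P, hP⟩ := step_core e t t' hne h1 h2
  have key : (((η.filter (fun f => cut t f)).card : ℕ) : ZMod 2) +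
      (((η.filter (fun f => cut t' f)).card : ℕ) : ZMod 2) = if e ∈ η then 1 else 0 := by
    have h3 := handshake η hη (fun v => if P v then 1 else 0)
    have h6 : ∑ f ∈ η, (if f = e then (1 : ZMod 2) else 0) = if e ∈ η then 1 else 0 := by
      rw [sum_ite_eq']
    have h8 : ∀ f, (if cut t f then (1 : ZMod 2) else 0) + (if cut t' f then 1 else 0) =
        (if f = e then 1 else 0) + ((if P f.1 then 1 else 0) + (if P (tip f) then 1 else 0)) := by
      intro f
      have h4 := hP f
      rcases eq_or_ne f e with hfe | hfe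
      · subst hfe
        rw [if_pos rfl]
        by_cases c1 : cut t f <;> by_cases c2 : cut t' f <;> by_cases c3 : P f.1 <;>
          by_cases c4 : P (tip f) <;>
          simp only [c1, c2, c3, c4, if_true, if_false, ne_eq, not_true_eq_false,
            iff_true, true_iff, iff_false, false_iff, iff_self] at h4 ⊢ <;> decide
      · rw [if_neg hfe]
        by_cases c1 : cut t f <;> by_cases c2 : cut t' f <;> by_cases c3 : P f.1 <;>
          by_cases c4 : P (tip f) <;>
          simp only [c1, c2, c3, c4, hfe, if_true, if_false, ne_eq, not_true_eq_false, not_false_eq_true,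
            iff_true, true_iff, iff_false, false_iff, iff_self] at h4 ⊢ <;> decide
    rw [card_zmod, card_zmod, ← sum_add_distrib, sum_congr rfl fun f _ => h8 f, sum_add_distrib, h3, add_zero, h6]
  have hodd : ∀ m : ℕ, Odd m ↔ ((m : ℕ) : ZMod 2) = 1 := by
    intro m
    rw [← Nat.not_even_iff_odd, even_iff_two_dvd, ← ZMod.natCast_eq_zero_iff]
    generalize ((m : ℕ) : ZMod 2) = z
    revert z
    decide
  unfold Par
  rw [hodd, hodd]
  generalize (((η.filter (fun f => cut t f)).card : ℕ) : ZMod 2) = a at key ⊢
  generalize (((η.filter (fun f => cut t' f)).card : ℕ) : ZMod 2) = b at key ⊢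
  by_cases he : e ∈ η
  · rw [if_pos he] at key
    simp only [he, not_true_eq_false, iff_false]
    push_cast at key
    revert a b key
    decide
  · rw [if_neg he] at key
    simp only [he, not_false_eq_true, iff_true]
    push_cast at key
    revert a b key
    decide

end XorIsing
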