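import Pool.Agent.Work.MP_bda6fa_nest.Interface
set_option autoImplicit false

/-! Griffiths' first inequality (block G1); the main lemma also gives block G1s. -/

namespace XorIsing
open scoped Classical
open Finset

namespace G1

/-- the unnormalised expectation of the product of the spins of a list -/
noncomputable def T (D : Finset V) (F : Finset Edge) (J : Edge → ℝ) (l : List V) : ℝ :=
  ∑ M ∈ D.powerset, Real.exp (∑ e ∈ F, J e * (spin M e.1 * spin M (tip e))) * (l.map (spin M)).prod

theorem spin_single_prod (v : V) (l : List V) :
    (l.map (spin {v})).prod = (-1 : ℝ) ^ (l.count v) := by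
  induction l with
  | nil => simp
  | cons a l ih =>
    rw [List.map_cons, List.prod_cons, ih, List.count_cons]
    by_cases h : a = v
    · subst h
      simp [spin, pow_succ]
    · have h2 : ¬ (a == v) = true := by simpa using h
      rw [if_neg h2]
      simp [spin, h]

theorem base (D : Finset V) (l : List V) : 0 ≤ ∑ M ∈ D.powerset, (l.map (spin M)).prod := by
  by_cases h : ∀ v ∈ D, Even (l.count v)
  · refine sum_nonneg fun M hM => ?_
    rw [Finset.prod_list_map_count]
    refine prod_nonneg fun v _ => ?_
    by_cases hv : v ∈ D
    · refine Even.pow_nonneg ?_ (spin M v)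
      convert h v hv
    · have h1 : v ∉ M := fun h2 => hv (mem_powerset.1 hM h2)
      have h2 : spin M v = 1 := by
        unfold spin
        rw [if_neg h1]
      rw [h2, one_pow]
      exact zero_le_one
  · push Not at h
    obtain ⟨v, hv, hodd⟩ := h
    have hodd' : Odd (l.count v) := Nat.not_even_iff_odd.1 hodd
    have key : ∑ M ∈ D.powerset, (l.map (spin M)).prod
        = ∑ M ∈ D.powerset, -(l.map (spin M)).prod := by
      refine sum_nbij' (fun M => symmDiff M {v}) (fun M => symmDiff M {v}) ?_ ?_ ?_ ?_ ?_
      · intro M hM
        rw [mem_powerset] at hM ⊢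
        intro x hx
        rw [mem_symmDiff, mem_singleton] at hx
        rcases hx with h1 | h1
        · exact hM h1.1
        · rw [h1.1]
          exact hv
      · intro M hM
        rw [mem_powerset] at hM ⊢
        intro x hx
        rw [mem_symmDiff, mem_singleton] at hx
        rcases hx with h1 | h1
        · exact hM h1.1
        · rw [h1.1]
          exact hv
      · intro M _
        exact symmDiff_symmDiff_cancel_right _ _
      · intro M _
        exact symmDiff_symmDiff_cancel_right _ _
      · intro M _
        have h1 : (l.map (spin (symmDiff M {v}))).prod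
            = (l.map (spin M)).prod * (l.map (spin {v})).prod := by
          rw [← List.prod_map_mul]
          congr 1
          apply List.map_congr_left
          intro x _
          exact spin_symmDiff M {v} x
        rw [h1, spin_single_prod, hodd'.neg_one_pow]
        ring
    rw [sum_neg_distrib] at key
    linarith

theorem exp_expand (c s : ℝ) (hs : s = 1 ∨ s = -1) :
    Real.exp (c * s) = Real.cosh c + s * Real.sinh c := by
  rcases hs with rfl | rfl
  · rw [mul_one, one_mul, Real.cosh_add_sinh]
  · rw [mul_neg_one, neg_one_mul, ← sub_eq_add_neg, Real.cosh_sub_sinh]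

theorem spin_edge (M : Finset V) (e : Edge) :
    spin M e.1 * spin M (tip e) = 1 ∨ spin M e.1 * spin M (tip e) = -1 := by
  rcases spin_cases M e.1 with h1 | h1 <;> rcases spin_cases M (tip e) with h2 | h2 <;>
    rw [h1, h2] <;> norm_num

theorem T_insert (D : Finset V) (F : Finset Edge) (J : Edge → ℝ) (l : List V) (e : Edge)
    (he : e ∉ F) :
    T D (insert e F) J l = Real.cosh (J e) * T D F J l
      + Real.sinh (J e) * T D F J (e.1 :: tip e :: l) := by
  unfold T
  rw [mul_sum, mul_sum, ← sum_add_distrib]
  refine sum_congr rfl fun M _ => ?_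
  rw [sum_insert he, Real.exp_add, exp_expand _ _ (spin_edge M e), List.map_cons, List.map_cons,
    List.prod_cons, List.prod_cons]
  ring

theorem main (D : Finset V) (F : Finset Edge) (J ε : Edge → ℝ) (hJ : ∀ e ∈ F, 0 ≤ J e)
    (hε : ∀ e, ε e = 1 ∨ ε e = -1) :
    ∀ l : List V, |T D F (fun e => ε e * J e) l| ≤ T D F J l := by
  induction F using Finset.induction_on with
  | empty =>
    intro l
    have h1 : ∀ K : Edge → ℝ, T D ∅ K l = ∑ M ∈ D.powerset, (l.map (spin M)).prod := by
      intro K
      unfold T
      refine sum_congr rfl fun M _ => ?_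
      rw [sum_empty, Real.exp_zero, one_mul]
    rw [h1, h1, abs_of_nonneg (base D l)]
  | insert e F he ih =>
    intro l
    have ih' := ih (fun f hf => hJ f (mem_insert_of_mem hf))
    have hJe : 0 ≤ J e := hJ e (mem_insert_self e F)
    rw [T_insert D F _ l e he, T_insert D F _ l e he]
    have hc : Real.cosh (ε e * J e) = Real.cosh (J e) := by
      rcases hε e with h | h
      · rw [h, one_mul]
      · rw [h, neg_one_mul, Real.cosh_neg]
    have hs : Real.sinh (ε e * J e) = ε e * Real.sinh (J e) := by
      rcases hε e with h | h
      · rw [h, one_mul, one_mul]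
      · rw [h, neg_one_mul, neg_one_mul, Real.sinh_neg]
    have hεa : |ε e| = 1 := by
      rcases hε e with h | h
      · rw [h, abs_one]
      · rw [h, abs_neg, abs_one]
    have hch : 0 ≤ Real.cosh (J e) := (Real.cosh_pos _).le
    have hsh : 0 ≤ Real.sinh (J e) := Real.sinh_nonneg_iff.2 hJe
    refine (abs_add_le _ _).trans (add_le_add ?_ ?_)
    · rw [abs_mul, hc, abs_of_nonneg hch]
      exact mul_le_mul_of_nonneg_left (ih' l) hch
    · rw [abs_mul, hs, abs_mul, hεa, one_mul, abs_of_nonneg hsh]
      exact mul_le_mul_of_nonneg_left (ih' _) hsh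

theorem pA_eq (D : Finset V) (F : Finset Edge) (J : Edge → ℝ) (A : Finset V) :
    pA D F J A = T D F J A.toList := by
  unfold pA T
  refine sum_congr rfl fun M _ => ?_
  rw [Finset.prod_map_toList]

end G1

theorem p_G1 : S_G1 := by
  intro D F J A hJ
  rw [G1.pA_eq]
  exact (abs_nonneg _).trans (G1.main D F J (fun _ => 1) hJ (fun _ => Or.inl rfl) A.toList)

end XorIsing
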