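import Pool.Agent.Work.MP_bda6fa_nest.Interface
set_option autoImplicit false

namespace XorIsing
open scoped Classical
open Finset

/-- no edge of η at x -/
def NoE (η : Finset Edge) (x : V) : Prop := ∀ e ∈ η, e.1 ≠ x ∧ tip e ≠ x

theorem etab_tri (h : S_PETA) {η : Finset Edge} (hη : EvenAll η) {x : V} (hx : NoE η x) :
    (Par η (x, true) ↔ Par η (x - (1, 0), true)) ∧ (Par η (x, true) ↔ Par η (x - (0, 1), true)) ∧
    (Par η (x, true) ↔ Par η (x - (1, 0), false)) ∧ (Par η (x, true) ↔ Par η (x - (0, 1), false)) := by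
  have a1 : Par η (x, true) ↔ Par η (x - (0, 1), false) := by
    refine (h η (x, 0) (x, true) (x - (0, 1), false) hη (by simp) (by simp [tri]) (by simp [tri])).2 ?_
    intro he
    exact (hx _ he).1 rfl
  have a2 : Par η (x - (0, 1), false) ↔ Par η (x - (0, 1), true) := by
    refine (h η (x, 2) _ _ hη (by simp) (by simp [tri]) (by simp [tri])).2 ?_
    intro he
    exact (hx _ he).1 rfl
  have a3 : Par η (x, true) ↔ Par η (x - (1, 0), false) := by
    refine (h η (x, 1) _ _ hη (by simp) (by simp [tri]) (by simp [tri])).2 ?_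
    intro he
    exact (hx _ he).1 rfl
  have a4 : Par η (x - (1, 0), false) ↔ Par η (x - (1, 0), true) := by
    refine (h η (x - (1, 0) + (0, 1), 2) _ _ hη (by simp) (by simp [tri]) (by simp [tri])).2 ?_
    intro he
    refine (hx _ he).2 ?_
    obtain ⟨a, b⟩ := x
    simp [tip, dir]
  exact ⟨a3.trans a4, a1.trans a2, a3, a1⟩

theorem etab_dir (h : S_PETA) {η : Finset Edge} (hη : EvenAll η) {x x' : V} (hx : NoE η x) (hx' : NoE η x')
    (k : Fin 3) (hk : x' = x + dir k) : Par η (x, true) ↔ Par η (x', true) := by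
  have b := etab_tri h hη hx
  have b' := etab_tri h hη hx'
  fin_cases k
  · have e : x' - (1, 0) = x := by rw [hk]; simp [dir]
    rw [e] at b'
    exact b'.1.symm
  · have e : x' - (0, 1) = x := by rw [hk]; simp [dir]
    rw [e] at b'
    exact b'.2.1.symm
  · have e : x' - (1, 0) = x - (0, 1) := by
      rw [hk]
      obtain ⟨a, b⟩ := x
      simp [dir]
      ring
    rw [e] at b'
    exact b.2.2.2.trans b'.2.2.1.symm

theorem etab_adj (h : S_PETA) {η : Finset Edge} (hη : EvenAll η) {x x' : V} (hx : NoE η x) (hx' : NoE η x')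
    (ha : Adj x x') : Par η (x, true) ↔ Par η (x', true) := by
  obtain ⟨k, hk | hk⟩ := ha
  · exact etab_dir h hη hx hx' k hk
  · exact (etab_dir h hη hx' hx k hk).symm

theorem etab_path (h : S_PETA) {η : Finset Edge} (hη : EvenAll η) {B : Finset V}
    (hB : ∀ b : V, b ∉ B → NoE η b) {y z : V} (hy : NoE η y)
    (hp : Relation.ReflTransGen (fun a b => b ∉ B ∧ Adj a b) y z) :
    NoE η z ∧ (Par η (y, true) ↔ Par η (z, true)) := by
  induction hp with
  | refl => exact ⟨hy, Iff.rfl⟩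
  | tail _ hbc ih =>
    obtain ⟨h1, h2⟩ := ih
    have h3 := hB _ hbc.1
    exact ⟨h3, h2.trans (etab_adj h hη h1 h3 hbc.2)⟩

theorem etab_box (h : S_PETA) {η : Finset Edge} (hη : EvenAll η) {ρ : ℕ}
    (hB : ∀ b : V, b ∈ box ρ → NoE η b) :
    ∀ n : ℕ, ∀ y : V, y.1.natAbs + y.2.natAbs = n → y ∈ box ρ →
      (Par η (((0, 0), true) : V × Bool) ↔ Par η (y, true)) := by
  intro n
  induction n with
  | zero =>
    intro y hy _
    have h1 : y = (0, 0) := Prod.ext (by show y.1 = 0; omega) (by show y.2 = 0; omega)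
    rw [h1]
  | succ n ih =>
    intro y hy hyb
    have hyb' := mem_box.1 hyb
    rcases lt_trichotomy y.1 0 with h1 | h1 | h1
    · have hm : ((y.1 + 1, y.2) : V) ∈ box ρ :=
        mem_box.2 ⟨⟨by show _ ≤ y.1 + 1; omega, by show y.1 + 1 ≤ _; omega⟩, hyb'.2⟩
      refine (ih (y.1 + 1, y.2) (by show (y.1 + 1).natAbs + y.2.natAbs = n; omega) hm).trans ?_
      refine etab_adj h hη (hB _ hm) (hB _ hyb) ⟨0, Or.inr ?_⟩
      refine Prod.ext ?_ ?_ <;> simp [dir]
    · rcases lt_trichotomy y.2 0 with h2 | h2 | h2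
      · have hm : ((y.1, y.2 + 1) : V) ∈ box ρ :=
          mem_box.2 ⟨hyb'.1, ⟨by show _ ≤ y.2 + 1; omega, by show y.2 + 1 ≤ _; omega⟩⟩
        refine (ih (y.1, y.2 + 1) (by show y.1.natAbs + (y.2 + 1).natAbs = n; omega) hm).trans ?_
        refine etab_adj h hη (hB _ hm) (hB _ hyb) ⟨1, Or.inr ?_⟩
        refine Prod.ext ?_ ?_ <;> simp [dir]
      · omega
      · have hm : ((y.1, y.2 - 1) : V) ∈ box ρ :=
          mem_box.2 ⟨hyb'.1, ⟨by show _ ≤ y.2 - 1; omega, by show y.2 - 1 ≤ _; omega⟩⟩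
        refine (ih (y.1, y.2 - 1) (by show y.1.natAbs + (y.2 - 1).natAbs = n; omega) hm).trans ?_
        refine etab_adj h hη (hB _ hm) (hB _ hyb) ⟨1, Or.inl ?_⟩
        refine Prod.ext ?_ ?_ <;> simp [dir]
    · have hm : ((y.1 - 1, y.2) : V) ∈ box ρ :=
        mem_box.2 ⟨⟨by show _ ≤ y.1 - 1; omega, by show y.1 - 1 ≤ _; omega⟩, hyb'.2⟩
      refine (ih (y.1 - 1, y.2) (by show (y.1 - 1).natAbs + y.2.natAbs = n; omega) hm).trans ?_
      refine etab_adj h hη (hB _ hm) (hB _ hyb) ⟨0, Or.inl ?_⟩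
      refine Prod.ext ?_ ?_ <;> simp [dir]

theorem p_ETAB (h : S_PETA) : S_ETAB := by
  intro D C η ρ hD hC hη hbox hηC hpar y hy
  by_contra hcon
  unfold Blocks at hcon
  push Not at hcon
  obtain ⟨hyC, z, hpath, hzD⟩ := hcon
  have hNC : ∀ b : V, b ∉ C → NoE η b := by
    intro b hb e he
    obtain ⟨h1, h2⟩ := hηC e he
    exact ⟨fun h3 => hb (h3 ▸ h1), fun h3 => hb (h3 ▸ h2)⟩
  have hNB : ∀ b : V, b ∈ box ρ → NoE η b := by
    intro b hb e he
    obtain ⟨h1, h2⟩ := hbox e he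
    exact ⟨fun h3 => h1 (h3 ▸ hb), fun h3 => h2 (h3 ▸ hb)⟩
  have hND : ∀ b : V, b ∉ D → NoE η b := fun b hb => hNC b (fun h1 => hb (hC h1))
  obtain ⟨N, hN⟩ := Finset.exists_le (D.image (fun v => v.1) ∪ η.image (fun e => e.1.1))
  have hzfar : ((N + 1, 0) : V) ∉ D := by
    intro h1
    have := hN _ (mem_union_left _ (mem_image_of_mem (fun v : V => v.1) h1))
    have h2 : (N + 1 : ℤ) ≤ N := this
    omega
  have hfar : ¬ Par η (((N + 1, 0), true) : V × Bool) := by
    unfold Par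
    have h1 : η.filter (fun e => cut (((N + 1, 0), true) : V × Bool) e) = ∅ := by
      rw [filter_eq_empty_iff]
      intro e he hc
      have h2 : e.1.1 ≤ N := hN _ (mem_union_right _ (mem_image_of_mem (fun e : Edge => e.1.1) he))
      rcases hc with ⟨_, _, h3⟩ | ⟨_, _, h3⟩
      · have h4 : (N + 1 : ℤ) + 1 ≤ e.1.1 := h3
        omega
      · have h4 : (N + 1 : ℤ) ≤ e.1.1 := by simpa using h3
        omega
    rw [h1]
    simp
  obtain ⟨h1, h2⟩ := etab_path h hη hNC (hNC y hyC) hpath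
  obtain ⟨_, h3⟩ := etab_path h hη hND (hND z hzD) (hD z (N + 1, 0) hzD hzfar)
  have h4 := etab_box h hη hNB _ y rfl hy
  exact hfar ((h4.trans (h2.trans h3)).1 hpar)

end XorIsing
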