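import Pool.Agent.Work.MP_bda6fa_nest.Interface
set_option autoImplicit false

/-! FACT: the weight of a configuration without edges between A and the rest factorizes. -/

namespace XorIsing
open scoped Classical
open Finset

theorem fact_sum {ω₁ ω₂ : Finset Edge} (hd : Disjoint ω₁ ω₂) (f : Finset Edge → ℝ) :
    ∑ η ∈ (ω₁ ∪ ω₂).powerset, f η = ∑ η₁ ∈ ω₁.powerset, ∑ η₂ ∈ ω₂.powerset, f (η₁ ∪ η₂) := by
  rw [← sum_product']
  refine sum_nbij' (fun η => (η ∩ ω₁, η ∩ ω₂)) (fun p => p.1 ∪ p.2) ?_ ?_ ?_ ?_ ?_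
  · intro η _
    exact mem_product.2 ⟨mem_powerset.2 inter_subset_right, mem_powerset.2 inter_subset_right⟩
  · intro p hp
    obtain ⟨h1, h2⟩ := mem_product.1 hp
    exact mem_powerset.2 (union_subset_union (mem_powerset.1 h1) (mem_powerset.1 h2))
  · intro η hη
    have h := mem_powerset.1 hη
    show η ∩ ω₁ ∪ η ∩ ω₂ = η
    rw [← inter_union_distrib_left, inter_eq_left]
    exact h
  · rintro ⟨a, b⟩ hp
    obtain ⟨h1, h2⟩ := mem_product.1 hp
    have h1' : a ⊆ ω₁ := mem_powerset.1 h1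
    have h2' : b ⊆ ω₂ := mem_powerset.1 h2
    show ((a ∪ b) ∩ ω₁, (a ∪ b) ∩ ω₂) = (a, b)
    have e1 : (a ∪ b) ∩ ω₁ = a := by
      rw [union_inter_distrib_right, inter_eq_left.2 h1',
        disjoint_iff_inter_eq_empty.1 (disjoint_of_subset_left h2' hd.symm), union_empty]
    have e2 : (a ∪ b) ∩ ω₂ = b := by
      rw [union_inter_distrib_right, inter_eq_left.2 h2',
        disjoint_iff_inter_eq_empty.1 (disjoint_of_subset_left h1' hd), empty_union]
    rw [e1, e2]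
  · intro η hη
    have h := mem_powerset.1 hη
    show f η = f (η ∩ ω₁ ∪ η ∩ ω₂)
    rw [← inter_union_distrib_left, inter_eq_left.2 h]

theorem fact_even {A B : Finset V} {ω₁ ω₂ η₁ η₂ : Finset Edge} (hAB : Disjoint A B) (h1 : ω₁ ⊆ inn A)
    (h2 : ∀ e ∈ ω₂, e.1 ∉ A ∧ tip e ∉ A) (he1 : η₁ ⊆ ω₁) (he2 : η₂ ⊆ ω₂) :
    EvenOn (A ∪ B) (η₁ ∪ η₂) ↔ EvenOn A η₁ ∧ EvenOn B η₂ := by
  have hA : ∀ v ∈ A, (η₁ ∪ η₂).filter (fun e => e.1 = v ∨ tip e = v) =
      η₁.filter (fun e => e.1 = v ∨ tip e = v) := by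
    intro v hv
    rw [filter_union]
    have : η₂.filter (fun e => e.1 = v ∨ tip e = v) = ∅ := by
      refine filter_eq_empty_iff.2 fun e he h => ?_
      obtain ⟨h3, h4⟩ := h2 e (he2 he)
      rcases h with h | h
      · exact h3 (h ▸ hv)
      · exact h4 (h ▸ hv)
    rw [this, union_empty]
  have hB : ∀ v ∈ B, (η₁ ∪ η₂).filter (fun e => e.1 = v ∨ tip e = v) =
      η₂.filter (fun e => e.1 = v ∨ tip e = v) := by
    intro v hv
    have hvA : v ∉ A := fun h => disjoint_left.1 hAB h hv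
    rw [filter_union]
    have : η₁.filter (fun e => e.1 = v ∨ tip e = v) = ∅ := by
      refine filter_eq_empty_iff.2 fun e he h => ?_
      obtain ⟨h3, h4⟩ := mem_inn.1 (h1 (he1 he))
      rcases h with h | h
      · exact hvA (h ▸ h3)
      · exact hvA (h ▸ h4)
    rw [this, empty_union]
  constructor
  · intro h
    refine ⟨fun v hv => ?_, fun v hv => ?_⟩
    · rw [← hA v hv]; exact h v (mem_union_left _ hv)
    · rw [← hB v hv]; exact h v (mem_union_right _ hv)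
  · rintro ⟨h3, h4⟩ v hv
    rcases mem_union.1 hv with h | h
    · rw [hA v h]; exact h3 v h
    · rw [hB v h]; exact h4 v h

theorem fact_g (β : ℝ) {A B : Finset V} {ω₁ ω₂ : Finset Edge} (hAB : Disjoint A B) (h1 : ω₁ ⊆ inn A)
    (h2 : ∀ e ∈ ω₂, e.1 ∉ A ∧ tip e ∉ A) (hd : Disjoint ω₁ ω₂) :
    g β (A ∪ B) (ω₁ ∪ ω₂) = g β A ω₁ * g β B ω₂ := by
  unfold g
  rw [fact_sum hd, sum_mul_sum]
  refine sum_congr rfl fun η₁ he1 => sum_congr rfl fun η₂ he2 => ?_
  have he1' := mem_powerset.1 he1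
  have he2' := mem_powerset.1 he2
  have hev := fact_even (B := B) hAB h1 h2 he1' he2'
  have hde : Disjoint η₁ η₂ := disjoint_of_subset_left he1' (disjoint_of_subset_right he2' hd)
  by_cases h3 : EvenOn A η₁
  · by_cases h4 : EvenOn B η₂
    · rw [if_pos (hev.2 ⟨h3, h4⟩), if_pos h3, if_pos h4, card_union_of_disjoint hde,
        card_union_of_disjoint hd]
      have hc1 := card_le_card he1'
      have hc2 := card_le_card he2'
      have e : ω₁.card + ω₂.card - (η₁.card + η₂.card) = (ω₁.card - η₁.card) + (ω₂.card - η₂.card) := by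
        omega
      rw [e, pow_add, pow_add]
      ring
    · rw [if_neg (fun h => h4 (hev.1 h).2), if_neg h4, mul_zero]
  · rw [if_neg (fun h => h3 (hev.1 h).1), if_neg h3, zero_mul]

theorem FConn_mono {ω ω' : Finset Edge} (h : ω ⊆ ω') {u v : V} (hc : FConn ω u v) : FConn ω' u v := by
  induction hc with
  | refl => exact Relation.ReflTransGen.refl
  | tail _ hbc ih =>
    obtain ⟨k, ⟨h1, h2⟩ | ⟨h1, h2⟩⟩ := hbc
    · exact ih.tail ⟨k, Or.inl ⟨h h1, h2⟩⟩
    · exact ih.tail ⟨k, Or.inr ⟨h h1, h2⟩⟩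

theorem fact_connA {A : Finset V} {ω₁ ω₂ : Finset Edge} (h1 : ω₁ ⊆ inn A)
    (h2 : ∀ e ∈ ω₂, e.1 ∉ A ∧ tip e ∉ A) {v w : V} (hv : v ∈ A) (h : FConn (ω₁ ∪ ω₂) v w) :
    FConn ω₁ v w ∧ w ∈ A := by
  induction h with
  | refl => exact ⟨Relation.ReflTransGen.refl, hv⟩
  | @tail b c _ hbc ih =>
    obtain ⟨ih1, ih2⟩ := ih
    obtain ⟨k, ⟨h3, h4⟩ | ⟨h3, h4⟩⟩ := hbc
    · rcases mem_union.1 h3 with h5 | h5
      · refine ⟨ih1.tail ⟨k, Or.inl ⟨h5, h4⟩⟩, ?_⟩
        have := (mem_inn.1 (h1 h5)).2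
        rw [h4]; exact this
      · exact absurd ih2 (h2 _ h5).1
    · rcases mem_union.1 h3 with h5 | h5
      · exact ⟨ih1.tail ⟨k, Or.inr ⟨h5, h4⟩⟩, (mem_inn.1 (h1 h5)).1⟩
      · have := (h2 _ h5).2
        rw [h4] at ih2
        exact absurd ih2 this

theorem fact_connB {A : Finset V} {ω₁ ω₂ : Finset Edge} (h1 : ω₁ ⊆ inn A)
    (h2 : ∀ e ∈ ω₂, e.1 ∉ A ∧ tip e ∉ A) {v w : V} (hv : v ∉ A) (h : FConn (ω₁ ∪ ω₂) v w) :
    FConn ω₂ v w ∧ w ∉ A := by
  induction h with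
  | refl => exact ⟨Relation.ReflTransGen.refl, hv⟩
  | @tail b c _ hbc ih =>
    obtain ⟨ih1, ih2⟩ := ih
    obtain ⟨k, ⟨h3, h4⟩ | ⟨h3, h4⟩⟩ := hbc
    · rcases mem_union.1 h3 with h5 | h5
      · exact absurd (mem_inn.1 (h1 h5)).1 ih2
      · refine ⟨ih1.tail ⟨k, Or.inl ⟨h5, h4⟩⟩, ?_⟩
        have := (h2 _ h5).2
        rw [h4]; exact this
    · rcases mem_union.1 h3 with h5 | h5
      · have := (mem_inn.1 (h1 h5)).2
        rw [h4] at ih2
        exact absurd this ih2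
      · exact ⟨ih1.tail ⟨k, Or.inr ⟨h5, h4⟩⟩, (h2 _ h5).1⟩

theorem fact_clusters {A B : Finset V} {ω₁ ω₂ : Finset Edge} (hAB : Disjoint A B) (h1 : ω₁ ⊆ inn A)
    (h2 : ∀ e ∈ ω₂, e.1 ∉ A ∧ tip e ∉ A) :
    fclusters (A ∪ B) (ω₁ ∪ ω₂) = fclusters A ω₁ ∪ fclusters B ω₂ := by
  ext C
  rw [mem_union, mem_fclusters, mem_fclusters, mem_fclusters]
  constructor
  · rintro ⟨v, hv, h3, h4⟩
    rcases mem_union.1 hv with hvA | hvB
    · left
      refine ⟨v, hvA, fun w hw => (fact_connA h1 h2 hvA (FConn_mono subset_union_left hw)).2, fun u => ?_⟩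
      rw [h4]
      exact ⟨fun h => (fact_connA h1 h2 hvA h).1, fun h => FConn_mono subset_union_left h⟩
    · right
      have hvA : v ∉ A := fun h => disjoint_left.1 hAB h hvB
      refine ⟨v, hvB, fun w hw => ?_, fun u => ?_⟩
      · have hw' := FConn_mono (subset_union_right (s₁ := ω₁)) hw
        rcases mem_union.1 (h3 w hw') with h | h
        · exact absurd h (fact_connB h1 h2 hvA hw').2
        · exact h
      · rw [h4]
        exact ⟨fun h => (fact_connB h1 h2 hvA h).1, fun h => FConn_mono subset_union_right h⟩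
  · rintro (⟨v, hvA, h3, h4⟩ | ⟨v, hvB, h3, h4⟩)
    · refine ⟨v, mem_union_left _ hvA, fun w hw => mem_union_left _ (fact_connA h1 h2 hvA hw).2,
        fun u => ?_⟩
      rw [h4]
      exact ⟨fun h => FConn_mono subset_union_left h, fun h => (fact_connA h1 h2 hvA h).1⟩
    · have hvA : v ∉ A := fun h => disjoint_left.1 hAB h hvB
      refine ⟨v, mem_union_right _ hvB, fun w hw => mem_union_right _
        (h3 w (fact_connB h1 h2 hvA hw).1), fun u => ?_⟩
      rw [h4]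
      exact ⟨fun h => FConn_mono subset_union_right h, fun h => (fact_connB h1 h2 hvA h).1⟩

theorem fact_disj {A B : Finset V} {ω₁ ω₂ : Finset Edge} (hAB : Disjoint A B) :
    Disjoint (fclusters A ω₁) (fclusters B ω₂) := by
  rw [disjoint_left]
  intro C hA hB
  obtain ⟨v, hv, h1, h2⟩ := mem_fclusters.1 hA
  obtain ⟨w, _, h3, h4⟩ := mem_fclusters.1 hB
  have hvC : v ∈ C := (h2 v).2 Relation.ReflTransGen.refl
  exact disjoint_left.1 hAB hv (h3 v ((h4 v).1 hvC))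

theorem p_FACT : S_FACT := by
  intro β A B ω₁ ω₂ hAB h1 h2
  have hd : Disjoint ω₁ ω₂ := by
    rw [disjoint_left]
    intro e he1 he2
    exact (h2 e he2).1 (mem_inn.1 (h1 he1)).1
  unfold dw
  rw [fact_g β hAB h1 h2 hd, fact_clusters hAB h1 h2, card_union_of_disjoint (fact_disj hAB), pow_add]
  ring

end XorIsing
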