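import Pool.Agent.Work.MP_bda6fa_nest.Interface
set_option autoImplicit false

namespace XorIsing
open scoped Classical
open Finset

namespace PLUSaux

theorem sum_prod_spin (A M : Finset V) :
    ∑ B ∈ A.powerset, ∏ a ∈ B, spin M a = if Disjoint M A then (2 : ℝ) ^ A.card else 0 := by
  have h1 : ∑ B ∈ A.powerset, ∏ a ∈ B, spin M a = ∏ a ∈ A, (1 + spin M a) := by
    rw [Finset.prod_one_add]
  rw [h1]
  split_ifs with h
  · rw [← Finset.prod_const]
    refine Finset.prod_congr rfl fun a ha => ?_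
    have h2 : a ∉ M := fun h3 => Finset.disjoint_left.1 h h3 ha
    rw [spin, if_neg h2]
    norm_num
  · rw [Finset.not_disjoint_iff] at h
    obtain ⟨a, ha, ha'⟩ := h
    refine Finset.prod_eq_zero ha' ?_
    rw [spin, if_pos ha]
    norm_num

theorem exp_eq (β : ℝ) (F : Finset Edge) (M : Finset V) :
    Real.exp (∑ e ∈ F, (fun _ => β) e * (spin M e.1 * spin M (tip e)))
      = Real.exp (β * ∑ e ∈ F, spin M e.1 * spin M (tip e)) := by
  rw [Finset.mul_sum]

theorem pA_empty (β : ℝ) (D : Finset V) (F : Finset Edge) : pA D F (fun _ => β) ∅ = pz β D F := by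
  unfold pA pz
  refine Finset.sum_congr rfl fun M _ => ?_
  rw [exp_eq, Finset.prod_empty, mul_one]

theorem sum_pA (β : ℝ) (D Λ : Finset V) (F : Finset Edge) (hΛ : Λ ⊆ D) :
    ∑ A ∈ (D \ Λ).powerset, pA D F (fun _ => β) A = (2 : ℝ) ^ (D \ Λ).card * pz β Λ F := by
  unfold pA pz
  rw [Finset.sum_comm]
  have h1 : ∀ M ∈ D.powerset, ∑ A ∈ (D \ Λ).powerset,
      Real.exp (∑ e ∈ F, (fun _ => β) e * (spin M e.1 * spin M (tip e))) * ∏ a ∈ A, spin M a
      = if Disjoint M (D \ Λ) then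
          (2 : ℝ) ^ (D \ Λ).card * Real.exp (β * ∑ e ∈ F, spin M e.1 * spin M (tip e)) else 0 := by
    intro M _
    rw [← Finset.mul_sum, sum_prod_spin, exp_eq]
    split_ifs
    · ring
    · ring
  rw [Finset.sum_congr rfl h1, ← Finset.sum_filter]
  have h2 : D.powerset.filter (fun M => Disjoint M (D \ Λ)) = Λ.powerset := by
    ext M
    rw [Finset.mem_filter, Finset.mem_powerset, Finset.mem_powerset]
    constructor
    · rintro ⟨h3, h4⟩ x hx
      by_contra h5
      exact Finset.disjoint_left.1 h4 hx (Finset.mem_sdiff.2 ⟨h3 hx, h5⟩)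
    · intro h3
      refine ⟨h3.trans hΛ, Finset.disjoint_left.2 fun x hx hx' => ?_⟩
      exact (Finset.mem_sdiff.1 hx').2 (h3 hx)
  rw [h2, Finset.mul_sum]

end PLUSaux

open PLUSaux in
theorem p_PLUS (h : S_GKM) : S_PLUS := by
  intro β D Λ F F' hβ hF hΛ
  have h1 : ∑ A ∈ (D \ Λ).powerset, pA D F' (fun _ => β) A * pA D F (fun _ => β) ∅
      ≤ ∑ A ∈ (D \ Λ).powerset, pA D F (fun _ => β) A * pA D F' (fun _ => β) ∅ :=
    Finset.sum_le_sum fun A _ => h β D F F' A hβ hF
  rw [← Finset.sum_mul, ← Finset.sum_mul, sum_pA β D Λ F' hΛ, sum_pA β D Λ F hΛ, pA_empty, pA_empty,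
    mul_assoc, mul_assoc] at h1
  exact le_of_mul_le_mul_left h1 (by positivity)

end XorIsing
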