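import Pool.Agent.Work.MP_bda6fa_nest.Interface
set_option autoImplicit false

namespace XorIsing
open scoped Classical
open Finset

/-- translate of an edge -/
def TRC.eS (v : V) (e : Edge) : Edge := (e.1 + v, e.2)

theorem TRC.mem_shift (v u : V) (M : Finset V) : u + v ∈ shift v M ↔ u ∈ M := by
  unfold shift
  rw [mem_image]
  constructor
  · rintro ⟨a, ha, h⟩
    rw [← add_right_cancel h]
    exact ha
  · intro h
    exact ⟨u, h, rfl⟩

theorem TRC.mem_shift' (v u : V) (M : Finset V) : u ∈ shift v M ↔ u - v ∈ M := by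
  rw [← TRC.mem_shift v (u - v) M, sub_add_cancel]

theorem TRC.shift_shift (v : V) (M : Finset V) : shift (-v) (shift v M) = M := by
  ext u
  rw [TRC.mem_shift', TRC.mem_shift']
  simp

theorem TRC.shift_shift' (v : V) (M : Finset V) : shift v (shift (-v) M) = M := by
  ext u
  rw [TRC.mem_shift', TRC.mem_shift']
  simp

theorem TRC.spin_shift (v u : V) (M : Finset V) : spin (shift v M) (u + v) = spin M u := by
  unfold spin
  simp only [TRC.mem_shift]

theorem TRC.tip_eS (v : V) (e : Edge) : tip (TRC.eS v e) = tip e + v := by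
  unfold tip TRC.eS
  exact add_right_comm _ _ _

theorem TRC.eS_inj (v : V) : Function.Injective (TRC.eS v) := by
  intro a b h
  unfold TRC.eS at h
  have h1 := congrArg Prod.fst h
  have h2 := congrArg Prod.snd h
  exact Prod.ext (add_right_cancel h1) h2

theorem TRC.eS_surj (v : V) (e : Edge) : TRC.eS v (e.1 - v, e.2) = e := by
  unfold TRC.eS
  rw [sub_add_cancel]

theorem TRC.near_shift (v : V) (D : Finset V) : near (shift v D) = (near D).image (TRC.eS v) := by
  ext e
  rw [mem_image]
  constructor
  · intro h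
    refine ⟨(e.1 - v, e.2), ?_, TRC.eS_surj v e⟩
    have e1 := TRC.eS_surj v e
    rw [← e1, mem_near, TRC.tip_eS, TRC.mem_shift] at h
    rw [mem_near]
    rcases h with h | h
    · left
      have : (TRC.eS v (e.1 - v, e.2)).1 = (e.1 - v) + v := rfl
      rw [this, TRC.mem_shift] at h
      exact h
    · exact Or.inr h
  · rintro ⟨a, ha, rfl⟩
    rw [mem_near] at ha ⊢
    rw [TRC.tip_eS, TRC.mem_shift]
    rcases ha with ha | ha
    · left
      exact (TRC.mem_shift v a.1 D).2 ha
    · exact Or.inr ha

theorem TRC.inn_shift (v : V) (D : Finset V) : inn (shift v D) = (inn D).image (TRC.eS v) := by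
  ext e
  rw [mem_image]
  constructor
  · intro h
    refine ⟨(e.1 - v, e.2), ?_, TRC.eS_surj v e⟩
    have e1 := TRC.eS_surj v e
    rw [← e1, mem_inn, TRC.tip_eS, TRC.mem_shift] at h
    rw [mem_inn]
    exact ⟨(TRC.mem_shift v _ D).1 h.1, h.2⟩
  · rintro ⟨a, ha, rfl⟩
    rw [mem_inn] at ha ⊢
    rw [TRC.tip_eS, TRC.mem_shift]
    exact ⟨(TRC.mem_shift v a.1 D).2 ha.1, ha.2⟩

theorem TRC.sum_powerset (v : V) (D : Finset V) (F : Finset V → ℝ) :
    ∑ M ∈ (shift v D).powerset, F M = ∑ M ∈ D.powerset, F (shift v M) := by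
  symm
  refine sum_nbij' (shift v) (shift (-v)) ?_ ?_ ?_ ?_ ?_
  · intro M hM
    rw [mem_powerset] at hM ⊢
    exact image_subset_image hM
  · intro M hM
    rw [mem_powerset] at hM ⊢
    have h := image_subset_image (f := fun u => u + -v) hM
    have h2 : (shift v D).image (fun u => u + -v) = D := TRC.shift_shift v D
    rw [h2] at h
    exact h
  · intro M _
    exact TRC.shift_shift v M
  · intro M _
    exact TRC.shift_shift' v M
  · intro M _
    rfl

theorem TRC.wt_shift (β : ℝ) (v : V) (D M : Finset V) :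
    wt β (shift v D) (shift v M) = wt β D M := by
  unfold wt
  rw [TRC.near_shift, sum_image (fun a _ b _ h => TRC.eS_inj v h)]
  congr 2
  apply sum_congr rfl
  intro e _
  rw [TRC.tip_eS, TRC.spin_shift]
  congr 1
  exact TRC.spin_shift v e.1 M

theorem p_TRC : S_TRC := by
  intro β n v
  unfold corr ZZ
  rw [TRC.sum_powerset, TRC.sum_powerset]
  have h0 : (v : V) = (0, 0) + v := by
    rw [show ((0, 0) : V) = 0 from rfl, zero_add]
  congr 1
  · apply sum_congr rfl
    intro M _
    rw [TRC.wt_shift, prod_singleton, prod_singleton]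
    congr 1
    have h1 := TRC.spin_shift v (0, 0) M
    rw [← h0] at h1
    exact h1
  · apply sum_congr rfl
    intro M _
    rw [TRC.wt_shift]

end XorIsing
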