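import Pool.Agent.Work.MP_bda6fa_nest.G1
set_option autoImplicit false

/-! Signs of the couplings only decrease the partition function (block G1s). -/

namespace XorIsing
open scoped Classical
open Finset

theorem p_G1s : S_G1s := by
  intro D F J ε hJ hε
  rw [G1.pA_eq, G1.pA_eq]
  exact (le_abs_self _).trans (G1.main D F J ε hJ hε _)

end XorIsing
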