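import Pool.Agent.Work.MP_bda6fa_nest.Interface
set_option autoImplicit false

/-! The probability that there is no circuit around a triangle (block DISF). -/

namespace XorIsing
open scoped Classical
open Finset

namespace DISF

/-- product of two sums over configurations: the second variable is the symmetric difference -/
theorem dbl (D : Finset V) (a b : Finset V → ℝ) :
    (∑ M ∈ D.powerset, a M) * (∑ M ∈ D.powerset, b M)
      = ∑ X ∈ D.powerset, ∑ M ∈ D.powerset, a (symmDiff X M) * b M := by
  rw [sum_mul_sum, sum_comm, sum_comm (s := D.powerset) (t := D.powerset)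
    (f := fun X M => a (symmDiff X M) * b M)]
  refine sum_congr rfl fun M hM => ?_
  rw [mem_powerset] at hM
  refine sum_nbij' (fun X => symmDiff X M) (fun X => symmDiff X M) ?_ ?_ ?_ ?_ ?_
  · intro X hX
    rw [mem_powerset] at hX ⊢
    exact symmDiff_sub hX hM
  · intro X hX
    rw [mem_powerset] at hX ⊢
    exact symmDiff_sub hX hM
  · intro X _
    exact symmDiff_symmDiff_cancel_right _ _
  · intro X _
    exact symmDiff_symmDiff_cancel_right _ _
  · intro X _
    simp only [symmDiff_symmDiff_cancel_right]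

/-- the signs of X agree with the cut on the edge e -/
def Q (t : V × Bool) (X : Finset V) (e : Edge) : Prop := ¬ (e.1 ∈ X ↔ tip e ∈ X) ↔ cut t e

theorem inner (β : ℝ) (H : Finset V) (F : Finset Edge) (t : V × Bool) (X : Finset V) :
    ∑ M ∈ H.powerset, Real.exp (β * ∑ e ∈ F, (if cut t e then -1 else 1) *
        (spin (symmDiff X M) e.1 * spin (symmDiff X M) (tip e))) *
        Real.exp (β * ∑ e ∈ F, spin M e.1 * spin M (tip e))
      = pz (2 * β) H (F.filter (Q t X)) := by
  unfold pz
  refine sum_congr rfl fun M _ => ?_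
  rw [← Real.exp_add]
  congr 1
  rw [sum_filter, mul_sum, mul_sum, mul_sum, ← sum_add_distrib]
  refine sum_congr rfl fun e _ => ?_
  rw [spin_symmDiff, spin_symmDiff]
  have hx : spin X e.1 * spin X (tip e) = if (e.1 ∈ X ↔ tip e ∈ X) then 1 else -1 := by
    unfold spin
    by_cases h1 : e.1 ∈ X <;> by_cases h2 : tip e ∈ X <;> simp [h1, h2]
  have h3 : spin X e.1 * spin M e.1 * (spin X (tip e) * spin M (tip e))
      = (spin X e.1 * spin X (tip e)) * (spin M e.1 * spin M (tip e)) := by ring
  rw [h3, hx]
  unfold Q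
  by_cases h1 : (e.1 ∈ X ↔ tip e ∈ X) <;> by_cases h2 : cut t e
  · rw [if_pos h1, if_pos h2, if_neg (by tauto)]
    ring
  · rw [if_pos h1, if_neg h2, if_pos (by tauto)]
    ring
  · rw [if_neg h1, if_pos h2, if_pos (iff_of_true h1 h2)]
    ring
  · rw [if_neg h1, if_neg h2, if_neg (by tauto)]
    ring

theorem count (H : Finset V) (t : V × Bool) (ω : Finset Edge) :
    (((H.powerset.filter (fun X => ∀ e ∈ ω, Q t X e)).card : ℕ) : ℝ)
      = if Ev H t ω then (2 : ℝ) ^ (fclusters H ω).card else 0 := by
  by_cases hE : Ev H t ω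
  · rw [if_pos hE]
    obtain ⟨X₀, hX₀, h0⟩ := hE
    have h1 : (H.powerset.filter (fun X => ∀ e ∈ ω, Q t X e)).card = (compat H ω).card := by
      refine card_nbij' (fun X => symmDiff X X₀) (fun X => symmDiff X X₀) ?_ ?_ ?_ ?_
      · intro X hX
        rw [mem_coe, mem_filter, mem_powerset] at hX
        rw [mem_coe, mem_compat]
        refine ⟨symmDiff_sub hX.1 hX₀, fun e he => ?_⟩
        have h2 := hX.2 e he
        have h3 := h0 e he
        unfold Q at h2
        rw [mem_symmDiff, mem_symmDiff]
        tauto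
      · intro X hX
        rw [mem_coe, mem_compat] at hX
        rw [mem_coe, mem_filter, mem_powerset]
        refine ⟨symmDiff_sub hX.1 hX₀, fun e he => ?_⟩
        have h2 := hX.2 e he
        have h3 := h0 e he
        unfold Q
        rw [mem_symmDiff, mem_symmDiff, ← h3]
        clear h3
        by_cases a1 : e.1 ∈ X <;> by_cases a2 : tip e ∈ X <;> by_cases a3 : e.1 ∈ X₀ <;>
          by_cases a4 : tip e ∈ X₀ <;> simp [a1, a2, a3, a4] at h2 ⊢
      · intro X _
        exact symmDiff_symmDiff_cancel_right _ _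
      · intro X _
        exact symmDiff_symmDiff_cancel_right _ _
    rw [h1, card_compat]
    push_cast
    rfl
  · rw [if_neg hE, Nat.cast_eq_zero, card_eq_zero, filter_eq_empty_iff]
    intro X hX h
    exact hE ⟨X, mem_powerset.1 hX, h⟩

end DISF

theorem p_DISF (h : S_HT) (h2 : S_SQ) : S_DISF := by
  intro β H F t _
  have key : pzc β H F t * pz β H F
      = 2 ^ H.card * ∑ ω ∈ F.powerset, dw β H ω * (if Ev H t ω then 1 else 0) := by
    have e1 : pzc β H F t * pz β H F
        = ∑ X ∈ H.powerset, pz (2 * β) H (F.filter (DISF.Q t X)) := by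
      unfold pzc
      nth_rw 1 [pz]
      rw [DISF.dbl]
      exact sum_congr rfl fun X _ => DISF.inner β H F t X
    rw [e1]
    have e2 : ∀ X ∈ H.powerset, pz (2 * β) H (F.filter (DISF.Q t X))
        = 2 ^ H.card * ∑ ω ∈ F.powerset, (if ∀ e ∈ ω, DISF.Q t X e then g β H ω else 0) := by
      intro X _
      rw [h β H (F.filter (DISF.Q t X)), ← sum_filter]
      congr 1
      refine sum_congr ?_ fun _ _ => rfl
      ext ω
      rw [mem_powerset, mem_filter, mem_powerset]
      constructor
      · intro h3
        exact ⟨fun e he => (mem_filter.1 (h3 he)).1, fun e he => (mem_filter.1 (h3 he)).2⟩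
      · rintro ⟨h3, h4⟩ e he
        exact mem_filter.2 ⟨h3 he, h4 e he⟩
    rw [sum_congr rfl e2, ← mul_sum, sum_comm]
    congr 1
    refine sum_congr rfl fun ω _ => ?_
    rw [← sum_filter, sum_const, nsmul_eq_mul, DISF.count, dw]
    split_ifs <;> ring
  have hsq := h2 β H F
  have hpz := (pz_pos β H F).ne'
  have hp : (0 : ℝ) < 2 ^ H.card := by positivity
  have e3 : pzc β H F t / pz β H F = (pzc β H F t * pz β H F) / (pz β H F ^ 2) := by
    field_simp
  rw [e3, key, hsq, mul_div_mul_left _ _ hp.ne']
  rfl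

end XorIsing
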