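import Pool.Agent.Work.MP_bda6fa_nest.Interface
set_option autoImplicit false

namespace XorIsing
open scoped Classical
open Finset

theorem p_CLH : S_CLH := by
  intro D Λ C ω hΛ _ hC
  rw [mem_fclusters] at hC
  obtain ⟨v, hv, -, h3⟩ := hC
  have hv' := Finset.mem_filter.1 hv
  have hin : ∀ u, FConn ω v u → u ∈ Hof D Λ ω := by
    intro u hu
    refine Finset.mem_filter.2 ⟨hΛ (hv'.2 u hu), fun w hw => hv'.2 w (hu.trans hw)⟩
  have h4 : ∀ u, FConn (ω ∩ inn (Hof D Λ ω)) v u ↔ FConn ω v u := by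
    intro u
    constructor
    · intro h
      induction h with
      | refl => exact Relation.ReflTransGen.refl
      | @tail b c _ hbc ih =>
        refine Relation.ReflTransGen.tail ih ?_
        obtain ⟨k, ⟨h5, h6⟩ | ⟨h5, h6⟩⟩ := hbc
        · exact ⟨k, Or.inl ⟨(Finset.mem_inter.1 h5).1, h6⟩⟩
        · exact ⟨k, Or.inr ⟨(Finset.mem_inter.1 h5).1, h6⟩⟩
    · intro h
      induction h with
      | refl => exact Relation.ReflTransGen.refl
      | @tail b c hvb hbc ih =>
        refine Relation.ReflTransGen.tail ih ?_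
        have hb : b ∈ Hof D Λ ω := hin b hvb
        have hc : c ∈ Hof D Λ ω := hin c (Relation.ReflTransGen.tail hvb hbc)
        obtain ⟨k, ⟨h5, h6⟩ | ⟨h5, h6⟩⟩ := hbc
        · refine ⟨k, Or.inl ⟨Finset.mem_inter.2 ⟨h5, mem_inn.2 ⟨hb, ?_⟩⟩, h6⟩⟩
          have h7 : tip (b, k) = c := h6.symm
          rw [h7]
          exact hc
        · refine ⟨k, Or.inr ⟨Finset.mem_inter.2 ⟨h5, mem_inn.2 ⟨hc, ?_⟩⟩, h6⟩⟩
          have h7 : tip (c, k) = b := h6.symm
          rw [h7]
          exact hb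
  constructor
  · rw [mem_fclusters]
    exact ⟨v, hv'.1, fun w hw => hΛ (hv'.2 w hw), fun u => (h3 u).trans (h4 u)⟩
  · intro u hu
    exact hv'.2 u ((h4 u).1 ((h3 u).1 hu))

end XorIsing
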