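import Pool.Agent.Work.MP_bda6fa_nest.Interface
set_option autoImplicit false

/-! CLUS: the probability that C is the cluster of x. -/

namespace XorIsing
open scoped Classical
open Finset

noncomputable section

theorem clus_pz_avoid (β : ℝ) {D C : Finset V} {F : Finset Edge} (hC : C ⊆ D)
    (hF : ∀ e ∈ F, e.1 ∉ C ∧ tip e ∉ C) : pz β D F = 2 ^ C.card * pz β (D \ C) F := by
  unfold pz
  have h1 : ∑ M ∈ D.powerset, Real.exp (β * ∑ e ∈ F, spin M e.1 * spin M (tip e)) =
      ∑ x ∈ (D \ C).powerset ×ˢ C.powerset, Real.exp (β * ∑ e ∈ F, spin x.1 e.1 * spin x.1 (tip e)) := by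
    refine sum_nbij' (fun M => (M \ C, M ∩ C)) (fun x => x.1 ∪ x.2) ?_ ?_ ?_ ?_ ?_
    · intro M hM
      rw [mem_product, mem_powerset, mem_powerset]
      exact ⟨sdiff_subset_sdiff (mem_powerset.1 hM) (le_refl C), inter_subset_right⟩
    · intro x hx
      rw [mem_product, mem_powerset, mem_powerset] at hx
      exact mem_powerset.2 (union_subset (hx.1.trans sdiff_subset) (hx.2.trans hC))
    · intro M _
      exact sdiff_union_inter M C
    · intro x hx
      rw [mem_product, mem_powerset, mem_powerset] at hx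
      refine Prod.ext ?_ ?_
      · ext v
        simp only [mem_sdiff, mem_union]
        constructor
        · rintro ⟨h2 | h2, h3⟩
          · exact h2
          · exact absurd (hx.2 h2) h3
        · intro h2
          exact ⟨Or.inl h2, (mem_sdiff.1 (hx.1 h2)).2⟩
      · ext v
        simp only [mem_inter, mem_union]
        constructor
        · rintro ⟨h2 | h2, h3⟩
          · exact absurd h3 (mem_sdiff.1 (hx.1 h2)).2
          · exact h2
        · intro h2
          exact ⟨Or.inr h2, hx.2 h2⟩
    · intro M _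
      congr 2
      refine sum_congr rfl fun e he => ?_
      have h2 := hF e he
      have h3 : ∀ v : V, v ∉ C → spin M v = spin (M \ C) v := by
        intro v hv
        unfold spin
        by_cases h4 : v ∈ M
        · rw [if_pos h4, if_pos (mem_sdiff.2 ⟨h4, hv⟩)]
        · rw [if_neg h4, if_neg (fun h5 => h4 (mem_sdiff.1 h5).1)]
      rw [h3 _ h2.1, h3 _ h2.2]
  rw [h1, sum_product]
  simp only [sum_const, card_powerset, nsmul_eq_mul]
  rw [mul_sum]
  refine sum_congr rfl fun N _ => ?_
  push_cast
  ring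

theorem clus_fconn_mono {ω ω' : Finset Edge} (h : ω ⊆ ω') {u v : V} (huv : FConn ω u v) : FConn ω' u v := by
  unfold FConn at huv ⊢
  induction huv with
  | refl => exact Relation.ReflTransGen.refl
  | @tail b c _ hbc ih =>
    refine Relation.ReflTransGen.tail ih ?_
    obtain ⟨k, h1 | h1⟩ := hbc
    · exact ⟨k, Or.inl ⟨h h1.1, h1.2⟩⟩
    · exact ⟨k, Or.inr ⟨h h1.1, h1.2⟩⟩

theorem clus_iff {C : Finset V} {x : V} (hx : x ∈ C) (ω : Finset Edge) :
    (∀ w, FConn ω x w ↔ w ∈ C) ↔
      (Disjoint ω (near C \ inn C) ∧ ∀ v ∈ C, FConn (ω ∩ inn C) x v) := by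
  constructor
  · intro h
    have key : ∀ e ∈ ω, (e.1 ∈ C ∨ tip e ∈ C) → e.1 ∈ C ∧ tip e ∈ C := by
      rintro e he (h1 | h1)
      · refine ⟨h1, (h _).1 (((h _).2 h1).trans (FConn_edge he))⟩
      · refine ⟨(h _).1 (((h _).2 h1).trans (FConn_symm (FConn_edge he))), h1⟩
    refine ⟨?_, ?_⟩
    · rw [disjoint_left]
      intro e he h1
      rw [mem_sdiff, mem_near, mem_inn] at h1
      exact h1.2 (key e he h1.1)
    · intro v hv
      have h1 : FConn ω x v := (h v).2 hv
      have h2 : ∀ v, FConn ω x v → FConn (ω ∩ inn C) x v := by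
        intro v h3
        unfold FConn at h3
        induction h3 with
        | refl => exact Relation.ReflTransGen.refl
        | @tail b c hb hbc ih =>
          have hbC : b ∈ C := (h b).1 hb
          refine Relation.ReflTransGen.tail ih ?_
          obtain ⟨k, h4 | h4⟩ := hbc
          · refine ⟨k, Or.inl ⟨?_, h4.2⟩⟩
            rw [mem_inter, mem_inn]
            exact ⟨h4.1, key (b, k) h4.1 (Or.inl hbC)⟩
          · refine ⟨k, Or.inr ⟨?_, h4.2⟩⟩
            rw [mem_inter, mem_inn]
            refine ⟨h4.1, key (c, k) h4.1 (Or.inr ?_)⟩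
            have h5 : tip (c, k) = b := by rw [h4.2]; rfl
            rw [h5]
            exact hbC
      exact h2 v h1
  · rintro ⟨h1, h2⟩ w
    constructor
    · intro h3
      unfold FConn at h3
      have key : ∀ e ∈ ω, (e.1 ∈ C ∨ tip e ∈ C) → e.1 ∈ C ∧ tip e ∈ C := by
        intro e he h4
        by_contra h5
        rw [disjoint_left] at h1
        refine h1 he ?_
        rw [mem_sdiff, mem_near, mem_inn]
        exact ⟨h4, h5⟩
      induction h3 with
      | refl => exact hx
      | @tail b c hb hbc ih =>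
        obtain ⟨k, h4 | h4⟩ := hbc
        · have h5 := (key (b, k) h4.1 (Or.inl ih)).2
          rw [h4.2]
          exact h5
        · have h6 : tip (c, k) = b := by rw [h4.2]; rfl
          exact (key (c, k) h4.1 (Or.inr (by rw [h6]; exact ih))).1
    · intro hw
      exact clus_fconn_mono inter_subset_left (h2 w hw)

theorem p_CLUS (h : S_SPLIT) (h2 : S_SQ) : S_CLUS := by
  intro C x β hβ hx
  let f : Finset Edge → ℝ := fun ω => if ∀ v ∈ C, FConn ω x v then 1 else 0
  let A : ℝ := ∑ ω ∈ (inn C).powerset, dw β C ω * f ω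
  have hA : 0 ≤ A := by
    refine sum_nonneg fun ω _ => mul_nonneg (dw_nonneg hβ C ω) ?_
    simp only [f]
    split_ifs <;> norm_num
  refine ⟨A / 2 ^ C.card, by positivity, ?_⟩
  intro D hCD
  have h3 : ∑ ω ∈ (near D).powerset, dw β D ω * (if ∀ w, FConn ω x w ↔ w ∈ C then (1 : ℝ) else 0) =
      A * DW β (D \ C) (near D \ near C) := by
    have h4 := h β D C f (fun _ => 1) hCD
    have h5 : ∑ ω ∈ (near D).powerset, dw β D ω * (if ∀ w, FConn ω x w ↔ w ∈ C then (1 : ℝ) else 0) =
        ∑ ω ∈ (near D).powerset, dw β D ω *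
          (if Disjoint ω (near C \ inn C) then f (ω ∩ inn C) * 1 else 0) := by
      refine sum_congr rfl fun ω _ => ?_
      congr 1
      by_cases h6 : Disjoint ω (near C \ inn C)
      · rw [if_pos h6, mul_one]
        simp only [f]
        refine if_congr ?_ rfl rfl
        rw [clus_iff hx]
        exact ⟨fun h7 => h7.2, fun h7 => ⟨h6, h7⟩⟩
      · rw [if_neg h6, if_neg]
        rw [clus_iff hx]
        exact fun h7 => h6 h7.1
    rw [h5, h4]
    simp only [mul_one]
    rfl
  unfold dP
  rw [h3]
  have h6 := h2 β (D \ C) (near D \ near C)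
  have h7 := h2 β D (near D)
  have h8 := clus_pz_avoid β hCD (F := near D \ near C) (by
    intro e he
    rw [mem_sdiff, mem_near, mem_near] at he
    push Not at he
    exact he.2)
  have h9 : D.card = (D \ C).card + C.card := (card_sdiff_add_card_eq_card hCD).symm
  have h10 : 0 < DW β D (near D) := DW_pos hβ D (near D)
  have h11 : 0 < pz β D (near D) := pz_pos β D (near D)
  have h12 : (0 : ℝ) < 2 ^ C.card := by positivity
  have h13 : (0 : ℝ) < 2 ^ (D \ C).card := by positivity
  rw [h8, div_pow, mul_pow, h6, h7, h9, pow_add]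
  field_simp

end

end XorIsing
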