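import Pool.Agent.Work.MP_bda6fa_nest.Interface
set_option autoImplicit false

namespace XorIsing
open scoped Classical
open Finset

namespace CONNaux

theorem dP_sum (β : ℝ) (D Λ : Finset V) (F : Finset Edge) (x : V) :
    dP β D F (fun ω => ∀ w, FConn ω x w → w ∈ Λ)
      = ∑ C ∈ Λ.powerset.filter (fun C => x ∈ C), dP β D F (fun ω => ∀ w, FConn ω x w ↔ w ∈ C) := by
  unfold dP
  rw [← Finset.sum_div, Finset.sum_comm]
  congr 1
  refine Finset.sum_congr rfl fun ω _ => ?_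
  rw [← Finset.mul_sum]
  congr 1
  by_cases h1 : ∀ w, FConn ω x w → w ∈ Λ
  · have h2 : ∀ w, FConn ω x w ↔ w ∈ Λ.filter (fun u => FConn ω x u) := by
      intro w
      rw [Finset.mem_filter]
      exact ⟨fun h => ⟨h1 w h, h⟩, fun h => h.2⟩
    have h3 : Λ.filter (fun u => FConn ω x u) ∈ Λ.powerset.filter (fun C => x ∈ C) := by
      rw [Finset.mem_filter, Finset.mem_powerset]
      exact ⟨Finset.filter_subset _ _, (h2 x).1 Relation.ReflTransGen.refl⟩
    rw [Finset.sum_eq_single_of_mem _ h3 ?_]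
    · rw [if_pos h1, if_pos h2]
    · intro C _ hne
      rw [if_neg]
      intro h4
      apply hne
      ext w
      rw [← h4 w, ← h2 w]
  · rw [if_neg h1]
    symm
    refine Finset.sum_eq_zero fun C hC => ?_
    rw [if_neg]
    intro h4
    rw [Finset.mem_filter, Finset.mem_powerset] at hC
    exact h1 fun w hw => hC.1 ((h4 w).1 hw)

end CONNaux

open CONNaux in
theorem p_CONN (h : S_CLUS) (h2 : S_RAT) (h3 : S_CORR2) : S_CONN := by
  intro β D Λ x hβ hΛ hx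
  have e1 : dP β D (near D) (fun ω => ∃ w, w ∉ Λ ∧ FConn ω x w)
      = 1 - dP β D (near D) (fun ω => ∀ w, FConn ω x w → w ∈ Λ) := by
    rw [← dP_compl hβ]
    congr 1
    funext ω
    push Not
    exact propext ⟨fun ⟨w, h4, h5⟩ => ⟨w, h5, h4⟩, fun ⟨w, h4, h5⟩ => ⟨w, h5, h4⟩⟩
  have e2 : dP β Λ (near Λ) (fun ω => ∃ w, w ∉ Λ ∧ FConn ω x w)
      = 1 - dP β Λ (near Λ) (fun ω => ∀ w, FConn ω x w → w ∈ Λ) := by
    rw [← dP_compl hβ]
    congr 1
    funext ω
    push Not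
    exact propext ⟨fun ⟨w, h4, h5⟩ => ⟨w, h5, h4⟩, fun ⟨w, h4, h5⟩ => ⟨w, h5, h4⟩⟩
  rw [← h3 β Λ x hβ hx, e1, e2]
  have h4 : dP β Λ (near Λ) (fun ω => ∀ w, FConn ω x w → w ∈ Λ)
      ≤ dP β D (near D) (fun ω => ∀ w, FConn ω x w → w ∈ Λ) := by
    rw [dP_sum, dP_sum]
    refine Finset.sum_le_sum fun C hC => ?_
    rw [Finset.mem_filter, Finset.mem_powerset] at hC
    obtain ⟨a, ha, h5⟩ := h C x β hβ hC.2
    rw [h5 Λ hC.1, h5 D (hC.1.trans hΛ)]
    refine mul_le_mul_of_nonneg_left ?_ ha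
    have p1 := pz_pos β Λ (near Λ)
    have p2 := pz_pos β D (near D)
    have p3 := pz_pos β Λ (near Λ \ near C)
    refine pow_le_pow_left₀ (by positivity) ?_ 2
    rw [div_le_div_iff₀ p1 p2]
    exact h2 β D Λ C hβ hΛ hC.1
  linarith

end XorIsing
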