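import Pool.Agent.Work.MP_bda6fa_nest.Interface
set_option autoImplicit false

/-! Block CORR2: the probability that `x` is connected to the outside. -/

namespace XorIsing
open scoped Classical
open Finset

namespace BCORR2

theorem sum_conn {Λ : Finset V} {ω : Finset Edge} {x : V} (h : ∃ w, w ∉ Λ ∧ FConn ω x w) :
    ∑ X ∈ compat Λ ω, spin X x = 2 ^ (fclusters Λ ω).card := by
  obtain ⟨w, hw, hxw⟩ := h
  have h1 : ∀ X ∈ compat Λ ω, spin X x = 1 := by
    intro X hX
    have h2 : x ∉ X := fun hx => hw ((mem_compat.1 hX).1 ((compat_conn hX hxw).1 hx))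
    unfold spin
    rw [if_neg h2]
  rw [sum_congr rfl h1, sum_const, card_compat, nsmul_eq_mul, mul_one]
  push_cast
  rfl

theorem sum_free {Λ : Finset V} {ω : Finset Edge} {x : V} (hx : x ∈ Λ)
    (h : ¬ ∃ w, w ∉ Λ ∧ FConn ω x w) : ∑ X ∈ compat Λ ω, spin X x = 0 := by
  have hin : ∀ w, FConn ω x w → w ∈ Λ := by
    intro w hw
    by_contra h1
    exact h ⟨w, h1, hw⟩
  set C : Finset V := Λ.filter (fun u => FConn ω x u) with hC
  have hCm : ∀ u, u ∈ C ↔ FConn ω x u := fun u => by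
    rw [hC, mem_filter]
    exact ⟨fun h => h.2, fun h => ⟨hin u h, h⟩⟩
  have hxC : x ∈ C := (hCm x).2 Relation.ReflTransGen.refl
  have hCs : C ⊆ Λ := filter_subset _ _
  have hmem : ∀ X ∈ compat Λ ω, symmDiff X C ∈ compat Λ ω := by
    intro X hX
    obtain ⟨h1, h2⟩ := mem_compat.1 hX
    refine mem_compat.2 ⟨symmDiff_sub h1 hCs, fun e he => ?_⟩
    have h3 := h2 e he
    have h4 : e.1 ∈ C ↔ tip e ∈ C := by
      rw [hCm, hCm]
      exact ⟨fun h => h.trans (FConn_edge he), fun h => h.trans (FConn_symm (FConn_edge he))⟩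
    rw [mem_symmDiff, mem_symmDiff, h3, h4]
  have hflip : ∀ X : Finset V, spin (symmDiff X C) x = - spin X x := by
    intro X
    rw [spin_symmDiff]
    have : spin C x = -1 := by
      unfold spin
      rw [if_pos hxC]
    rw [this]
    ring
  have hsum : ∑ X ∈ compat Λ ω, spin X x = ∑ X ∈ compat Λ ω, spin (symmDiff X C) x := by
    refine sum_nbij' (fun X => symmDiff X C) (fun X => symmDiff X C) hmem hmem ?_ ?_ ?_
    · intro X _
      exact symmDiff_symmDiff_cancel_right C X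
    · intro X _
      exact symmDiff_symmDiff_cancel_right C X
    · intro X _
      show spin X x = spin (symmDiff (symmDiff X C) C) x
      rw [symmDiff_symmDiff_cancel_right]
  have h5 : ∑ X ∈ compat Λ ω, spin (symmDiff X C) x = - ∑ X ∈ compat Λ ω, spin X x := by
    rw [← sum_neg_distrib]
    exact sum_congr rfl fun X _ => hflip X
  linarith

end BCORR2

/-- Block CORR2. -/
theorem p_CORR2 (h : S_XDC) (h2 : S_SQ) : S_CORR2 := by
  intro β Λ x hβ hx
  have hX := h β Λ (near Λ) (fun X => spin X x)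
  have hsq := h2 β Λ (near Λ)
  have hD := (DW_pos hβ Λ (near Λ)).ne'
  have hZ := (ZZ_pos β Λ).ne'
  have hpz : pz β Λ (near Λ) = ZZ β Λ := rfl
  have hL : ∑ M ∈ Λ.powerset, ∑ M' ∈ Λ.powerset,
      Real.exp (β * ∑ e ∈ near Λ, spin M e.1 * spin M (tip e)) *
      Real.exp (β * ∑ e ∈ near Λ, spin M' e.1 * spin M' (tip e)) * spin (symmDiff M M') x =
      (∑ M ∈ Λ.powerset, wt β Λ M * spin M x) ^ 2 := by
    rw [pow_two, sum_mul_sum]
    refine sum_congr rfl fun M _ => sum_congr rfl fun M' _ => ?_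
    rw [spin_symmDiff]
    unfold wt
    ring
  have hR : ∀ ω ∈ (near Λ).powerset, g β Λ ω * ∑ X ∈ compat Λ ω, spin X x =
      dw β Λ ω * (if ∃ w, w ∉ Λ ∧ FConn ω x w then 1 else 0) := by
    intro ω _
    unfold dw
    by_cases hc : ∃ w, w ∉ Λ ∧ FConn ω x w
    · rw [BCORR2.sum_conn hc, if_pos hc]
      ring
    · rw [BCORR2.sum_free hx hc, if_neg hc]
      ring
  rw [hL, sum_congr rfl hR] at hX
  have hcorr : corr β Λ {x} = (∑ M ∈ Λ.powerset, wt β Λ M * spin M x) / ZZ β Λ := by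
    unfold corr
    congr 1
    refine sum_congr rfl fun M _ => ?_
    rw [prod_singleton]
  rw [hcorr, div_pow, hX, ← hpz, hsq]
  unfold dP
  have h2p : (2 : ℝ) ^ Λ.card ≠ 0 := by positivity
  rw [mul_div_mul_left _ _ h2p]

end XorIsing
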