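import Pool.Agent.Work.MP_bda6fa_nest.Interface
set_option autoImplicit false

/-! Blocks ESTEP and the combinatorial core of PETA. -/

namespace XorIsing
open scoped Classical
open Finset

theorem mem_tri_iff (x y i j : ℤ) (b : Bool) (k : Fin 3) : (((i, j), k) : Edge) ∈ tri ((x, y), b) ↔
    (b = true ∧ ((k = 0 ∧ i = x ∧ j = y) ∨ (k = 1 ∧ i = x ∧ j = y) ∨ (k = 2 ∧ i = x ∧ j = y + 1))) ∨
    (b = false ∧ ((k = 2 ∧ i = x ∧ j = y + 1) ∨ (k = 0 ∧ i = x ∧ j = y + 1) ∨ (k = 1 ∧ i = x + 1 ∧ j = y))) := by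
  cases b
  · simp only [tri, Bool.false_eq_true, if_false, false_and, false_or, true_and, Finset.mem_insert,
      Finset.mem_singleton, Prod.mk.injEq, Prod.mk_add_mk, add_zero]
    tauto
  · simp only [tri, if_true, true_and, Finset.mem_insert, Finset.mem_singleton, Prod.mk.injEq,
      Prod.mk_add_mk, add_zero, Bool.true_eq_false, false_and, or_false]
    tauto

theorem cut_iff (x y i j : ℤ) (b : Bool) (k : Fin 3) : cut ((x, y), b) ((i, j), k) ↔
    (k = 1 ∧ j = y ∧ x + 1 ≤ i) ∨ (k = 2 ∧ j = y + 1 ∧ (if b then x else x + 1) ≤ i) := Iff.rfl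

theorem dir0 : dir 0 = (1, 0) := rfl
theorem dir1 : dir 1 = (0, 1) := rfl
theorem dir2 : dir 2 = (1, -1) := rfl

theorem tip0 (a c : ℤ) : tip ((a, c), 0) = (a + 1, c) := by
  simp only [tip, dir0, Prod.mk_add_mk, add_zero]
theorem tip1 (a c : ℤ) : tip ((a, c), 1) = (a, c + 1) := by
  simp only [tip, dir1, Prod.mk_add_mk, add_zero]
theorem tip2 (a c : ℤ) : tip ((a, c), 2) = (a + 1, c - 1) := by
  simp only [tip, dir2, Prod.mk_add_mk, sub_eq_add_neg]

theorem fin3 (l : Fin 3) : l = 0 ∨ l = 1 ∨ l = 2 := by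
  fin_cases l <;> simp

theorem step_core (e : Edge) (t t' : V × Bool) (hne : t ≠ t') (h1 : e ∈ tri t) (h2 : e ∈ tri t') :
    ∃ P : V → Prop, ∀ f : Edge, ((cut t f ↔ cut t' f) ↔ ((P f.1 ↔ P (tip f)) ↔ f ≠ e)) := by
  obtain ⟨⟨i, j⟩, k⟩ := e
  obtain ⟨⟨x, y⟩, b⟩ := t
  obtain ⟨⟨x', y'⟩, b'⟩ := t'
  rw [mem_tri_iff] at h1 h2
  have e01 : ¬ ((0 : Fin 3) = 1) := by decide
  have e02 : ¬ ((0 : Fin 3) = 2) := by decide
  have e10 : ¬ ((1 : Fin 3) = 0) := by decide
  have e12 : ¬ ((1 : Fin 3) = 2) := by decide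
  have e20 : ¬ ((2 : Fin 3) = 0) := by decide
  have e21 : ¬ ((2 : Fin 3) = 1) := by decide
  have hne' : ¬ (x = x' ∧ y = y' ∧ b = b') := by
    rintro ⟨rfl, rfl, rfl⟩; exact hne rfl
  rcases fin3 k with hk | hk | hk
  · subst hk
    refine ⟨fun u => u.2 = j ∧ i + 1 ≤ u.1, ?_⟩
    rintro ⟨⟨a, c⟩, l⟩
    have h5 : (b = true ∧ i = x ∧ j = y ∧ b' = false ∧ i = x' ∧ j = y' + 1) ∨
        (b' = true ∧ i = x' ∧ j = y' ∧ b = false ∧ i = x ∧ j = y + 1) := by
      simp only [e01, e02, false_and, false_or, or_false, true_and] at h1 h2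
      rcases h1 with ⟨b1, h3, h4⟩ | ⟨b1, h3, h4⟩ <;> rcases h2 with ⟨b2, h6, h7⟩ | ⟨b2, h6, h7⟩
      · exact absurd ⟨by omega, by omega, by rw [b1, b2]⟩ hne'
      · exact Or.inl ⟨b1, h3, h4, b2, h6, h7⟩
      · exact Or.inr ⟨b2, h6, h7, b1, h3, h4⟩
      · exact absurd ⟨by omega, by omega, by rw [b1, b2]⟩ hne'
    rw [cut_iff, cut_iff]
    rcases fin3 l with hl | hl | hl
    · subst hl
      rw [tip0]
      simp only [e01, e02, false_and, false_or, ne_eq, Prod.mk.injEq, and_true]
      grind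
    · subst hl
      rw [tip1]
      simp only [e10, e12, false_and, or_false, true_and, ne_eq, Prod.mk.injEq, and_false, not_false_eq_true,
        iff_true]
      rcases h5 with ⟨-, h3, h4, -, h6, h7⟩ | ⟨-, h6, h7, -, h3, h4⟩ <;> grind
    · subst hl
      rw [tip2]
      simp only [e20, e21, false_and, false_or, true_and, ne_eq, Prod.mk.injEq, and_false, not_false_eq_true,
        iff_true]
      rcases h5 with ⟨b1, h3, h4, b2, h6, h7⟩ | ⟨b1, h6, h7, b2, h3, h4⟩
      · subst b1; subst b2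
        simp only [if_true, Bool.false_eq_true, if_false]; omega
      · subst b1; subst b2
        simp only [if_true, Bool.false_eq_true, if_false]; omega
  · subst hk
    refine ⟨fun _ => False, ?_⟩
    rintro ⟨⟨a, c⟩, l⟩
    rw [cut_iff, cut_iff]
    simp only [e10, e12, false_and, false_or, or_false, true_and] at h1 h2
    simp only [iff_self, true_iff, ne_eq, Prod.mk.injEq]
    rcases h1 with ⟨b1, h3, h4⟩ | ⟨b1, h3, h4⟩ <;> rcases h2 with ⟨b2, h6, h7⟩ | ⟨b2, h6, h7⟩
    · exact absurd ⟨by omega, by omega, by rw [b1, b2]⟩ hne'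
    · subst b1; subst b2
      simp only [if_true, Bool.false_eq_true, if_false]
      rcases fin3 l with hl | hl | hl <;> subst hl <;>
        simp only [e01, e02, e10, e12, e20, e21, false_and, and_false, false_or, or_false, true_and, and_true,
          not_false_eq_true, iff_self] <;> first | omega | grind
    · subst b1; subst b2
      simp only [if_true, Bool.false_eq_true, if_false]
      rcases fin3 l with hl | hl | hl <;> subst hl <;>
        simp only [e01, e02, e10, e12, e20, e21, false_and, and_false, false_or, or_false, true_and, and_true,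
          not_false_eq_true, iff_self] <;> first | omega | grind
    · exact absurd ⟨by omega, by omega, by rw [b1, b2]⟩ hne'
  · subst hk
    refine ⟨fun _ => False, ?_⟩
    rintro ⟨⟨a, c⟩, l⟩
    rw [cut_iff, cut_iff]
    simp only [e20, e21, false_and, false_or, or_false, true_and] at h1 h2
    simp only [iff_self, true_iff, ne_eq, Prod.mk.injEq]
    rcases h1 with ⟨b1, h3, h4⟩ | ⟨b1, h3, h4⟩ <;> rcases h2 with ⟨b2, h6, h7⟩ | ⟨b2, h6, h7⟩
    · exact absurd ⟨by omega, by omega, by rw [b1, b2]⟩ hne'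
    · subst b1; subst b2
      simp only [if_true, Bool.false_eq_true, if_false]
      rcases fin3 l with hl | hl | hl <;> subst hl <;>
        simp only [e01, e02, e10, e12, e20, e21, false_and, and_false, false_or, or_false, true_and, and_true,
          not_false_eq_true, iff_self] <;> first | omega | grind
    · subst b1; subst b2
      simp only [if_true, Bool.false_eq_true, if_false]
      rcases fin3 l with hl | hl | hl <;> subst hl <;>
        simp only [e01, e02, e10, e12, e20, e21, false_and, and_false, false_or, or_false, true_and, and_true,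
          not_false_eq_true, iff_self] <;> first | omega | grind
    · exact absurd ⟨by omega, by omega, by rw [b1, b2]⟩ hne'

theorem p_ESTEP : S_ESTEP := by
  intro H ω e t t' hω he h1 h2 hEv
  by_cases hne : t = t'
  · rw [← hne]; exact hEv
  obtain ⟨P, hP⟩ := step_core e t t' hne h1 h2
  obtain ⟨X, hX, hXe⟩ := hEv
  refine ⟨symmDiff X (H.filter P), ?_, ?_⟩
  · intro v hv
    rw [Finset.mem_symmDiff, mem_filter] at hv
    rcases hv with ⟨h, -⟩ | ⟨⟨h, -⟩, -⟩
    · exact hX h
    · exact h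
  · intro f hf
    have hfe : f ≠ e := fun h => he (h ▸ hf)
    obtain ⟨hf1, hf2⟩ := mem_inn.1 (hω hf)
    have h3 := hXe f hf
    have h4 : (cut t f ↔ cut t' f) ↔ (P f.1 ↔ P (tip f)) := by
      have := hP f
      simpa [hfe] using this
    rw [Finset.mem_symmDiff, Finset.mem_symmDiff, mem_filter, mem_filter]
    by_cases a1 : f.1 ∈ X <;> by_cases a2 : tip f ∈ X <;> by_cases a3 : P f.1 <;> by_cases a4 : P (tip f) <;>
      by_cases a5 : cut t f <;> by_cases a6 : cut t' f <;> simp_all

end XorIsing
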