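import Pool.Agent.Work.MP_bda6fa_nest.Interface
set_option autoImplicit false

/-! Block ETAC: a connected part of an even set of edges. -/

namespace XorIsing
open scoped Classical
open Finset

namespace Etac

theorem even_sub {η : Finset Edge} (P : V → Prop) (hP : ∀ e ∈ η, P e.1 ↔ P (tip e)) (h : EvenAll η) :
    EvenAll (η.filter (fun e => P e.1)) := by
  intro v
  by_cases hv : P v
  · have h1 : (η.filter (fun e => P e.1)).filter (fun e => e.1 = v ∨ tip e = v) =
        η.filter (fun e => e.1 = v ∨ tip e = v) := by
      ext e
      simp only [mem_filter]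
      constructor
      · rintro ⟨⟨he, -⟩, h2⟩
        exact ⟨he, h2⟩
      · rintro ⟨he, h2⟩
        refine ⟨⟨he, ?_⟩, h2⟩
        rcases h2 with h2 | h2
        · rw [h2]
          exact hv
        · rw [hP e he, h2]
          exact hv
    rw [h1]
    exact h v
  · have h1 : (η.filter (fun e => P e.1)).filter (fun e => e.1 = v ∨ tip e = v) = ∅ := by
      rw [filter_eq_empty_iff]
      intro e he h2
      rw [mem_filter] at he
      rcases h2 with h2 | h2
      · apply hv
        rw [← h2]
        exact he.2
      · apply hv
        rw [← h2, ← hP e he.1]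
        exact he.2
    rw [h1, card_empty]
    exact Even.zero

theorem par_split {η : Finset Edge} (P : V → Prop) (t : V × Bool) (h : Par η t) :
    Par (η.filter (fun e => P e.1)) t ∨ Par (η.filter (fun e => ¬ P e.1)) t := by
  unfold Par at *
  have h1 : (η.filter (fun e => cut t e)).card =
      ((η.filter (fun e => P e.1)).filter (fun e => cut t e)).card +
        ((η.filter (fun e => ¬ P e.1)).filter (fun e => cut t e)).card := by
    rw [← card_union_of_disjoint]
    · congr 1
      ext e
      simp only [mem_filter, mem_union]
      tauto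
    · rw [disjoint_left]
      intro e he he'
      simp only [mem_filter] at he he'
      exact he'.1.2 he.1.2
  by_contra hcon
  rw [not_or, Nat.not_odd_iff_even, Nat.not_odd_iff_even] at hcon
  rw [h1] at h
  exact (Nat.not_even_iff_odd.2 h) (hcon.1.add hcon.2)

end Etac

open Etac in
theorem p_ETAC : S_ETAC := by
  suffices H : ∀ n : ℕ, ∀ η : Finset Edge, η.card = n → EvenAll η →
      Par η (((0, 0), true) : V × Bool) →
      ∃ η' ⊆ η, EvenAll η' ∧ Par η' (((0, 0), true) : V × Bool) ∧
        ∀ e ∈ η', ∀ f ∈ η', FConn η' e.1 f.1 from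
    fun η h1 h2 => H _ η rfl h1 h2
  intro n
  induction n using Nat.strong_induction_on with
  | _ n ih =>
    intro η hn h1 h2
    by_cases hc : ∀ e ∈ η, ∀ f ∈ η, FConn η e.1 f.1
    · exact ⟨η, subset_rfl, h1, h2, hc⟩
    · push Not at hc
      obtain ⟨e, he, f, hf, hef⟩ := hc
      have hP : ∀ x ∈ η, FConn η e.1 x.1 ↔ FConn η e.1 (tip x) := fun x hx =>
        ⟨fun h => h.trans (FConn_edge hx), fun h => h.trans (FConn_symm (FConn_edge hx))⟩
      rcases par_split (fun v => FConn η e.1 v) _ h2 with h3 | h3
      · have hlt : (η.filter (fun x => FConn η e.1 x.1)).card < n := by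
          rw [← hn]
          apply card_lt_card
          rw [filter_ssubset]
          exact ⟨f, hf, hef⟩
        obtain ⟨η', hη', h4⟩ := ih _ hlt _ rfl (even_sub (fun v => FConn η e.1 v) hP h1) h3
        exact ⟨η', hη'.trans (filter_subset _ _), h4⟩
      · have hlt : (η.filter (fun x => ¬ FConn η e.1 x.1)).card < n := by
          rw [← hn]
          apply card_lt_card
          rw [filter_ssubset]
          exact ⟨e, he, fun h => h Relation.ReflTransGen.refl⟩
        have h5 : EvenAll (η.filter (fun x => ¬ FConn η e.1 x.1)) := by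
          have h6 := even_sub (fun v => ¬ FConn η e.1 v) (fun x hx => not_congr (hP x hx)) h1
          convert h6
        obtain ⟨η', hη', h4⟩ := ih _ hlt _ rfl h5 h3
        exact ⟨η', hη'.trans (filter_subset _ _), h4⟩

end XorIsing
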