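import Pool.Agent.Work.MP_bda6fa_nest.DET3
set_option autoImplicit false

/-! Assembly: nested loops around a point. -/

namespace XorIsing
open scoped Classical
open Finset Filter Topology

theorem box_mono {m n : ℕ} (h : m ≤ n) : box m ⊆ box n := by
  intro v hv
  rw [mem_box] at hv ⊢
  have : (m : ℤ) ≤ n := by exact_mod_cast h
  omega

theorem mem_shift {v u : V} {D : Finset V} : u ∈ shift v D ↔ u - v ∈ D := by
  rw [shift, mem_image]
  constructor
  · rintro ⟨w, hw, rfl⟩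
    simpa using hw
  · intro h
    exact ⟨u - v, h, by simp⟩

theorem shift_box {m n : ℕ} {v : V} (hv : v ∈ box m) : shift v (box n) ⊆ box (m + n) := by
  intro u hu
  rw [mem_shift, mem_box] at hu
  rw [mem_box] at hv ⊢
  simp only [Prod.fst_sub, Prod.snd_sub] at hu
  push_cast
  omega

/-- a block: in the annulus between ρ and R there is a cluster separating the box ρ from the outside -/
def Good (D : Finset V) (ρ R : ℕ) (ω : Finset Edge) : Prop :=
  ∃ C ∈ fclusters D ω, (∃ c ∈ C, c ∉ box ρ) ∧ C ⊆ box R ∧ ∀ y ∈ box ρ, Blocks C D y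

theorem block_bound (h1 : S_DISF) (h2 : S_DISM) (h3 : S_CONN) (h4 : S_MARK) (h5 : S_CLH) (h6 : S_SEP) (h7 : S_TRC)
    (h8 : S_TRD) {β : ℝ} (hβ : 0 ≤ β) (hc : Tendsto (fun n => corr β (box n) {((0, 0) : V)}) atTop (𝓝 0))
    (hd : ∀ b : Bool, Tendsto (fun n => dis β (box n) ((0, 0), b)) atTop (𝓝 0)) (ρ : ℕ) {ε : ℝ} (hε : 0 < ε) :
    ∃ R, ρ ≤ R ∧ ∀ D : Finset V, CoConn D → box R ⊆ D →
      dP β D (near D) (fun ω => ¬ Good D ρ R ω) ≤ ε := by
  -- choice of m
  obtain ⟨T, hT⟩ : ∃ T : Finset (V × Bool), T = box (ρ + 1) ×ˢ (univ : Finset Bool) := ⟨_, rfl⟩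
  have hlim : Tendsto (fun n : ℕ => ∑ t ∈ T, dis β (box n) (((0, 0) : V), t.2)) atTop (𝓝 0) := by
    have h20 : Tendsto (fun n : ℕ => ∑ t ∈ T, dis β (box n) (((0, 0) : V), t.2)) atTop (𝓝 (∑ _t ∈ T, (0 : ℝ))) := by
      apply tendsto_finset_sum
      intro t _
      exact hd t.2
    rw [sum_const_zero] at h20
    exact h20
  obtain ⟨m, hm⟩ := ((tendsto_order.1 hlim).2 (ε / 2) (by positivity)).exists
  obtain ⟨R', hR'⟩ : ∃ R' : ℕ, R' = (ρ + 1) + m := ⟨_, rfl⟩
  have hlim2 : Tendsto (fun n => ((box R').card : ℝ) * corr β (box n) {((0, 0) : V)} ^ 2) atTop (𝓝 0) := by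
    have := (hc.pow 2).const_mul ((box R').card : ℝ)
    simpa using this
  obtain ⟨k, hk⟩ := ((tendsto_order.1 hlim2).2 (ε / 2) (by positivity)).exists
  refine ⟨R' + k, by omega, fun D hD hR => ?_⟩
  have hev : dP β D (near D) (fun ω => ¬ Good D ρ (R' + k) ω) ≤
      dP β D (near D) (fun ω => (∃ x ∈ box R', ∃ w, w ∉ box (R' + k) ∧ FConn ω x w) ∨
        (box R' ⊆ Hof D (box (R' + k)) ω ∧ (fun H ω' => ∃ t ∈ T, Ev H t ω') (Hof D (box (R' + k)) ω)
          (ω ∩ inn (Hof D (box (R' + k)) ω)))) := by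
    apply dP_mono hβ
    intro ω hω hbad
    by_contra hno
    push Not at hno
    obtain ⟨hno1, hno2⟩ := hno
    apply hbad
    have hsub : box R' ⊆ Hof D (box (R' + k)) ω := by
      intro x hx
      rw [Hof, mem_filter]
      refine ⟨hR (box_mono (by omega) hx), fun w hw => ?_⟩
      by_contra hw2
      exact hno1 x hx w hw2 hw
    have h9 := hno2 hsub
    obtain ⟨C, hC, hC1, hC2⟩ := h6 D (Hof D (box (R' + k)) ω) (ω ∩ inn (Hof D (box (R' + k)) ω)) ρ hD
      (filter_subset _ _) inter_subset_right (fun t ht hE => h9 t (by rw [hT, mem_product]; exact ⟨ht, mem_univ _⟩) hE)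
    obtain ⟨hC3, hC4⟩ := h5 D (box (R' + k)) C ω hR hω hC
    exact ⟨C, hC3, hC1, hC4, hC2⟩
  refine hev.trans ((dP_or hβ _ _ _ _).trans ?_)
  have hA : dP β D (near D) (fun ω => ∃ x ∈ box R', ∃ w, w ∉ box (R' + k) ∧ FConn ω x w) ≤ ε / 2 := by
    refine (dP_ex hβ D (near D) (box R') (fun x ω => ∃ w, w ∉ box (R' + k) ∧ FConn ω x w)).trans ?_
    refine le_trans (sum_le_card_nsmul (box R') _ (corr β (box k) {((0, 0) : V)} ^ 2) ?_) ?_
    · intro x hx
      have h10 : shift x (box k) ⊆ box (R' + k) := shift_box hx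
      have h11 := h3 β D (shift x (box k)) x hβ (h10.trans hR) (by rw [mem_shift, sub_self, mem_box]; simp)
      rw [h7] at h11
      refine le_trans (dP_mono hβ _ _ fun ω _ => ?_) h11
      rintro ⟨w, hw, hxw⟩
      exact ⟨w, fun h => hw (h10 h), hxw⟩
    · rw [nsmul_eq_mul]
      exact hk.le
  have hB : dP β D (near D) (fun ω => box R' ⊆ Hof D (box (R' + k)) ω ∧
      (fun H ω' => ∃ t ∈ T, Ev H t ω') (Hof D (box (R' + k)) ω) (ω ∩ inn (Hof D (box (R' + k)) ω))) ≤ ε / 2 := by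
    refine h4 β D (box (R' + k)) (box R') (fun H ω' => ∃ t ∈ T, Ev H t ω') (ε / 2) hβ hR (box_mono (by omega)) ?_
    intro H hH1 _
    refine (dP_ex hβ H (inn H) T (fun t ω' => Ev H t ω')).trans (le_trans (sum_le_sum ?_) hm.le)
    intro t ht
    have h12 : dP β H (inn H) (Ev H t) = dis β H t := h1 β H (inn H) t hβ
    have ht1 : t.1 ∈ box (ρ + 1) := by rw [hT] at ht; exact (mem_product.1 ht).1
    have h13 := h2 β H (shift t.1 (box m)) t hβ ((shift_box ht1).trans (hR' ▸ hH1))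
    have h14 := h8 β m t.1 t.2
    show dP β H (inn H) (Ev H t) ≤ _
    rw [h12]
    refine h13.trans (le_of_eq ?_)
    exact h14
  linarith

theorem chain_bound (h1 : S_DISF) (h2 : S_DISM) (h3 : S_CONN) (h4 : S_MARK) (h5 : S_CLH) (h6 : S_SEP) (h7 : S_TRC)
    (h8 : S_TRD) {β : ℝ} (hβ : 0 ≤ β) (hc : Tendsto (fun n => corr β (box n) {((0, 0) : V)}) atTop (𝓝 0))
    (hd : ∀ b : Bool, Tendsto (fun n => dis β (box n) ((0, 0), b)) atTop (𝓝 0)) (m₀ J : ℕ) {ε : ℝ} (hε : 0 < ε) :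
    ∃ N, ∀ D : Finset V, CoConn D → box N ⊆ D →
      dP β D (near D) (fun ω => ¬ ∃ C : ℕ → Finset V, (∀ i < J, C i ∈ fclusters D ω) ∧
        (∀ i < J, ∀ i' < J, C i = C i' → i = i') ∧ (∀ y ∈ box m₀, Blocks (C 0) D y) ∧
        (∀ i i', i < i' → i' < J → ∀ y ∈ C i, Blocks (C i') D y) ∧ ∀ i < J, C i ⊆ box N) ≤ ε := by
  have hb := fun ρ => block_bound h1 h2 h3 h4 h5 h6 h7 h8 hβ hc hd ρ (ε := ε / (J + 1)) (by positivity)
  choose Rf hRf1 hRf2 using hb
  set r : ℕ → ℕ := fun i => Rf^[i] m₀ with hr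
  have hrs : ∀ i, r (i + 1) = Rf (r i) := fun i => Function.iterate_succ_apply' Rf i m₀
  have hr0 : r 0 = m₀ := rfl
  have hmono : Monotone r := monotone_nat_of_le_succ fun i => by rw [hrs]; exact hRf1 _
  refine ⟨r J, fun D hD hN => ?_⟩
  have hsub : dP β D (near D) (fun ω => ¬ ∃ C : ℕ → Finset V, (∀ i < J, C i ∈ fclusters D ω) ∧
        (∀ i < J, ∀ i' < J, C i = C i' → i = i') ∧ (∀ y ∈ box m₀, Blocks (C 0) D y) ∧
        (∀ i i', i < i' → i' < J → ∀ y ∈ C i, Blocks (C i') D y) ∧ ∀ i < J, C i ⊆ box (r J)) ≤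
      dP β D (near D) (fun ω => ∃ i ∈ range J, ¬ Good D (r i) (r (i + 1)) ω) := by
    apply dP_mono hβ
    intro ω _ hbad
    by_contra hno
    push Not at hno
    apply hbad
    have hex : ∀ i, ∃ C : Finset V, (i < J → (C ∈ fclusters D ω ∧ (∃ c ∈ C, c ∉ box (r i)) ∧ C ⊆ box (r (i + 1)) ∧
        ∀ y ∈ box (r i), Blocks C D y)) ∧ (¬ i < J → C = box m₀) := by
      intro i
      by_cases hi : i < J
      · obtain ⟨C, hC1, hC2, hC3, hC4⟩ := hno i (mem_range.2 hi)
        exact ⟨C, fun _ => ⟨hC1, hC2, hC3, hC4⟩, fun h => absurd hi h⟩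
      · exact ⟨box m₀, fun h => absurd h hi, fun _ => rfl⟩
    choose C hC hC' using hex
    have hlt : ∀ i i', i < i' → i' < J → C i ≠ C i' := by
      intro i i' h9 h10 h11
      obtain ⟨c, hc1, hc2⟩ := (hC i' h10).2.1
      rw [← h11] at hc1
      exact hc2 (box_mono (hmono (by omega : i + 1 ≤ i')) ((hC i (by omega)).2.2.1 hc1))
    refine ⟨C, fun i hi => (hC i hi).1, ?_, ?_, ?_, ?_⟩
    · intro i hi i' hi' h9
      rcases lt_trichotomy i i' with h | h | h
      · exact absurd h9 (hlt i i' h hi')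
      · exact h
      · exact absurd h9.symm (hlt i' i h hi)
    · intro y hy
      by_cases hJ : 0 < J
      · exact (hC 0 hJ).2.2.2 y (by rw [hr0]; exact hy)
      · rw [hC' 0 hJ]
        exact Or.inl hy
    · intro i i' h9 h10 y hy
      exact (hC i' h10).2.2.2 y (box_mono (hmono (by omega : i + 1 ≤ i')) ((hC i (by omega)).2.2.1 hy))
    · intro i hi y hy
      exact box_mono (hmono (by omega : i + 1 ≤ J)) ((hC i hi).2.2.1 hy)
  refine hsub.trans ((dP_ex hβ D (near D) (range J) (fun i ω => ¬ Good D (r i) (r (i + 1)) ω)).trans ?_)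
  refine le_trans (sum_le_card_nsmul (range J) _ (ε / (J + 1)) ?_) ?_
  · intro i hi
    have h9 := hRf2 (r i) D hD (by rw [← hrs]; exact (box_mono (hmono (by have := mem_range.1 hi; omega))).trans hN)
    rw [← hrs] at h9
    exact h9
  · rw [nsmul_eq_mul, card_range]
    have h0 : (0 : ℝ) < J + 1 := by positivity
    rw [mul_div_assoc', div_le_iff₀ h0]
    nlinarith

theorem xorP_le_one (h1 : S_XP) {β : ℝ} (hβ : 0 ≤ β) (D : Finset V) (ev : Finset V → Prop) : xorP β D ev ≤ 1 := by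
  rw [h1 β D ev hβ, div_le_one (DW_pos hβ _ _)]
  unfold DW dw
  refine sum_le_sum fun ω _ => mul_le_mul_of_nonneg_left ?_ (g_nonneg hβ D ω)
  have h2 := card_le_card (filter_subset ev (compat D ω))
  rw [card_compat] at h2
  exact_mod_cast h2

theorem count_le (D : Finset V) (ω : Finset Edge) (p q : Finset V → Prop) [DecidablePred p]
    (h : ∀ X ∈ compat D ω, p X → q X) :
    (((compat D ω).filter p).card : ℝ) ≤ ((@filter _ q (fun X => Classical.propDecidable (q X)) (compat D ω)).card : ℝ) := by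
  refine Nat.cast_le.2 (card_le_card ?_)
  intro X hX
  have hX' := mem_filter.1 hX
  exact mem_filter.2 ⟨hX'.1, h X hX'.1 hX'.2⟩

theorem fin_nested (h1 : S_DISF) (h2 : S_DISM) (h3 : S_CONN) (h4 : S_MARK) (h5 : S_CLH) (h6 : S_SEP) (h7 : S_TRC)
    (h8 : S_TRD) (h9 : S_XP) (h0 : S_MONO) (h10 : S_BL) (h11 : S_SIGN) {β : ℝ} (hβ : 0 ≤ β)
    (hc : Tendsto (fun n => corr β (box n) {((0, 0) : V)}) atTop (𝓝 0))
    (hd : ∀ b : Bool, Tendsto (fun n => dis β (box n) ((0, 0), b)) atTop (𝓝 0)) (m₀ j : ℕ) {ε : ℝ} (hε : 0 < ε) :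
    ∃ N : ℕ, ∀ D : Finset V, CoConn D → box N ⊆ D →
      1 - ε ≤ xorP β D (fun X => j ≤ nloopsIn X (box m₀) (box N)) := by
  have hlim : Tendsto (fun K : ℕ => (j : ℝ) * 2 * (1 / 2) ^ K) atTop (𝓝 0) := by
    have := (tendsto_pow_atTop_nhds_zero_of_lt_one (r := (1 / 2 : ℝ)) (by norm_num) (by norm_num)).const_mul
      ((j : ℝ) * 2)
    simpa using this
  obtain ⟨K, hK⟩ := ((tendsto_order.1 hlim).2 (min (ε / 2) 1) (by positivity)).exists
  have hK1 := hK.le.trans (min_le_left _ _)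
  have hK2 := hK.le.trans (min_le_right _ _)
  obtain ⟨N, hN⟩ := chain_bound h1 h2 h3 h4 h5 h6 h7 h8 hβ hc hd m₀ (j * K) (ε := ε / 2) (by positivity)
  refine ⟨N, fun D hD hND => ?_⟩
  have hN' := hN D hD hND
  set good : Finset Edge → Prop := fun ω => ∃ C : ℕ → Finset V, (∀ i < j * K, C i ∈ fclusters D ω) ∧
      (∀ i < j * K, ∀ i' < j * K, C i = C i' → i = i') ∧ (∀ y ∈ box m₀, Blocks (C 0) D y) ∧
      (∀ i i', i < i' → i' < j * K → ∀ y ∈ C i, Blocks (C i') D y) ∧ ∀ i < j * K, C i ⊆ box N with hgood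
  have h12 : dP β D (near D) (fun ω => ¬ good ω) ≤ ε / 2 := hN'
  rw [dP_compl hβ] at h12
  set c : ℝ := 1 - (j : ℝ) * 2 * (1 / 2) ^ K with hcdef
  have hc0 : 0 ≤ c := by rw [hcdef]; linarith
  have hc1 : 1 - ε / 2 ≤ c := by rw [hcdef]; linarith
  have h13 : c * dP β D (near D) good ≤ xorP β D (fun X => j ≤ nloopsIn X (box m₀) (box N)) := by
    rw [h9 β D _ hβ]
    unfold dP
    rw [← mul_div_assoc]
    refine div_le_div_of_nonneg_right ?_ (DW_pos hβ _ _).le
    rw [mul_sum]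
    refine sum_le_sum fun ω _ => ?_
    by_cases hg : good ω
    · rw [if_pos hg, mul_one]
      obtain ⟨C, hC1, hC2, hC3, hC4, hC5⟩ := hg
      have h14 := h11 D ω j K C hC1 hC2
      unfold dw
      have h15 : c * (g β D ω * 2 ^ (fclusters D ω).card) = g β D ω * (c * 2 ^ (fclusters D ω).card) := by ring
      rw [h15]
      refine mul_le_mul_of_nonneg_left (h14.trans ?_) (g_nonneg hβ D ω)
      exact count_le D ω _ _ (fun X hX1 hX2 => det3 h0 h10 D X (box m₀) ω j K N C hD hX1 hC1 hC3 hC4 hC5 hX2)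
    · rw [if_neg hg, mul_zero, mul_zero]
      have := g_nonneg hβ D ω
      positivity
  have h17 : 1 - ε / 2 ≤ dP β D (near D) good := by
    have h19 : 1 - dP β D (near D) good ≤ ε / 2 := h12
    linarith
  have h20 := dP_nonneg hβ D (near D) good
  have h21 : (1 - ε / 2) * dP β D (near D) good ≤ c * dP β D (near D) good := mul_le_mul_of_nonneg_right hc1 h20
  have h18 : dP β D (near D) good ≤ 1 := by
    have := dP_nonneg hβ D (near D) (fun ω => ¬ good ω)
    rw [dP_compl hβ] at this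
    linarith
  have h22 : dP β D (near D) good * (ε / 2) ≤ 1 * (ε / 2) := mul_le_mul_of_nonneg_right h18 (by positivity)
  linarith

end XorIsing
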