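import Pool.Agent.Work.MP_bda6fa_nest.Interface
set_option autoImplicit false

namespace XorIsing
open scoped Classical
open Finset

theorem gkm_sum_shift (D M' : Finset V) (hM' : M' ∈ D.powerset) (G : Finset V → ℝ) :
    ∑ M ∈ D.powerset, G M = ∑ X ∈ D.powerset, G (symmDiff M' X) := by
  have h1 : ∀ X ∈ D.powerset, symmDiff M' X ∈ D.powerset := fun X hX =>
    mem_powerset.2 (symmDiff_sub (mem_powerset.1 hM') (mem_powerset.1 hX))
  have h2 : ∀ X : Finset V, symmDiff M' (symmDiff M' X) = X := by
    intro X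
    rw [← symmDiff_assoc, symmDiff_self]
    exact bot_symmDiff X
  refine sum_nbij' (fun M => symmDiff M' M) (fun X => symmDiff M' X) h1 h1 (fun M _ => h2 M)
    (fun X _ => h2 X) (fun M _ => ?_)
  show G M = G (symmDiff M' (symmDiff M' M))
  rw [h2]

theorem p_GKM (h : S_G1) : S_GKM := by
  intro β D F F' A hβ hF
  obtain ⟨w, hw⟩ : ∃ w : Finset Edge → Finset V → ℝ, w = fun F M =>
      Real.exp (∑ e ∈ F, β * (spin M e.1 * spin M (tip e))) := ⟨_, rfl⟩
  obtain ⟨a, ha⟩ : ∃ a : Finset V → ℝ, a = fun M => ∏ x ∈ A, spin M x := ⟨_, rfl⟩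
  have e1 : ∀ F : Finset Edge, pA D F (fun _ => β) A = ∑ M ∈ D.powerset, w F M * a M := by
    intro F; rw [hw, ha]; rfl
  have e2 : ∀ F : Finset Edge, pA D F (fun _ => β) ∅ = ∑ M ∈ D.powerset, w F M := by
    intro F; rw [hw]
    unfold pA
    exact sum_congr rfl fun M _ => by rw [prod_empty, mul_one]
  have e3 : pA D F (fun _ => β) A * pA D F' (fun _ => β) ∅
      - pA D F' (fun _ => β) A * pA D F (fun _ => β) ∅
      = ∑ M' ∈ D.powerset, ∑ M ∈ D.powerset, w F M' * w F' M * (a M' - a M) := by
    rw [e1, e1, e2, e2, mul_comm (∑ M ∈ D.powerset, w F' M * a M), sum_mul_sum, sum_mul_sum,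
      ← sum_sub_distrib]
    refine sum_congr rfl fun M' _ => ?_
    rw [← sum_sub_distrib]
    refine sum_congr rfl fun M _ => ?_
    ring
  have e4 : pA D F (fun _ => β) A * pA D F' (fun _ => β) ∅
      - pA D F' (fun _ => β) A * pA D F (fun _ => β) ∅
      = ∑ X ∈ D.powerset, (1 - a X) *
        pA D F (fun e => if e ∈ F' then β * (1 + spin X e.1 * spin X (tip e)) else β) A := by
    rw [e3]
    have e5 : ∀ M' ∈ D.powerset, ∑ M ∈ D.powerset, w F M' * w F' M * (a M' - a M)
        = ∑ X ∈ D.powerset, w F M' * w F' (symmDiff M' X) * (a M' - a (symmDiff M' X)) :=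
      fun M' hM' => gkm_sum_shift D M' hM' _
    rw [sum_congr rfl e5, sum_comm]
    refine sum_congr rfl fun X _ => ?_
    unfold pA
    rw [mul_sum]
    refine sum_congr rfl fun M' _ => ?_
    have e6 : a (symmDiff M' X) = a M' * a X := by
      rw [ha]
      show ∏ x ∈ A, spin (symmDiff M' X) x = (∏ x ∈ A, spin M' x) * ∏ x ∈ A, spin X x
      rw [← prod_mul_distrib]
      exact prod_congr rfl fun x _ => spin_symmDiff M' X x
    have e7 : w F M' * w F' (symmDiff M' X) = Real.exp (∑ e ∈ F,
        (if e ∈ F' then β * (1 + spin X e.1 * spin X (tip e)) else β)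
          * (spin M' e.1 * spin M' (tip e))) := by
      rw [hw]
      show Real.exp _ * Real.exp _ = _
      rw [← Real.exp_add]
      congr 1
      have e8 : ∑ e ∈ F', β * (spin (symmDiff M' X) e.1 * spin (symmDiff M' X) (tip e))
          = ∑ e ∈ F, if e ∈ F' then
            β * (spin X e.1 * spin X (tip e)) * (spin M' e.1 * spin M' (tip e)) else 0 := by
        rw [← sum_filter, Finset.filter_mem_eq_inter, Finset.inter_eq_right.2 hF]
        refine sum_congr rfl fun e _ => ?_
        rw [spin_symmDiff, spin_symmDiff]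
        ring
      rw [e8, ← sum_add_distrib]
      refine sum_congr rfl fun e _ => ?_
      split_ifs <;> ring
    rw [e7, e6]
    have e9 : ∏ x ∈ A, spin M' x = a M' := by rw [ha]
    rw [e9]
    ring
  have e10 : 0 ≤ ∑ X ∈ D.powerset, (1 - a X) *
      pA D F (fun e => if e ∈ F' then β * (1 + spin X e.1 * spin X (tip e)) else β) A := by
    refine sum_nonneg fun X _ => mul_nonneg ?_ (h D F _ A ?_)
    · have : a X = 1 ∨ a X = -1 := by
        rw [ha]
        show ∏ x ∈ A, spin X x = 1 ∨ ∏ x ∈ A, spin X x = -1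
        refine Finset.prod_induction _ (fun r => r = 1 ∨ r = -1) ?_ (Or.inl rfl)
          (fun x _ => spin_cases X x)
        rintro x y (rfl | rfl) (rfl | rfl) <;> norm_num
      rcases this with h1 | h1 <;> rw [h1] <;> norm_num
    · intro e _
      show 0 ≤ if e ∈ F' then β * (1 + spin X e.1 * spin X (tip e)) else β
      split_ifs
      · apply mul_nonneg hβ
        rcases spin_cases X e.1 with h1 | h1 <;> rcases spin_cases X (tip e) with h2 | h2 <;>
          rw [h1, h2] <;> norm_num
      · exact hβ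
  linarith

end XorIsing
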