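import Pool.Agent.Work.MP_bda6fa_nest.Interface
set_option autoImplicit false

/-! HOF: description of the configurations with a given set of sites not connected to the outside. -/

namespace XorIsing
open scoped Classical
open Finset

namespace HOF

/-- the step relation of `FConn` -/
def St (ω : Finset Edge) (x y : V) : Prop :=
  ∃ k, ((x, k) ∈ ω ∧ y = x + dir k) ∨ ((y, k) ∈ ω ∧ x = y + dir k)

theorem fconn_iff {ω : Finset Edge} {u v : V} : FConn ω u v ↔ Relation.ReflTransGen (St ω) u v :=
  Iff.rfl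

theorem fconn_mono {ω ω' : Finset Edge} (h : ω ⊆ ω') {u v : V} (hc : FConn ω u v) : FConn ω' u v := by
  rw [fconn_iff] at hc ⊢
  refine Relation.ReflTransGen.mono ?_ _ _ hc
  rintro x y ⟨k, hk | hk⟩
  · exact ⟨k, Or.inl ⟨h hk.1, hk.2⟩⟩
  · exact ⟨k, Or.inr ⟨h hk.1, hk.2⟩⟩

/-- a step either stays in the complement of `H` or touches `H` -/
theorem step_near {ω : Finset Edge} {H : Finset V} {x y : V} (hs : St ω x y) (hx : x ∉ H) (hy : y ∉ H) :
    St (ω \ near H) x y := by
  obtain ⟨k, ⟨h1, h2⟩ | ⟨h1, h2⟩⟩ := hs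
  · refine ⟨k, Or.inl ⟨?_, h2⟩⟩
    rw [mem_sdiff, mem_near]
    refine ⟨h1, ?_⟩
    rintro (h3 | h3)
    · exact hx h3
    · apply hy
      rw [h2]
      exact h3
  · refine ⟨k, Or.inr ⟨?_, h2⟩⟩
    rw [mem_sdiff, mem_near]
    refine ⟨h1, ?_⟩
    rintro (h3 | h3)
    · exact hy h3
    · apply hx
      rw [h2]
      exact h3

/-- under disjointness a step from `H` stays in `H` -/
theorem step_in {ω : Finset Edge} {H : Finset V} (hd : Disjoint ω (near H \ inn H)) {x y : V}
    (hs : St ω x y) (hx : x ∈ H) : y ∈ H := by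
  by_contra hy
  rw [Finset.disjoint_left] at hd
  obtain ⟨k, ⟨h1, h2⟩ | ⟨h1, h2⟩⟩ := hs
  · apply hd h1
    rw [mem_sdiff, mem_near, mem_inn]
    refine ⟨Or.inl hx, ?_⟩
    rintro ⟨-, h4⟩
    apply hy
    rw [h2]
    exact h4
  · apply hd h1
    rw [mem_sdiff, mem_near, mem_inn]
    refine ⟨Or.inr ?_, ?_⟩
    · have h5 : tip (y, k) = x := h2.symm
      rw [h5]
      exact hx
    · rintro ⟨h4, -⟩
      exact hy h4

theorem mem_Hof {D Λ : Finset V} {ω : Finset Edge} {v : V} :
    v ∈ Hof D Λ ω ↔ v ∈ D ∧ ∀ w, FConn ω v w → w ∈ Λ := by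
  unfold Hof
  rw [mem_filter]

end HOF

open HOF in
theorem p_HOF : S_HOF := by
  intro D Λ H ω hΛ _hω
  constructor
  · rintro rfl
    refine ⟨filter_subset _ _, ?_, ?_⟩
    · rw [Finset.disjoint_left]
      intro e he hn
      rw [mem_sdiff, mem_near, mem_inn] at hn
      obtain ⟨h1, h2⟩ := hn
      apply h2
      rcases h1 with h1 | h1
      · refine ⟨h1, ?_⟩
        have h3 := (mem_Hof.1 h1).2
        rw [mem_Hof]
        exact ⟨hΛ (h3 _ (FConn_edge he)), fun w hw => h3 w ((FConn_edge he).trans hw)⟩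
      · refine ⟨?_, h1⟩
        have h3 := (mem_Hof.1 h1).2
        have h4 := FConn_symm (FConn_edge he)
        rw [mem_Hof]
        exact ⟨hΛ (h3 _ h4), fun w hw => h3 w (h4.trans hw)⟩
    · ext v
      rw [mem_Hof]
      constructor
      · rintro ⟨hv, h1⟩
        rw [mem_Hof]
        refine ⟨hv, ?_⟩
        by_contra h2
        push Not at h2
        obtain ⟨w, hw, hwΛ⟩ := h2
        apply hwΛ
        apply h1
        -- the whole path avoids `Hof`
        have key : ∀ u, FConn ω u w → FConn (ω \ near (Hof D Λ ω)) u w := by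
          intro u hu
          rw [fconn_iff] at hu
          induction hu using Relation.ReflTransGen.head_induction_on with
          | refl => exact Relation.ReflTransGen.refl
          | @head a b hab hbw ih =>
            have hbw' : FConn ω b w := hbw
            have haw : FConn ω a w := Relation.ReflTransGen.head hab hbw
            have ha : a ∉ Hof D Λ ω := fun h => hwΛ ((mem_Hof.1 h).2 w haw)
            have hb : b ∉ Hof D Λ ω := fun h => hwΛ ((mem_Hof.1 h).2 w hbw')
            exact Relation.ReflTransGen.head (step_near hab ha hb) ih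
        exact key v hw
      · intro h1
        obtain ⟨h2, h3⟩ := mem_Hof.1 h1
        exact ⟨h2, fun w hw => h3 w (fconn_mono sdiff_subset hw)⟩
  · rintro ⟨hHD, hd, hH⟩
    ext v
    rw [mem_Hof]
    constructor
    · rintro ⟨hv, h1⟩
      rw [← hH, mem_Hof]
      exact ⟨hv, fun w hw => h1 w (fconn_mono sdiff_subset hw)⟩
    · intro hv
      refine ⟨hHD hv, fun w hw => ?_⟩
      have hwH : w ∈ H := by
        rw [fconn_iff] at hw
        induction hw with
        | refl => exact hv
        | @tail b c _ hbc ih => exact step_in hd hbc ih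
      rw [← hH, mem_Hof] at hwH
      exact hwH.2 w Relation.ReflTransGen.refl

end XorIsing
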