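import Pool.Agent.Work.MP_bda6fa_nest.Interface
set_option autoImplicit false

namespace XorIsing
open scoped Classical
open Finset

theorem p_MARK (h : S_SPLIT) (h2 : S_HOF) : S_MARK := by
  intro β D Λ Λ' ev c hβ hΛ hΛ' hc
  have hc0 : 0 ≤ c := (dP_nonneg hβ Λ' (inn Λ') (ev Λ')).trans (hc Λ' (Finset.Subset.refl _) hΛ')
  have hHof : ∀ ω, Hof D Λ ω ⊆ Λ := by
    intro ω v hv
    exact (Finset.mem_filter.1 hv).2 v Relation.ReflTransGen.refl
  have hHofD : ∀ ω, Hof D Λ ω ⊆ D := fun ω => Finset.filter_subset _ _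
  -- the split for fixed `H`
  have hsp : ∀ H ⊆ D, ∀ f : Finset Edge → ℝ,
      ∑ ω ∈ (near D).powerset, dw β D ω * (if Hof D Λ ω = H then f (ω ∩ inn H) else 0)
        = (∑ ω ∈ (inn H).powerset, dw β H ω * f ω) *
          ∑ ω ∈ (near D \ near H).powerset, dw β (D \ H) ω * (if Hof D Λ ω = H then 1 else 0) := by
    intro H hH f
    rw [← h β D H f (fun ω => if Hof D Λ ω = H then 1 else 0) hH]
    refine Finset.sum_congr rfl fun ω hω => ?_
    congr 1
    have h3 := h2 D Λ H ω hΛ (Finset.mem_powerset.1 hω)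
    by_cases h4 : Hof D Λ ω = H
    · obtain ⟨-, h5, h6⟩ := h3.1 h4
      rw [if_pos h4, if_pos h5, if_pos h6, mul_one]
    · rw [if_neg h4]
      by_cases h5 : Disjoint ω (near H \ inn H)
      · rw [if_pos h5]
        have h6 : ¬ Hof D Λ (ω \ near H) = H := fun h7 => h4 (h3.2 ⟨hH, h5, h7⟩)
        rw [if_neg h6, mul_zero]
      · rw [if_neg h5]
  have key : ∀ H ∈ D.powerset.filter (fun H => Λ' ⊆ H),
      ∑ ω ∈ (near D).powerset, dw β D ω *
          (if Hof D Λ ω = H then (if ev H (ω ∩ inn H) then (1 : ℝ) else 0) else 0)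
        ≤ c * ∑ ω ∈ (near D).powerset, dw β D ω * (if Hof D Λ ω = H then (1 : ℝ) else 0) := by
    intro H hH
    rw [Finset.mem_filter, Finset.mem_powerset] at hH
    obtain ⟨hH1, hH2⟩ := hH
    by_cases hHΛ : H ⊆ Λ
    · have e1 := hsp H hH1 (fun ω => if ev H ω then (1 : ℝ) else 0)
      have e2 := hsp H hH1 (fun _ => (1 : ℝ))
      rw [e1, e2, ← mul_assoc]
      refine mul_le_mul_of_nonneg_right ?_ ?_
      · have h3 := hc H hH2 hHΛ
        unfold dP at h3
        rw [div_le_iff₀ (DW_pos hβ H (inn H))] at h3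
        refine h3.trans (le_of_eq ?_)
        unfold DW
        simp only [mul_one]
      · refine Finset.sum_nonneg fun ω _ => mul_nonneg (dw_nonneg hβ _ ω) ?_
        split_ifs <;> norm_num
    · have h3 : ∀ ω, Hof D Λ ω ≠ H := fun ω h4 => hHΛ (h4 ▸ hHof ω)
      have e1 : ∑ ω ∈ (near D).powerset, dw β D ω *
          (if Hof D Λ ω = H then (if ev H (ω ∩ inn H) then (1 : ℝ) else 0) else 0) = 0 :=
        Finset.sum_eq_zero fun ω _ => by rw [if_neg (h3 ω), mul_zero]
      have e2 : ∑ ω ∈ (near D).powerset, dw β D ω * (if Hof D Λ ω = H then (1 : ℝ) else 0) = 0 :=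
        Finset.sum_eq_zero fun ω _ => by rw [if_neg (h3 ω), mul_zero]
      rw [e1, e2, mul_zero]
  unfold dP
  rw [div_le_iff₀ (DW_pos hβ D (near D))]
  have hone : ∀ ω, dw β D ω * (if Λ' ⊆ Hof D Λ ω ∧ ev (Hof D Λ ω) (ω ∩ inn (Hof D Λ ω)) then (1 : ℝ) else 0)
      = ∑ H ∈ D.powerset.filter (fun H => Λ' ⊆ H), dw β D ω *
          (if Hof D Λ ω = H then (if ev H (ω ∩ inn H) then (1 : ℝ) else 0) else 0) := by
    intro ω
    rw [← Finset.mul_sum]
    congr 1
    by_cases h3 : Λ' ⊆ Hof D Λ ω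
    · rw [Finset.sum_eq_single_of_mem (Hof D Λ ω)
        (Finset.mem_filter.2 ⟨Finset.mem_powerset.2 (hHofD ω), h3⟩)
        (fun H _ hH => if_neg (Ne.symm hH)), if_pos rfl]
      by_cases h4 : ev (Hof D Λ ω) (ω ∩ inn (Hof D Λ ω))
      · rw [if_pos h4, if_pos ⟨h3, h4⟩]
      · rw [if_neg h4, if_neg (fun h5 => h4 h5.2)]
    · rw [if_neg (fun h4 => h3 h4.1)]
      symm
      refine Finset.sum_eq_zero fun H hH => ?_
      rw [if_neg]
      intro h4
      exact h3 (h4 ▸ (Finset.mem_filter.1 hH).2)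
  calc _ = ∑ ω ∈ (near D).powerset, ∑ H ∈ D.powerset.filter (fun H => Λ' ⊆ H), dw β D ω *
          (if Hof D Λ ω = H then (if ev H (ω ∩ inn H) then (1 : ℝ) else 0) else 0) :=
        Finset.sum_congr rfl fun ω _ => by
          rw [← hone ω]
          congr
    _ = ∑ H ∈ D.powerset.filter (fun H => Λ' ⊆ H), ∑ ω ∈ (near D).powerset, dw β D ω *
          (if Hof D Λ ω = H then (if ev H (ω ∩ inn H) then (1 : ℝ) else 0) else 0) := Finset.sum_comm
    _ ≤ ∑ H ∈ D.powerset.filter (fun H => Λ' ⊆ H),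
          c * ∑ ω ∈ (near D).powerset, dw β D ω * (if Hof D Λ ω = H then (1 : ℝ) else 0) :=
        Finset.sum_le_sum key
    _ = c * ∑ ω ∈ (near D).powerset, dw β D ω *
          ∑ H ∈ D.powerset.filter (fun H => Λ' ⊆ H), (if Hof D Λ ω = H then (1 : ℝ) else 0) := by
        rw [← Finset.mul_sum, Finset.sum_comm]
        congr 1
        refine Finset.sum_congr rfl fun ω _ => ?_
        rw [Finset.mul_sum]
    _ ≤ c * DW β D (near D) := by
        refine mul_le_mul_of_nonneg_left ?_ hc0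
        unfold DW
        refine Finset.sum_le_sum fun ω _ => ?_
        have h3 : ∑ H ∈ D.powerset.filter (fun H => Λ' ⊆ H), (if Hof D Λ ω = H then (1 : ℝ) else 0) ≤ 1 := by
          rw [Finset.sum_ite_eq]
          split_ifs <;> norm_num
        calc dw β D ω * _ ≤ dw β D ω * 1 := mul_le_mul_of_nonneg_left h3 (dw_nonneg hβ D ω)
          _ = _ := mul_one _

end XorIsing
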