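import Pool.Agent.Work.MP_bda6fa_nest.Interface
set_option autoImplicit false

/-! Block MONO (helper19): from every face there is a path to the outside along which the number of surrounding
loops does not increase. -/

namespace XorIsing
open scoped Classical
open Finset

/-- adjacent and of the same colour -/
def MonoR (X : Finset V) (a b : V) : Prop := (a ∈ X ↔ b ∈ X) ∧ Adj a b

theorem MONO_adj_symm {a b : V} (h : Adj a b) : Adj b a := by
  obtain ⟨k, h1 | h1⟩ := h
  · exact ⟨k, Or.inr h1⟩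
  · exact ⟨k, Or.inl h1⟩

theorem MonoR_symm {X : Finset V} {a b : V} (h : MonoR X a b) : MonoR X b a := ⟨h.1.symm, MONO_adj_symm h.2⟩

theorem MonoR_edge {a b : V} (h : Adj a b) : ∃ e : Edge, (e.1 = a ∧ tip e = b) ∨ (e.1 = b ∧ tip e = a) := by
  obtain ⟨k, h1 | h1⟩ := h
  · exact ⟨(a, k), Or.inl ⟨rfl, h1.symm⟩⟩
  · exact ⟨(b, k), Or.inr ⟨rfl, h1.symm⟩⟩

theorem MonoR_surr {X : Finset V} {a b : V} (h : MonoR X a b) {L : Finset Edge} (hL : L ∈ loops X) :
    Surrounds L a ↔ Surrounds L b := by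
  obtain ⟨e, he⟩ := MonoR_edge h.2
  have hne : e ∉ L := by
    intro hh
    have h2 := mem_contour.1 (loop_sub hL hh)
    rcases he with ⟨h3, h4⟩ | ⟨h3, h4⟩
    · rw [h3, h4] at h2
      exact h2 h.1
    · rw [h3, h4] at h2
      exact h2 h.1.symm
  have h1 := (loop_step hL e).2 hne
  rcases he with ⟨h3, h4⟩ | ⟨h3, h4⟩
  · rw [h3, h4] at h1
    exact h1
  · rw [h3, h4] at h1
    exact h1.symm

theorem MonoR_nloops {X : Finset V} {a b : V} (h : MonoR X a b) : nloops X a = nloops X b := by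
  unfold nloops
  congr 1
  ext L
  rw [mem_filter, mem_filter]
  constructor
  · rintro ⟨h1, h2⟩
    exact ⟨h1, (MonoR_surr h h1).1 h2⟩
  · rintro ⟨h1, h2⟩
    exact ⟨h1, (MonoR_surr h h1).2 h2⟩

/-- two different edges of a triangle share a vertex, their other ends are adjacent -/
theorem mono_tri_share (t : V × Bool) (e f : Edge) (he : e ∈ tri t) (hf : f ∈ tri t) (hne : e ≠ f) :
    ∃ p q r : V, ((e.1 = p ∧ tip e = q) ∨ (e.1 = q ∧ tip e = p)) ∧ ((f.1 = p ∧ tip f = r) ∨ (f.1 = r ∧ tip f = p)) ∧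
      Adj q r := by
  obtain ⟨⟨a, b⟩, s⟩ := t
  have d0 : dir 0 = (1, 0) := rfl
  have d1 : dir 1 = (0, 1) := rfl
  have d2 : dir 2 = (1, -1) := rfl
  have adj0 : ∀ x y : ℤ, Adj (x, y) (x + 1, y) := fun x y => ⟨0, Or.inl (by rw [d0]; ext <;> simp)⟩
  have adj1 : ∀ x y : ℤ, Adj (x, y) (x, y + 1) := fun x y => ⟨1, Or.inl (by rw [d1]; ext <;> simp)⟩
  have adj2 : ∀ x y : ℤ, Adj (x, y + 1) (x + 1, y) := fun x y => ⟨2, Or.inl (by rw [d2]; ext <;> simp)⟩
  have t0 : ∀ x y : ℤ, tip ((x, y), 0) = (x + 1, y) := fun x y => by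
    show (x, y) + dir 0 = (x + 1, y)
    rw [d0]; ext <;> simp
  have t1 : ∀ x y : ℤ, tip ((x, y), 1) = (x, y + 1) := fun x y => by
    show (x, y) + dir 1 = (x, y + 1)
    rw [d1]; ext <;> simp
  have t2 : ∀ x y : ℤ, tip ((x, y + 1), 2) = (x + 1, y) := fun x y => by
    show (x, y + 1) + dir 2 = (x + 1, y)
    rw [d2]; ext <;> simp
  have v1 : ((a, b) : V) + (0, 1) = (a, b + 1) := by ext <;> simp
  have v2 : ((a, b) : V) + (1, 0) = (a + 1, b) := by ext <;> simp
  cases s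
  · rw [mem_tri_down, v1, v2] at he hf
    rcases he with rfl | rfl | rfl <;> rcases hf with rfl | rfl | rfl
    · exact absurd rfl hne
    · exact ⟨(a, b + 1), (a + 1, b), (a + 1, b + 1), Or.inl ⟨rfl, t2 a b⟩, Or.inl ⟨rfl, t0 a (b + 1)⟩, adj1 _ _⟩
    · exact ⟨(a + 1, b), (a, b + 1), (a + 1, b + 1), Or.inr ⟨rfl, t2 a b⟩, Or.inl ⟨rfl, t1 (a + 1) b⟩, adj0 _ _⟩
    · exact ⟨(a, b + 1), (a + 1, b + 1), (a + 1, b), Or.inl ⟨rfl, t0 a (b + 1)⟩, Or.inl ⟨rfl, t2 a b⟩,
        MONO_adj_symm (adj1 _ _)⟩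
    · exact absurd rfl hne
    · exact ⟨(a + 1, b + 1), (a, b + 1), (a + 1, b), Or.inr ⟨rfl, t0 a (b + 1)⟩, Or.inr ⟨rfl, t1 (a + 1) b⟩, adj2 _ _⟩
    · exact ⟨(a + 1, b), (a + 1, b + 1), (a, b + 1), Or.inl ⟨rfl, t1 (a + 1) b⟩, Or.inr ⟨rfl, t2 a b⟩,
        MONO_adj_symm (adj0 _ _)⟩
    · exact ⟨(a + 1, b + 1), (a + 1, b), (a, b + 1), Or.inr ⟨rfl, t1 (a + 1) b⟩, Or.inr ⟨rfl, t0 a (b + 1)⟩,
        MONO_adj_symm (adj2 _ _)⟩
    · exact absurd rfl hne
  · rw [mem_tri_up, v1] at he hf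
    rcases he with rfl | rfl | rfl <;> rcases hf with rfl | rfl | rfl
    · exact absurd rfl hne
    · exact ⟨(a, b), (a + 1, b), (a, b + 1), Or.inl ⟨rfl, t0 a b⟩, Or.inl ⟨rfl, t1 a b⟩, MONO_adj_symm (adj2 _ _)⟩
    · exact ⟨(a + 1, b), (a, b), (a, b + 1), Or.inr ⟨rfl, t0 a b⟩, Or.inr ⟨rfl, t2 a b⟩, adj1 _ _⟩
    · exact ⟨(a, b), (a, b + 1), (a + 1, b), Or.inl ⟨rfl, t1 a b⟩, Or.inl ⟨rfl, t0 a b⟩, adj2 _ _⟩
    · exact absurd rfl hne
    · exact ⟨(a, b + 1), (a, b), (a + 1, b), Or.inr ⟨rfl, t1 a b⟩, Or.inl ⟨rfl, t2 a b⟩, adj0 _ _⟩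
    · exact ⟨(a + 1, b), (a, b + 1), (a, b), Or.inr ⟨rfl, t2 a b⟩, Or.inr ⟨rfl, t0 a b⟩, MONO_adj_symm (adj1 _ _)⟩
    · exact ⟨(a, b + 1), (a + 1, b), (a, b), Or.inl ⟨rfl, t2 a b⟩, Or.inr ⟨rfl, t1 a b⟩, MONO_adj_symm (adj0 _ _)⟩
    · exact absurd rfl hne

/-- the contour of a monochromatic component is closed under touching contour edges -/
theorem mono_comp_touch {X K : Finset V} (hK : ∀ a b, MonoR X a b → a ∈ K → b ∈ K) {e f : Edge} (heX : e ∈ contour X)
    (hfX : f ∈ contour X) (h : Touch e f) (he : e ∈ contour K) : f ∈ contour K := by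
  by_cases hne : e = f
  · rw [← hne]
    exact he
  obtain ⟨t, h1, h2⟩ := h
  obtain ⟨p, q, r, h3, h4, h5⟩ := mono_tri_share t e f h1 h2 hne
  rw [mem_contour] at heX hfX he ⊢
  have k1 : ¬ (p ∈ X ↔ q ∈ X) := by
    rcases h3 with ⟨h6, h7⟩ | ⟨h6, h7⟩ <;> rw [h6, h7] at heX
    · exact heX
    · exact fun h => heX h.symm
  have k2 : ¬ (p ∈ X ↔ r ∈ X) := by
    rcases h4 with ⟨h6, h7⟩ | ⟨h6, h7⟩ <;> rw [h6, h7] at hfX
    · exact hfX
    · exact fun h => hfX h.symm
  have k3 : ¬ (p ∈ K ↔ q ∈ K) := by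
    rcases h3 with ⟨h6, h7⟩ | ⟨h6, h7⟩ <;> rw [h6, h7] at he
    · exact he
    · exact fun h => he h.symm
  have k4 : MonoR X q r := ⟨by tauto, h5⟩
  have k5 : q ∈ K ↔ r ∈ K := ⟨hK q r k4, hK r q (MonoR_symm k4)⟩
  rcases h4 with ⟨h6, h7⟩ | ⟨h6, h7⟩ <;> rw [h6, h7]
  · tauto
  · tauto

theorem mono_comp_sub {X K : Finset V} (hK : ∀ a b, MonoR X a b → a ∈ K → b ∈ K) {e : Edge} (he : e ∈ contour K) :
    e ∈ contour X := by
  rw [mem_contour] at he ⊢
  intro h
  apply he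
  have h1 : Adj e.1 (tip e) := ⟨e.2, Or.inl rfl⟩
  exact ⟨hK _ _ ⟨h, h1⟩, hK _ _ ⟨h.symm, MONO_adj_symm h1⟩⟩

theorem mono_comp_loop {X K : Finset V} (hK : ∀ a b, MonoR X a b → a ∈ K → b ∈ K) {e : Edge} (he : e ∈ contour K) :
    loopOf X e ⊆ contour K := by
  intro f hf
  obtain ⟨-, hf2⟩ := mem_loopOf.1 hf
  induction hf2 with
  | refl => exact he
  | @tail b c hb hc ih =>
    have hb2 : b ∈ contour K := by
      by_cases hbe : b = e
      · rw [hbe]; exact he
      · apply ih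
        rcases Relation.ReflTransGen.cases_tail hb with h1 | ⟨d, -, h2⟩
        · exact absurd h1 hbe
        · exact mem_loopOf.2 ⟨h2.1, hb⟩
    exact mono_comp_touch hK (mono_comp_sub hK hb2) hc.1 hc.2 hb2

/-- a loop of the contour of a finite monochromatic component surrounds it -/
theorem mono_comp_surr {X K : Finset V} (hK : ∀ a b, MonoR X a b → a ∈ K → b ∈ K) {y : V} (hy : y ∈ K) :
    ∃ L ∈ loops X, L ⊆ contour K ∧ Surrounds L y := by
  by_contra hcon
  push Not at hcon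
  set T := (loops X).filter (fun L => L ⊆ contour K) with hT
  have h1 : (ray (contour K) y).card = ∑ L ∈ T, (ray L y).card := by
    have h2 : ∀ e ∈ ray (contour K) y, loopOf X e ∈ T := fun e he => by
      have h3 := (mem_filter.1 he).1
      exact mem_filter.2 ⟨(loop_self (mono_comp_sub hK h3)).1, mono_comp_loop hK h3⟩
    rw [card_eq_sum_card_fiberwise h2]
    apply sum_congr rfl
    intro L hL
    obtain ⟨hL1, hL2⟩ := mem_filter.1 hL
    congr 1
    ext e
    simp only [ray, mem_filter]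
    constructor
    · rintro ⟨⟨h3, h4⟩, h5⟩
      refine ⟨?_, h4⟩
      rw [← h5]
      exact (loop_self (mono_comp_sub hK h3)).2
    · rintro ⟨h3, h4⟩
      exact ⟨⟨hL2 h3, h4⟩, loop_eq hL1 h3⟩
  have h2 : rp (contour K) y = 0 := by
    rw [rp, h1, Nat.cast_sum]
    apply sum_eq_zero
    intro L hL
    obtain ⟨hL1, hL2⟩ := mem_filter.1 hL
    exact (not_surrounds_iff L y).1 (hcon L hL1 hL2)
  rw [rp_contour, ind, if_pos hy] at h2
  exact absurd h2 (by decide)

theorem p_MONO : S_MONO := by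
  intro D X y hD hX
  obtain ⟨n, hn⟩ : ∃ n, n = nloops X y := ⟨_, rfl⟩
  induction n using Nat.strong_induction_on generalizing y with
  | _ n ih =>
    have hlift : ∀ z, Relation.ReflTransGen (MonoR X) y z →
        Relation.ReflTransGen (fun a b => Adj a b ∧ nloops X b ≤ nloops X a) y z := by
      intro z hz
      induction hz with
      | refl => exact Relation.ReflTransGen.refl
      | @tail b c _ hbc ih => exact ih.tail ⟨hbc.2, (MonoR_nloops hbc).symm.le⟩
    by_cases hout : ∃ z, z ∉ D ∧ Relation.ReflTransGen (MonoR X) y z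
    · obtain ⟨z, hz, hyz⟩ := hout
      exact ⟨z, hz, hlift z hyz⟩
    · push Not at hout
      have hin : ∀ z, Relation.ReflTransGen (MonoR X) y z → z ∈ D := by
        intro z hz
        by_contra h
        exact hout z h hz
      obtain ⟨K, hKd⟩ : ∃ K : Finset V, K = D.filter (fun z => Relation.ReflTransGen (MonoR X) y z) := ⟨_, rfl⟩
      have hKm : ∀ z, z ∈ K ↔ Relation.ReflTransGen (MonoR X) y z := by
        intro z
        rw [hKd, mem_filter]
        exact ⟨fun h => h.2, fun h => ⟨hin z h, h⟩⟩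
      have hK : ∀ a b, MonoR X a b → a ∈ K → b ∈ K := by
        intro a b hab ha
        rw [hKm] at ha ⊢
        exact ha.tail hab
      have hyK : y ∈ K := (hKm y).2 Relation.ReflTransGen.refl
      obtain ⟨L, hL, hLK, hLy⟩ := mono_comp_surr hK hyK
      -- an edge of L
      obtain ⟨e, he⟩ : L.Nonempty := by
        rw [Finset.nonempty_iff_ne_empty]
        rintro rfl
        rw [Surrounds, ray, filter_empty, card_empty] at hLy
        exact absurd hLy (by decide)
      have hsurr : ∀ a ∈ K, Surrounds L a := by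
        intro a ha
        have h1 := (hKm a).1 ha
        clear ha
        induction h1 with
        | refl => exact hLy
        | tail _ hbc ih => exact (MonoR_surr hbc hL).1 ih
      have heK := mem_contour.1 (hLK he)
      obtain ⟨a, b, hab, ha, hb⟩ : ∃ a b, ((e.1 = a ∧ tip e = b) ∨ (e.1 = b ∧ tip e = a)) ∧ a ∈ K ∧ b ∉ K := by
        by_cases h1 : e.1 ∈ K
        · exact ⟨e.1, tip e, Or.inl ⟨rfl, rfl⟩, h1, fun h => heK ⟨fun _ => h, fun _ => h1⟩⟩
        · by_cases h2 : tip e ∈ K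
          · exact ⟨tip e, e.1, Or.inr ⟨rfl, rfl⟩, h2, h1⟩
          · exact absurd ⟨fun h => absurd h h1, fun h => absurd h h2⟩ heK
      have hadj : Adj a b := by
        have h1 : Adj e.1 (tip e) := ⟨e.2, Or.inl rfl⟩
        rcases hab with ⟨h2, h3⟩ | ⟨h2, h3⟩
        · rw [h2, h3] at h1
          exact h1
        · rw [h2, h3] at h1
          exact MONO_adj_symm h1
      have hstep : ∀ L' ∈ loops X, (Surrounds L' a ↔ Surrounds L' b) ↔ e ∉ L' := by
        intro L' hL'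
        have h1 := loop_step hL' e
        rcases hab with ⟨h2, h3⟩ | ⟨h2, h3⟩
        · rw [h2, h3] at h1
          exact h1
        · rw [h2, h3] at h1
          exact ⟨fun h => h1.1 h.symm, fun h => (h1.2 h).symm⟩
      have hLa := hsurr a ha
      have hLb : ¬ Surrounds L b := by
        intro h
        exact (hstep L hL).1 ⟨fun _ => h, fun _ => hLa⟩ he
      have hlt : nloops X b < nloops X a := by
        unfold nloops
        apply card_lt_card
        rw [ssubset_iff_of_subset]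
        · exact ⟨L, mem_filter.2 ⟨hL, hLa⟩, fun h => hLb (mem_filter.1 h).2⟩
        · intro L' hL'
          obtain ⟨h1, h2⟩ := mem_filter.1 hL'
          refine mem_filter.2 ⟨h1, ?_⟩
          have h3 : e ∉ L' := by
            intro h4
            have h5 : L' = L := (loop_eq h1 h4).symm.trans (loop_eq hL he)
            rw [h5] at h2
            exact hLb h2
          exact ((hstep L' h1).2 h3).2 h2
      have hya : nloops X a = nloops X y := by
        have h1 := (hKm a).1 ha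
        clear ha hab hadj hstep hLa hlt
        induction h1 with
        | refl => rfl
        | tail _ hbc ih => exact (MonoR_nloops hbc).symm.trans ih
      obtain ⟨z, hz, hbz⟩ := ih (nloops X b) (by rw [hn, ← hya]; exact hlt) b rfl
      exact ⟨z, hz, ((hlift a ((hKm a).1 ha)).tail ⟨hadj, hlt.le⟩).trans hbz⟩

end XorIsing
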