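import Pool.Agent.Work.MP_bda6fa_nest.Interface
set_option autoImplicit false

/-! Block RAT (helper45). -/

namespace XorIsing
open scoped Classical
open Finset

theorem RAT_pz_sup (β : ℝ) (Λ : Finset V) {F F' : Finset Edge} (h : F' ⊆ F)
    (h2 : ∀ e ∈ F \ F', e ∉ near Λ) :
    pz β Λ F = Real.exp (β * (F \ F').card) * pz β Λ F' := by
  unfold pz
  rw [mul_sum]
  refine sum_congr rfl fun M hM => ?_
  rw [mem_powerset] at hM
  rw [← Real.exp_add, ← mul_add]
  congr 2
  have h3 : ∑ e ∈ F \ F', spin M e.1 * spin M (tip e) = ((F \ F').card : ℝ) := by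
    rw [card_eq_sum_ones]
    push_cast
    refine sum_congr rfl fun e he => ?_
    have h4 := h2 e he
    rw [mem_near, not_or] at h4
    have h5 : e.1 ∉ M := fun hm => h4.1 (hM hm)
    have h6 : tip e ∉ M := fun hm => h4.2 (hM hm)
    unfold spin
    rw [if_neg h5, if_neg h6, one_mul]
  rw [← h3, sum_sdiff h]

theorem p_RAT (h : S_PLUS) : S_RAT := by
  intro β D Λ C hβ hΛ hC
  have h1 := h β D Λ (near D) (near D \ near C) hβ sdiff_subset hΛ
  have hCΛ : near C ⊆ near Λ := by
    intro e he
    rw [mem_near] at he ⊢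
    exact he.imp (fun x => hC x) (fun x => hC x)
  have hΛD : near Λ ⊆ near D := by
    intro e he
    rw [mem_near] at he ⊢
    exact he.imp (fun x => hΛ x) (fun x => hΛ x)
  have e1 : pz β Λ (near D) = Real.exp (β * (near D \ near Λ).card) * pz β Λ (near Λ) :=
    RAT_pz_sup β Λ hΛD (fun e he => (mem_sdiff.1 he).2)
  have e2 : (near D \ near C) \ (near Λ \ near C) = near D \ near Λ := by
    ext e
    simp only [mem_sdiff]
    constructor
    · rintro ⟨⟨a, b⟩, c⟩
      exact ⟨a, fun d => c ⟨d, b⟩⟩
    · rintro ⟨a, b⟩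
      exact ⟨⟨a, fun c => b (hCΛ c)⟩, fun c => b c.1⟩
  have e3 : pz β Λ (near D \ near C) =
      Real.exp (β * (near D \ near Λ).card) * pz β Λ (near Λ \ near C) := by
    have := RAT_pz_sup β Λ (F := near D \ near C) (F' := near Λ \ near C)
      (sdiff_subset_sdiff hΛD (le_refl _)) (by
        rw [e2]
        exact fun e he => (mem_sdiff.1 he).2)
    rw [e2] at this
    exact this
  rw [e1, e3] at h1
  have h0 := Real.exp_pos (β * (near D \ near Λ).card)
  refine le_of_mul_le_mul_left ?_ h0
  calc Real.exp (β * (near D \ near Λ).card) * (pz β Λ (near Λ \ near C) * pz β D (near D))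
      = Real.exp (β * (near D \ near Λ).card) * pz β Λ (near Λ \ near C) * pz β D (near D) := by ring
    _ ≤ Real.exp (β * (near D \ near Λ).card) * pz β Λ (near Λ) * pz β D (near D \ near C) := h1
    _ = _ := by ring

end XorIsing
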