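import Pool.Agent.Work.MP_bda6fa_nest.Interface
set_option autoImplicit false

/-! Block SIGN (helper19): given ω the signs of the clusters are independent fair coins. -/

namespace XorIsing
open scoped Classical
open Finset

theorem sign_recover {D M : Finset V} {ω : Finset Edge} (hM : M ∈ compat D ω) :
    ((fclusters D ω).filter (fun C => C ⊆ M)).biUnion id = M := by
  obtain ⟨hM1, -⟩ := mem_compat.1 hM
  ext v
  rw [mem_biUnion]
  constructor
  · rintro ⟨C, hC, hv⟩
    exact (mem_filter.1 hC).2 hv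
  · intro hv
    have h1 : ∀ w, FConn ω v w → w ∈ M := fun w hw => (compat_conn hM hw).1 hv
    refine ⟨D.filter (fun u => FConn ω v u), mem_filter.2 ⟨?_, ?_⟩, ?_⟩
    · refine mem_fclusters.2 ⟨v, hM1 hv, fun w hw => hM1 (h1 w hw), fun u => ?_⟩
      rw [mem_filter]
      exact ⟨fun h => h.2, fun h => ⟨hM1 (h1 u h), h⟩⟩
    · intro u hu
      exact h1 u (mem_filter.1 hu).2
    · rw [id, mem_filter]
      exact ⟨hM1 hv, Relation.ReflTransGen.refl⟩

theorem sign_count {D : Finset V} {ω : Finset Edge} {G : Finset (Finset V)} (hG : G ⊆ fclusters D ω) (b : Prop) :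
    ((compat D ω).filter (fun X => ∀ C ∈ G, (C ⊆ X ↔ b))).card ≤ 2 ^ ((fclusters D ω).card - G.card) := by
  rw [← card_sdiff_of_subset hG, ← card_powerset]
  apply card_le_card_of_injOn (fun X => (fclusters D ω \ G).filter (fun C => C ⊆ X))
  · intro X _
    rw [mem_coe, mem_powerset]
    exact filter_subset _ _
  · intro X hX X' hX' h
    rw [mem_coe, mem_filter] at hX hX'
    obtain ⟨h1, h2⟩ := hX
    obtain ⟨h3, h4⟩ := hX'
    have h5 : (fclusters D ω).filter (fun C => C ⊆ X) = (fclusters D ω).filter (fun C => C ⊆ X') := by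
      ext C
      rw [mem_filter, mem_filter]
      by_cases hC : C ∈ G
      · rw [h2 C hC, h4 C hC]
      · have h6 := Finset.ext_iff.1 h C
        simp only [mem_filter, mem_sdiff] at h6
        constructor
        · rintro ⟨h7, h8⟩
          exact ⟨h7, (h6.1 ⟨⟨h7, hC⟩, h8⟩).2⟩
        · rintro ⟨h7, h8⟩
          exact ⟨h7, (h6.2 ⟨⟨h7, hC⟩, h8⟩).2⟩
    rw [← sign_recover h1, ← sign_recover h3, h5]

theorem p_SIGN : S_SIGN := by
  intro D ω j K C hC hinj
  have hidx : ∀ a < j, ∀ i < K, a * K + i < j * K := by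
    intro a ha i hi
    have h1 : (a + 1) * K ≤ j * K := Nat.mul_le_mul_right K ha
    have h2 : (a + 1) * K = a * K + K := by ring
    omega
  obtain ⟨G, hGd⟩ : ∃ G : ℕ → Finset (Finset V), G = fun a => (range K).image (fun i => C (a * K + i)) := ⟨_, rfl⟩
  have hGs : ∀ a < j, G a ⊆ fclusters D ω := by
    intro a ha B hB
    rw [hGd] at hB
    obtain ⟨i, hi, rfl⟩ := mem_image.1 hB
    exact hC _ (hidx a ha i (mem_range.1 hi))
  have hGc : ∀ a < j, (G a).card = K := by
    intro a ha
    rw [hGd]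
    simp only
    rw [card_image_of_injOn, card_range]
    intro i hi i' hi' h
    rw [mem_coe, mem_range] at hi hi'
    have := hinj _ (hidx a ha i hi) _ (hidx a ha i' hi') h
    omega
  obtain ⟨good, hgood⟩ : ∃ good : Finset (Finset V), good = (compat D ω).filter
      (fun X => ∀ a < j, ∃ i < K, ∃ i' < K, C (a * K + i) ⊆ X ∧ ¬ C (a * K + i') ⊆ X) := ⟨_, rfl⟩
  rw [← hgood]
  obtain ⟨B, hB⟩ : ∃ B : ℕ → Prop → Finset (Finset V), B = fun a b =>
      (compat D ω).filter (fun X => ∀ C ∈ G a, (C ⊆ X ↔ b)) := ⟨_, rfl⟩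
  have hBm : ∀ (a : ℕ) (b : Prop) (X : Finset V), X ∈ compat D ω → (∀ Y ∈ G a, (Y ⊆ X ↔ b)) → X ∈ B a b := by
    intro a b X h1 h2
    rw [hB]
    exact mem_filter.2 ⟨h1, h2⟩
  have hcov : compat D ω ⊆ good ∪ (range j).biUnion (fun a => B a True ∪ B a False) := by
    intro X hX
    by_cases h : ∀ a < j, ∃ i < K, ∃ i' < K, C (a * K + i) ⊆ X ∧ ¬ C (a * K + i') ⊆ X
    · apply mem_union_left
      rw [hgood]
      exact mem_filter.2 ⟨hX, h⟩
    · apply mem_union_right
      push Not at h
      obtain ⟨a, ha, h⟩ := h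
      refine mem_biUnion.2 ⟨a, mem_range.2 ha, ?_⟩
      by_cases h1 : ∃ i < K, C (a * K + i) ⊆ X
      · obtain ⟨i, hi, h2⟩ := h1
        refine mem_union_left _ (hBm a True X hX ?_)
        intro Y hY
        rw [hGd] at hY
        obtain ⟨i', hi', rfl⟩ := mem_image.1 hY
        exact ⟨fun _ => trivial, fun _ => h i hi i' (mem_range.1 hi') h2⟩
      · push Not at h1
        refine mem_union_right _ (hBm a False X hX ?_)
        intro Y hY
        rw [hGd] at hY
        obtain ⟨i', hi', rfl⟩ := mem_image.1 hY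
        exact ⟨fun h2 => h1 i' (mem_range.1 hi') h2, fun h2 => h2.elim⟩
  have hBc : ∀ a < j, ∀ b, (B a b).card ≤ 2 ^ ((fclusters D ω).card - K) := by
    intro a ha b
    rw [hB, ← hGc a ha]
    exact sign_count (hGs a ha) b
  have h1 := card_le_card hcov
  rw [card_compat] at h1
  have h2 : ((range j).biUnion (fun a => B a True ∪ B a False)).card ≤ j * (2 * 2 ^ ((fclusters D ω).card - K)) := by
    refine card_biUnion_le.trans ?_
    refine (sum_le_card_nsmul _ _ (2 * 2 ^ ((fclusters D ω).card - K)) ?_).trans ?_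
    · intro a ha
      have ha' := mem_range.1 ha
      have h3 := card_union_le (B a True) (B a False)
      have h4 := hBc a ha' True
      have h5 := hBc a ha' False
      omega
    · rw [card_range, smul_eq_mul]
  have h3 := card_union_le good ((range j).biUnion (fun a => B a True ∪ B a False))
  have h4 : 2 ^ (fclusters D ω).card ≤ good.card + j * (2 * 2 ^ ((fclusters D ω).card - K)) :=
    h1.trans (h3.trans (Nat.add_le_add_left h2 _))
  have h5 : (2 : ℝ) ^ (fclusters D ω).card ≤ good.card + (j : ℝ) * (2 * 2 ^ ((fclusters D ω).card - K)) := by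
    exact_mod_cast h4
  have h6 : (j : ℝ) * (2 * 2 ^ ((fclusters D ω).card - K)) = (j : ℝ) * 2 * (1 / 2) ^ K * 2 ^ (fclusters D ω).card := by
    rcases Nat.eq_zero_or_pos j with h0 | h0
    · rw [h0]
      simp
    · have hK : K ≤ (fclusters D ω).card := by
        rw [← hGc 0 h0]
        exact card_le_card (hGs 0 h0)
      have h7 : (2 : ℝ) ^ (fclusters D ω).card = 2 ^ ((fclusters D ω).card - K) * 2 ^ K := by
        rw [← pow_add, Nat.sub_add_cancel hK]
      have h8 : ((1 : ℝ) / 2) ^ K * 2 ^ K = 1 := by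
        rw [← mul_pow]
        norm_num
      rw [h7]
      linear_combination (-(j : ℝ) * 2 * 2 ^ ((fclusters D ω).card - K)) * h8
  rw [h6] at h5
  linarith

end XorIsing
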