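import Pool.Agent.Work.MP_bda6fa_nest.Interface
set_option autoImplicit false

/-! SPLIT: sum over the configurations without edges between S and its complement. -/

namespace XorIsing
open scoped Classical
open Finset

theorem p_SPLIT (hF : S_FACT) : S_SPLIT := by
  intro β D S f h hSD
  have hin : ∀ e, e ∈ inn S → e ∈ near S := fun e he => (mem_filter.1 he).1
  have hnear : ∀ e, e ∈ near S → e ∈ near D := by
    intro e he
    rw [mem_near] at he ⊢
    rcases he with h1 | h1
    · exact Or.inl (hSD h1)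
    · exact Or.inr (hSD h1)
  rw [sum_mul_sum, ← sum_product']
  have h0 : ∑ ω ∈ (near D).powerset, dw β D ω *
      (if Disjoint ω (near S \ inn S) then f (ω ∩ inn S) * h (ω \ near S) else 0) =
      ∑ ω ∈ (near D).powerset.filter (fun ω => Disjoint ω (near S \ inn S)),
        dw β D ω * (f (ω ∩ inn S) * h (ω \ near S)) := by
    rw [sum_filter]
    refine sum_congr rfl fun ω _ => ?_
    split_ifs <;> simp
  rw [h0]
  refine sum_nbij' (fun ω => (ω ∩ inn S, ω \ near S)) (fun p => p.1 ∪ p.2) ?_ ?_ ?_ ?_ ?_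
  · intro ω hω
    obtain ⟨h1, h2⟩ := mem_filter.1 hω
    rw [mem_powerset] at h1
    refine mem_product.2 ⟨mem_powerset.2 inter_subset_right, mem_powerset.2 fun e he => ?_⟩
    obtain ⟨h3, h4⟩ := mem_sdiff.1 he
    exact mem_sdiff.2 ⟨h1 h3, h4⟩
  · intro p hp
    obtain ⟨h1, h2⟩ := mem_product.1 hp
    rw [mem_powerset] at h1 h2
    refine mem_filter.2 ⟨mem_powerset.2 fun e he => ?_, ?_⟩
    · rcases mem_union.1 he with h3 | h3
      · exact hnear e (hin e (h1 h3))
      · exact (mem_sdiff.1 (h2 h3)).1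
    · rw [disjoint_left]
      intro e he he'
      obtain ⟨h4, h5⟩ := mem_sdiff.1 he'
      rcases mem_union.1 he with h3 | h3
      · exact h5 (h1 h3)
      · exact (mem_sdiff.1 (h2 h3)).2 h4
  · intro ω hω
    obtain ⟨h1, h2⟩ := mem_filter.1 hω
    rw [disjoint_left] at h2
    show (ω ∩ inn S) ∪ (ω \ near S) = ω
    ext e
    rw [mem_union, mem_inter, mem_sdiff]
    constructor
    · rintro (⟨h3, _⟩ | ⟨h3, _⟩) <;> exact h3
    · intro h3
      by_cases h4 : e ∈ near S
      · left
        refine ⟨h3, ?_⟩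
        by_contra h5
        exact h2 h3 (mem_sdiff.2 ⟨h4, h5⟩)
      · right
        exact ⟨h3, h4⟩
  · intro p hp
    obtain ⟨h1, h2⟩ := mem_product.1 hp
    rw [mem_powerset] at h1 h2
    refine Prod.ext ?_ ?_
    · show (p.1 ∪ p.2) ∩ inn S = p.1
      ext e
      rw [mem_inter, mem_union]
      constructor
      · rintro ⟨h3 | h3, h4⟩
        · exact h3
        · exact absurd (hin e h4) (mem_sdiff.1 (h2 h3)).2
      · intro h3
        exact ⟨Or.inl h3, h1 h3⟩
    · show (p.1 ∪ p.2) \ near S = p.2
      ext e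
      rw [mem_sdiff, mem_union]
      constructor
      · rintro ⟨h3 | h3, h4⟩
        · exact absurd (hin e (h1 h3)) h4
        · exact h3
      · intro h3
        exact ⟨Or.inr h3, (mem_sdiff.1 (h2 h3)).2⟩
  · intro ω hω
    obtain ⟨h1, h2⟩ := mem_filter.1 hω
    rw [mem_powerset] at h1
    rw [disjoint_left] at h2
    have h3 : ω = (ω ∩ inn S) ∪ (ω \ near S) := by
      ext e
      rw [mem_union, mem_inter, mem_sdiff]
      constructor
      · intro h3
        by_cases h4 : e ∈ near S
        · left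
          refine ⟨h3, ?_⟩
          by_contra h5
          exact h2 h3 (mem_sdiff.2 ⟨h4, h5⟩)
        · right
          exact ⟨h3, h4⟩
      · rintro (⟨h3, _⟩ | ⟨h3, _⟩) <;> exact h3
    have h4 : dw β D ω = dw β S (ω ∩ inn S) * dw β (D \ S) (ω \ near S) := by
      have h5 := hF β S (D \ S) (ω ∩ inn S) (ω \ near S) disjoint_sdiff inter_subset_right (by
        intro e he
        have h6 := (mem_sdiff.1 he).2
        rw [mem_near] at h6
        push Not at h6
        exact h6)
      rw [union_sdiff_of_subset hSD, ← h3] at h5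
      exact h5
    show dw β D ω * (f (ω ∩ inn S) * h (ω \ near S)) =
      dw β S (ω ∩ inn S) * f (ω ∩ inn S) * (dw β (D \ S) (ω \ near S) * h (ω \ near S))
    rw [h4]
    ring

end XorIsing
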