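import Pool.Agent.Work.MP_bda6fa_nest.Interface
set_option autoImplicit false

/-! SQ: the square of the partition function. -/

namespace XorIsing
open scoped Classical
open Finset

theorem p_SQ (hX : S_XDC) : S_SQ := by
  intro β D F
  have h := hX β D F (fun _ => 1)
  have h1 : pz β D F ^ 2 = ∑ M ∈ D.powerset, ∑ M' ∈ D.powerset,
      Real.exp (β * ∑ e ∈ F, spin M e.1 * spin M (tip e)) *
      Real.exp (β * ∑ e ∈ F, spin M' e.1 * spin M' (tip e)) * (fun _ : Finset V => (1 : ℝ)) (symmDiff M M') := by
    unfold pz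
    rw [sq, sum_mul_sum]
    refine sum_congr rfl fun M _ => sum_congr rfl fun M' _ => ?_
    rw [mul_one]
  rw [h1, h]
  congr 1
  unfold DW dw
  refine sum_congr rfl fun ω _ => ?_
  rw [sum_const, card_compat]
  simp

end XorIsing
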