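import Pool.Agent.Work.MP_bda6fa_nest.TRC
set_option autoImplicit false

namespace XorIsing
open scoped Classical
open Finset

theorem TRD.cut_shift (v : V) (b : Bool) (e : Edge) :
    cut (v, b) (TRC.eS v e) ↔ cut ((0, 0), b) e := by
  obtain ⟨⟨x, y⟩, k⟩ := e
  obtain ⟨p, q⟩ := v
  unfold cut TRC.eS
  simp only [Prod.mk_add_mk]
  cases b
  · simp only [Bool.false_eq_true, if_false]
    constructor
    · rintro (⟨h1, h2, h3⟩ | ⟨h1, h2, h3⟩)
      · exact Or.inl ⟨h1, by omega, by omega⟩
      · exact Or.inr ⟨h1, by omega, by omega⟩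
    · rintro (⟨h1, h2, h3⟩ | ⟨h1, h2, h3⟩)
      · exact Or.inl ⟨h1, by omega, by omega⟩
      · exact Or.inr ⟨h1, by omega, by omega⟩
  · simp only [if_true]
    constructor
    · rintro (⟨h1, h2, h3⟩ | ⟨h1, h2, h3⟩)
      · exact Or.inl ⟨h1, by omega, by omega⟩
      · exact Or.inr ⟨h1, by omega, by omega⟩
    · rintro (⟨h1, h2, h3⟩ | ⟨h1, h2, h3⟩)
      · exact Or.inl ⟨h1, by omega, by omega⟩
      · exact Or.inr ⟨h1, by omega, by omega⟩

theorem p_TRD : S_TRD := by
  intro β n v b
  unfold dis pzc pz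
  rw [TRC.sum_powerset, TRC.sum_powerset, TRC.inn_shift]
  have hs : ∀ (M : Finset V) (e : Edge), spin (shift v M) (TRC.eS v e).1 *
      spin (shift v M) (tip (TRC.eS v e)) = spin M e.1 * spin M (tip e) := by
    intro M e
    rw [TRC.tip_eS, TRC.spin_shift]
    congr 1
    exact TRC.spin_shift v e.1 M
  congr 1
  · apply sum_congr rfl
    intro M _
    rw [sum_image (fun a _ b _ h => TRC.eS_inj v h)]
    congr 2
    apply sum_congr rfl
    intro e _
    rw [hs]
    congr 1
    simp only [TRD.cut_shift]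
  · apply sum_congr rfl
    intro M _
    rw [sum_image (fun a _ b _ h => TRC.eS_inj v h)]
    congr 2
    apply sum_congr rfl
    intro e _
    rw [hs]

end XorIsing
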