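import Pool.Agent.Work.MP_bda6fa_nest.Interface
set_option autoImplicit false

/-! XDC: the minus set of the product of two independent configurations. -/

namespace XorIsing
open scoped Classical
open Finset

noncomputable section

theorem xdc_pt (M M' : Finset V) (e : Edge) :
    spin M e.1 * spin M (tip e) + spin M' e.1 * spin M' (tip e) =
      2 * (if (e.1 ∈ symmDiff M M' ↔ tip e ∈ symmDiff M M') then spin M e.1 * spin M (tip e) else 0) := by
  unfold spin
  simp only [mem_symmDiff]
  by_cases h1 : e.1 ∈ M <;> by_cases h2 : tip e ∈ M <;> by_cases h3 : e.1 ∈ M' <;>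
    by_cases h4 : tip e ∈ M' <;> simp [h1, h2, h3, h4] <;> norm_num

/-- the edges of F on which X agrees -/
def agr (F : Finset Edge) (X : Finset V) : Finset Edge := F.filter (fun e => (e.1 ∈ X ↔ tip e ∈ X))

theorem xdc_exp (β : ℝ) (M M' : Finset V) (F : Finset Edge) :
    Real.exp (β * ∑ e ∈ F, spin M e.1 * spin M (tip e)) *
      Real.exp (β * ∑ e ∈ F, spin M' e.1 * spin M' (tip e)) =
    Real.exp (2 * β * ∑ e ∈ agr F (symmDiff M M'), spin M e.1 * spin M (tip e)) := by
  rw [← Real.exp_add, ← mul_add, ← sum_add_distrib, agr, sum_filter]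
  congr 1
  rw [sum_congr rfl (fun e _ => xdc_pt M M' e), ← mul_sum]
  ring

theorem sd_sd (M X : Finset V) : symmDiff M (symmDiff M X) = X := by
  ext v
  simp only [mem_symmDiff]
  tauto

theorem sub_agr {D : Finset V} {F ω : Finset Edge} {X : Finset V} (hX : X ⊆ D) (hω : ω ⊆ F) :
    ω ⊆ agr F X ↔ X ∈ compat D ω := by
  rw [mem_compat]
  constructor
  · intro h
    refine ⟨hX, fun e he => ?_⟩
    have h1 := h he
    rw [agr, mem_filter] at h1
    exact h1.2
  · intro h e he
    rw [agr, mem_filter]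
    exact ⟨hω he, h.2 e he⟩

theorem p_XDC (h : S_HT) : S_XDC := by
  intro β D F f
  have h1 : ∀ M ∈ D.powerset, ∑ M' ∈ D.powerset, Real.exp (β * ∑ e ∈ F, spin M e.1 * spin M (tip e)) *
      Real.exp (β * ∑ e ∈ F, spin M' e.1 * spin M' (tip e)) * f (symmDiff M M') =
      ∑ X ∈ D.powerset, Real.exp (2 * β * ∑ e ∈ agr F X, spin M e.1 * spin M (tip e)) * f X := by
    intro M hM
    refine sum_nbij' (fun M' => symmDiff M M') (fun X => symmDiff M X) ?_ ?_ ?_ ?_ ?_
    · intro M' hM'
      exact mem_powerset.2 (symmDiff_sub (mem_powerset.1 hM) (mem_powerset.1 hM'))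
    · intro X hX
      exact mem_powerset.2 (symmDiff_sub (mem_powerset.1 hM) (mem_powerset.1 hX))
    · intro M' _
      exact sd_sd M M'
    · intro X _
      exact sd_sd M X
    · intro M' _
      rw [xdc_exp]
  rw [sum_congr rfl h1, sum_comm]
  have h2 : ∀ X ∈ D.powerset, ∑ M ∈ D.powerset,
      Real.exp (2 * β * ∑ e ∈ agr F X, spin M e.1 * spin M (tip e)) * f X =
      2 ^ D.card * ∑ ω ∈ F.powerset, if X ∈ compat D ω then g β D ω * f X else 0 := by
    intro X hX
    rw [← sum_mul]
    have e1 : ∑ M ∈ D.powerset, Real.exp (2 * β * ∑ e ∈ agr F X, spin M e.1 * spin M (tip e)) =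
        pz (2 * β) D (agr F X) := rfl
    rw [e1, h β D (agr F X), mul_assoc, sum_mul]
    congr 1
    rw [← sum_filter]
    refine sum_congr ?_ fun _ _ => rfl
    ext ω
    rw [mem_powerset, mem_filter, mem_powerset]
    constructor
    · intro hω
      have h3 : ω ⊆ F := hω.trans (filter_subset _ _)
      exact ⟨h3, (sub_agr (mem_powerset.1 hX) h3).1 hω⟩
    · rintro ⟨h3, h4⟩
      exact (sub_agr (mem_powerset.1 hX) h3).2 h4
  rw [sum_congr rfl h2, ← mul_sum, sum_comm]
  congr 1
  refine sum_congr rfl fun ω _ => ?_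
  rw [← sum_filter, mul_sum]
  refine sum_congr ?_ fun _ _ => rfl
  ext X
  rw [mem_filter, mem_powerset]
  constructor
  · intro h3
    exact h3.2
  · intro h3
    exact ⟨(mem_compat.1 h3).1, h3⟩

end

end XorIsing
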