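import Pool.Agent.Work.MP_bda6fa_nest.Interface
set_option autoImplicit false

/-! XP: the probability of an event of X. -/

namespace XorIsing
open scoped Classical
open Finset

theorem p_XP (hX : S_XDC) (hS : S_SQ) : S_XP := by
  intro β D ev hβ
  have h := hX β D (near D) (fun X => if ev X then 1 else 0)
  have h1 : ZZ β D ^ 2 = 2 ^ D.card * DW β D (near D) := hS β D (near D)
  have h2 : ∑ M ∈ D.powerset, ∑ M' ∈ D.powerset, wt β D M * wt β D M' * (if ev (symmDiff M M') then 1 else 0) =
      2 ^ D.card * ∑ ω ∈ (near D).powerset, g β D ω * ∑ X ∈ compat D ω, (if ev X then (1 : ℝ) else 0) := h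
  unfold xorP
  rw [h1, h2, mul_div_mul_left _ _ (by positivity)]
  congr 1
  refine sum_congr rfl fun ω _ => ?_
  congr 1
  rw [sum_boole]

end XorIsing
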