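import Pool.Agent.Work.MP_bda6fa_nest.Interface
set_option autoImplicit false

namespace XorIsing
open scoped Classical
open Finset

theorem FConn_mono {ω ω' : Finset Edge} (h : ω ⊆ ω') {u v : V} (hc : FConn ω u v) : FConn ω' u v := by
  induction hc with
  | refl => exact Relation.ReflTransGen.refl
  | @tail b c _ hbc ih =>
    obtain ⟨k, ⟨h1, h2⟩ | ⟨h1, h2⟩⟩ := hbc
    · exact ih.tail ⟨k, Or.inl ⟨h h1, h2⟩⟩
    · exact ih.tail ⟨k, Or.inr ⟨h h1, h2⟩⟩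

theorem FConn_inn {H : Finset V} {ω : Finset Edge} (h : ω ⊆ inn H) {u v : V} (hu : u ∈ H) (hc : FConn ω u v) : v ∈ H := by
  induction hc with
  | refl => exact hu
  | @tail b c _ hbc ih =>
    obtain ⟨k, ⟨h1, h2⟩ | ⟨h1, h2⟩⟩ := hbc
    · rw [h2]
      exact (mem_inn.1 (h h1)).2
    · exact (mem_inn.1 (h h1)).1

theorem p_SEP (h1 : S_ETA) (h2 : S_ETAC) (h3 : S_ETAB) : S_SEP := by
  intro D H ω ρ hD hH hω hE
  obtain ⟨η, hη, hev, hbox, hpar⟩ := h1 H ω ρ hω hE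
  obtain ⟨η', hη', hev', hpar', hconn⟩ := h2 η hev hpar
  have hne : ∃ e, e ∈ η' := by
    by_contra hno
    push Not at hno
    have h4 : η' = ∅ := Finset.eq_empty_of_forall_notMem hno
    rw [h4] at hpar'
    simp [Par] at hpar'
  obtain ⟨e, he⟩ := hne
  have heH := mem_inn.1 (hω (hη (hη' he)))
  set C : Finset V := H.filter (fun u => FConn ω e.1 u) with hC
  have hCm : ∀ u, u ∈ C ↔ FConn ω e.1 u := fun u => by
    rw [hC, mem_filter]
    exact ⟨fun h => h.2, fun h => ⟨FConn_inn hω heH.1 h, h⟩⟩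
  have hend : ∀ f ∈ η', f.1 ∈ C ∧ tip f ∈ C := by
    intro f hf
    have h5 : FConn ω e.1 f.1 := FConn_mono (fun x hx => hη (hη' hx)) (hconn e he f hf)
    exact ⟨(hCm _).2 h5, (hCm _).2 (h5.trans (FConn_edge (hη (hη' hf))))⟩
  refine ⟨C, mem_fclusters.2 ⟨e.1, heH.1, fun w hw => FConn_inn hω heH.1 hw, hCm⟩, ⟨e.1, (hend e he).1, (hbox e (hη' he)).1⟩, ?_⟩
  exact h3 D C η' ρ hD (fun u hu => hH (mem_filter.1 hu).1) hev' (fun f hf => hbox f (hη' hf)) hend hpar'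

end XorIsing
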