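import Pool.Agent.Work.MP_bda6fa_nest.BL
import Pool.Agent.Work.MP_bda6fa_nest.SEP
import Pool.Agent.Work.MP_bda6fa_nest.MONO
set_option autoImplicit false

/-! Loops surrounding a whole box and staying in a larger box. -/

namespace XorIsing
open scoped Classical
open Finset

/-- the number of loops surrounding all faces of A and surrounding only faces of B -/
noncomputable def nloopsIn (X A B : Finset V) : ℕ :=
  ((loops X).filter (fun L => (∀ y ∈ A, Surrounds L y) ∧ ∀ y, Surrounds L y → y ∈ B)).card

/-- the faces surrounded by a loop -/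
theorem inside_facts {D X : Finset V} (hD : CoConn D) (hXD : X ⊆ D) {L : Finset Edge} (hL : L ∈ loops X) :
    ∃ X' : Finset V, X' ⊆ D ∧ (∀ v, v ∈ X' ↔ Surrounds L v) ∧ contour X' = L ∧ loops X' = {L} := by
  refine ⟨D.filter (fun v => Surrounds L v), filter_subset _ _, ?_⟩
  set X' : Finset V := D.filter (fun v => Surrounds L v) with hX'
  have hm : ∀ v, v ∈ X' ↔ Surrounds L v := by
    intro v
    rw [hX', mem_filter]
    refine ⟨fun h => h.2, fun h => ⟨?_, h⟩⟩
    by_contra hv
    exact not_surrounds_out hD hXD hL hv h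
  have hcon : contour X' = L := by
    ext e
    rw [mem_contour, hm, hm]
    have := loop_step hL e
    tauto
  obtain ⟨e, he⟩ : ∃ e, e ∈ L := by
    obtain ⟨e, he, rfl⟩ := mem_image.1 hL
    exact ⟨e, (loop_self he).2⟩
  have hone : ∀ e ∈ L, loopOf X' e = L := by
    intro e he
    ext f
    rw [mem_loopOf, hcon]
    refine ⟨fun h => h.1, fun hf => ⟨hf, ?_⟩⟩
    have h1 : f ∈ loopOf X e := by rw [loop_eq hL he]; exact hf
    have h2 := (mem_loopOf.1 h1).2
    have key : ∀ g, Relation.ReflTransGen (LR X) e g → g ∈ L ∧ Relation.ReflTransGen (LR X') e g := by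
      intro g hg
      induction hg with
      | refl => exact ⟨he, Relation.ReflTransGen.refl⟩
      | @tail b d _ hbd ih =>
        have h3 : d ∈ L := loop_closed hL ih.1 hbd.1 hbd.2
        exact ⟨h3, ih.2.tail ⟨by rw [hcon]; exact h3, hbd.2⟩⟩
    exact (key f h2).2
  refine ⟨hm, hcon, ?_⟩
  ext M
  rw [loops, mem_image, mem_singleton, hcon]
  constructor
  · rintro ⟨f, hf, rfl⟩
    exact hone f hf
  · rintro rfl
    exact ⟨e, he, hone e he⟩

/-- a loop surrounding a cluster which separates y from the outside also surrounds y -/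
theorem loop_blocks (h : S_MONO) {D X C : Finset V} {ω : Finset Edge} {y : V} (hD : CoConn D) (hX : X ∈ compat D ω)
    (hC : C ∈ fclusters D ω) (hB : Blocks C D y) {L : Finset Edge} (hL : L ∈ loops X) {c : V} (hc : c ∈ C)
    (hLc : Surrounds L c) : Surrounds L y := by
  have hXD : X ⊆ D := (mem_compat.1 hX).1
  obtain ⟨hC1, hC2⟩ := BLh.cluster_conn hC
  have hall : ∀ v ∈ C, Surrounds L v := by
    rcases surr_const hC1 (fun a ha b hb => compat_conn hX (hC2 a ha b hb)) hL with h1 | h1
    · exact h1
    · exact absurd hLc (h1 c hc)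
  rcases hB with hy | hB
  · exact hall y hy
  by_contra hy
  obtain ⟨X', hX', hm, hcon, hloops⟩ := inside_facts hD hXD hL
  have hn : ∀ v, nloops X' v = 0 ↔ ¬ Surrounds L v := by
    intro v
    rw [nloops, hloops, card_eq_zero, filter_eq_empty_iff]
    simp
  obtain ⟨z, hz, hp⟩ := h D X' y hD hX'
  have key : ∀ z, Relation.ReflTransGen (fun a b => Adj a b ∧ nloops X' b ≤ nloops X' a) y z →
      Relation.ReflTransGen (fun a b => b ∉ C ∧ Adj a b) y z ∧ nloops X' z = 0 := by
    intro z hp
    induction hp with
    | refl => exact ⟨Relation.ReflTransGen.refl, (hn y).2 hy⟩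
    | @tail a b _ hab ih =>
      have h3 : nloops X' b = 0 := by have := hab.2; omega
      exact ⟨ih.1.tail ⟨fun hb => (hn b).1 h3 (hall b hb), hab.1⟩, h3⟩
  exact hz (hB z (key z hp).1)

/-- the faces surrounded by a loop are connected -/
theorem inside_conn {D X : Finset V} (hD : CoConn D) (hXD : X ⊆ D) {L : Finset Edge} (hL : L ∈ loops X) {c y : V}
    (hc : Surrounds L c) (hy : Surrounds L y) :
    Relation.ReflTransGen (fun a b => Surrounds L b ∧ Adj a b) c y := by
  obtain ⟨X', hX', hm, hcon, hloops⟩ := inside_facts hD hXD hL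
  have hin : ∀ z, Relation.ReflTransGen (MonoR X') c z → z ∈ X' := by
    intro z hz
    induction hz with
    | refl => exact (hm c).2 hc
    | tail _ hbc ih => exact hbc.1.1 ih
  obtain ⟨K, hKd⟩ : ∃ K : Finset V, K = X'.filter (fun z => Relation.ReflTransGen (MonoR X') c z) := ⟨_, rfl⟩
  have hKm : ∀ z, z ∈ K ↔ Relation.ReflTransGen (MonoR X') c z := by
    intro z
    rw [hKd, mem_filter]
    exact ⟨fun h => h.2, fun h => ⟨hin z h, h⟩⟩
  have hK : ∀ a b, MonoR X' a b → a ∈ K → b ∈ K := by
    intro a b hab ha
    rw [hKm] at ha ⊢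
    exact ha.tail hab
  obtain ⟨L', hL', hLK, -⟩ := mono_comp_surr hK ((hKm c).2 Relation.ReflTransGen.refl)
  have hLL : L' = L := by
    rw [hloops] at hL'
    exact mem_singleton.1 hL'
  rw [hLL] at hLK
  have hcK : contour K = contour X' := by
    apply Finset.Subset.antisymm
    · intro e he
      exact mono_comp_sub hK he
    · rw [hcon]
      exact hLK
  have hyK : y ∈ K := by
    have h1 := rp_contour K y
    rw [hcK, rp_contour X' y, ind, ind, if_pos ((hm y).2 hy)] at h1
    by_contra h2
    rw [if_neg h2] at h1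
    exact absurd h1 (by decide)
  have key : ∀ z, Relation.ReflTransGen (MonoR X') c z →
      Relation.ReflTransGen (fun a b => Surrounds L b ∧ Adj a b) c z := by
    intro z hz
    induction hz with
    | refl => exact Relation.ReflTransGen.refl
    | @tail a b hab hbc ih => exact ih.tail ⟨(hm b).1 (hin b (hab.tail hbc)), hbc.2⟩
  exact key y ((hKm y).1 hyK)

/-- from a face outside a box a straight path leads out of D -/
theorem box_out (N : ℕ) (D : Finset V) {y : V} (hy : y ∉ box N) :
    ∃ z, z ∉ D ∧ Relation.ReflTransGen (fun a b => b ∉ box N ∧ Adj a b) y z := by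
  have main : ∀ d : V, (∀ v : V, Adj v (v + d)) → d ≠ 0 → (∀ k : ℕ, y + k • d ∉ box N) →
      ∃ z, z ∉ D ∧ Relation.ReflTransGen (fun a b => b ∉ box N ∧ Adj a b) y z := by
    intro d hd hd0 hk
    have hpath : ∀ k : ℕ, Relation.ReflTransGen (fun a b => b ∉ box N ∧ Adj a b) y (y + k • d) := by
      intro k
      induction k with
      | zero => rw [zero_smul, add_zero]
      | succ k ih =>
        refine ih.tail ⟨hk (k + 1), ?_⟩
        have h1 := hd (y + k • d)
        rw [add_assoc, ← succ_nsmul] at h1
        exact h1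
    have hinj : Function.Injective (fun k : ℕ => y + k • d) := by
      intro k l hkl
      have h1 : (k : ℤ) • d = (l : ℤ) • d := by
        have h2 : k • d = l • d := add_left_cancel hkl
        rw [natCast_zsmul, natCast_zsmul]
        exact h2
      by_contra hne
      have h3 : ((k : ℤ) - l) • d = 0 := by rw [sub_smul, h1, sub_self]
      have h4 : (k : ℤ) - l ≠ 0 := by omega
      apply hd0
      have h5 := congrArg Prod.fst h3
      have h6 := congrArg Prod.snd h3
      simp only [Prod.smul_fst, Prod.smul_snd, Prod.fst_zero, Prod.snd_zero, smul_eq_mul, mul_eq_zero] at h5 h6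
      ext
      · rcases h5 with h | h
        · exact absurd h h4
        · exact h
      · rcases h6 with h | h
        · exact absurd h h4
        · exact h
    obtain ⟨k, hk2⟩ : ∃ k : ℕ, y + k • d ∉ D := by
      by_contra hcon
      push Not at hcon
      have h1 : Set.Infinite (Set.range (fun k : ℕ => y + k • d)) := Set.infinite_range_of_injective hinj
      exact h1 ((D.finite_toSet).subset (by rintro _ ⟨k, rfl⟩; exact hcon k))
    exact ⟨_, hk2, hpath k⟩
  rw [mem_box] at hy
  have d0 : dir 0 = (1, 0) := rfl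
  have d1 : dir 1 = (0, 1) := rfl
  by_cases h1 : (N : ℤ) < y.1
  · refine main (1, 0) (fun v => ⟨0, Or.inl (by rw [d0])⟩) (by simp) (fun k h => ?_)
    rw [mem_box] at h
    simp only [Prod.smul_mk, Prod.fst_add] at h
    simp only [nsmul_eq_mul, mul_one] at h
    have := h.1.2
    omega
  by_cases h2 : y.1 < -(N : ℤ)
  · refine main (-1, 0) (fun v => ⟨0, Or.inr (by rw [d0]; ext <;> simp)⟩) (by simp) (fun k h => ?_)
    rw [mem_box] at h
    simp only [Prod.smul_mk, Prod.fst_add] at h
    simp only [nsmul_eq_mul, mul_neg, mul_one] at h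
    have := h.1.1
    omega
  by_cases h3 : (N : ℤ) < y.2
  · refine main (0, 1) (fun v => ⟨1, Or.inl (by rw [d1])⟩) (by simp) (fun k h => ?_)
    rw [mem_box] at h
    simp only [Prod.smul_mk, Prod.snd_add] at h
    simp only [nsmul_eq_mul, mul_one] at h
    have := h.2.2
    omega
  by_cases h4 : y.2 < -(N : ℤ)
  · refine main (0, -1) (fun v => ⟨1, Or.inr (by rw [d1]; ext <;> simp)⟩) (by simp) (fun k h => ?_)
    rw [mem_box] at h
    simp only [Prod.smul_mk, Prod.snd_add] at h
    simp only [nsmul_eq_mul, mul_neg, mul_one] at h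
    have := h.2.1
    omega
  exact absurd ⟨⟨by omega, by omega⟩, by omega, by omega⟩ hy

/-- a loop surrounding a point blocked by a cluster C' in the box N, but not surrounding C', stays in the box N -/
theorem loop_in_box {D X C' : Finset V} {ω : Finset Edge} {N : ℕ} (hD : CoConn D) (hX : X ∈ compat D ω)
    (hC : C' ∈ fclusters D ω) (hCN : C' ⊆ box N) {L : Finset Edge} (hL : L ∈ loops X) {c c' : V}
    (hLc : Surrounds L c) (hc' : c' ∈ C') (hLc' : ¬ Surrounds L c') (hB : Blocks C' D c) {y : V} (hy : Surrounds L y) :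
    y ∈ box N := by
  have hXD : X ⊆ D := (mem_compat.1 hX).1
  obtain ⟨hC1, hC2⟩ := BLh.cluster_conn hC
  have hnone : ∀ v ∈ C', ¬ Surrounds L v := by
    rcases surr_const hC1 (fun a ha b hb => compat_conn hX (hC2 a ha b hb)) hL with h1 | h1
    · exact absurd (h1 c' hc') hLc'
    · exact h1
  rcases hB with hcC | hB
  · exact absurd hLc (hnone c hcC)
  by_contra hyN
  obtain ⟨z, hz, hp⟩ := box_out N D hyN
  apply hz
  apply hB z
  have p1 : Relation.ReflTransGen (fun a b => b ∉ C' ∧ Adj a b) c y := by
    have h1 := inside_conn hD hXD hL hLc hy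
    clear hy hyN hp
    induction h1 with
    | refl => exact Relation.ReflTransGen.refl
    | tail _ hab ih => exact ih.tail ⟨fun hb => hnone _ hb hab.1, hab.2⟩
  have p2 : Relation.ReflTransGen (fun a b => b ∉ C' ∧ Adj a b) y z := by
    clear hz
    induction hp with
    | refl => exact Relation.ReflTransGen.refl
    | tail _ hab ih => exact ih.tail ⟨fun hb => hab.1 (hCN hb), hab.2⟩
  exact p1.trans p2

/-- nested clusters, j groups of K clusters, in every group both signs occur: j loops surround all points of A and stay in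
the box N -/
theorem det3 (h0' : S_MONO) (h : S_BL) (D X A : Finset V) (ω : Finset Edge) (j K N : ℕ) (C : ℕ → Finset V) (hD : CoConn D)
    (hX : X ∈ compat D ω) (hC : ∀ i < j * K, C i ∈ fclusters D ω) (h0 : ∀ y ∈ A, Blocks (C 0) D y)
    (hn : ∀ i i', i < i' → i' < j * K → ∀ y ∈ C i, Blocks (C i') D y) (hCN : ∀ i < j * K, C i ⊆ box N)
    (hs : ∀ a < j, ∃ i < K, ∃ i' < K, C (a * K + i) ⊆ X ∧ ¬ C (a * K + i') ⊆ X) : j ≤ nloopsIn X A (box N) := by
  rcases Nat.eq_zero_or_pos j with rfl | hj
  · exact Nat.zero_le _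
  obtain ⟨i0, hi0, -⟩ := hs 0 hj
  have hK : 0 < K := by omega
  have hne : ∀ i < j * K, (C i).Nonempty := by
    intro i hi
    obtain ⟨v, -, -, h3⟩ := mem_fclusters.1 (hC i hi)
    exact ⟨v, (h3 v).2 Relation.ReflTransGen.refl⟩
  have hex : ∀ i, ∃ c : V, i < j * K → c ∈ C i := by
    intro i
    by_cases hi : i < j * K
    · obtain ⟨c, hc⟩ := hne i hi
      exact ⟨c, fun _ => hc⟩
    · exact ⟨(0, 0), fun h => absurd h hi⟩
  choose c hc using hex
  have hconst : ∀ i < j * K, ∀ x ∈ C i, nloops X x = nloops X (c i) := by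
    intro i hi x hx
    exact le_antisymm (h D X (C i) ω (c i) hD hX (hC i hi) (Or.inl (hc i hi)) x hx)
      (h D X (C i) ω x hD hX (hC i hi) (Or.inl hx) (c i) (hc i hi))
  have hmono : ∀ i, i + 1 < j * K → nloops X (c (i + 1)) ≤ nloops X (c i) := by
    intro i hi
    exact h D X (C (i + 1)) ω (c i) hD hX (hC _ hi) (hn i (i + 1) (by omega) hi (c i) (hc i (by omega))) (c (i + 1))
      (hc (i + 1) hi)
  have hanti : ∀ k m, m + k < j * K → nloops X (c (m + k)) ≤ nloops X (c m) := by
    intro k
    induction k with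
    | zero => intro m _; exact le_rfl
    | succ k ih =>
      intro m hm
      exact (hmono (m + k) (by omega)).trans (ih m (by omega))
  have hbd : ∀ a < j, a * K + K ≤ j * K := by
    intro a ha
    have h1 : (a + 1) * K ≤ j * K := Nat.mul_le_mul_right K ha
    rw [add_mul, one_mul] at h1
    exact h1
  have hdrop : ∀ a < j, nloops X (c (a * K + (K - 1))) + 1 ≤ nloops X (c (a * K)) := by
    intro a ha
    obtain ⟨i, hi, i', hi', h1, h2⟩ := hs a ha
    have hb := hbd a ha
    have hodd : Odd (nloops X (c (a * K + i))) :=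
      (nloops_odd X _).2 (h1 (hc _ (by omega)))
    obtain ⟨x, hx, hxX⟩ := Finset.not_subset.1 h2
    have heven : ¬ Odd (nloops X (c (a * K + i'))) := by
      rw [← hconst _ (by omega) x hx, nloops_odd]
      exact hxX
    have hne' : nloops X (c (a * K + i)) ≠ nloops X (c (a * K + i')) := by
      intro he
      rw [he] at hodd
      exact heven hodd
    have e1 := hanti i (a * K) (by omega)
    have e2 := hanti i' (a * K) (by omega)
    have e3 := hanti (K - 1 - i) (a * K + i) (by omega)
    have e4 := hanti (K - 1 - i') (a * K + i') (by omega)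
    have e5 : a * K + i + (K - 1 - i) = a * K + (K - 1) := by omega
    have e6 : a * K + i' + (K - 1 - i') = a * K + (K - 1) := by omega
    rw [e5] at e3
    rw [e6] at e4
    omega
  have hjK : 0 < j * K := Nat.mul_pos hj hK
  have main : ∀ k a, a + k + 1 = j → k + 1 + nloops X (c (j * K - 1)) ≤ nloops X (c (a * K)) := by
    intro k
    induction k with
    | zero =>
      intro a ha
      have h1 := hdrop a (by omega)
      have h2 : a * K + (K - 1) = j * K - 1 := by
        have h3 : a + 1 = j := by omega
        have h4 : (a + 1) * K = j * K := by rw [h3]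
        rw [add_mul, one_mul] at h4
        omega
      rw [h2] at h1
      omega
    | succ k ih =>
      intro a ha
      have h1 := ih (a + 1) (by omega)
      have h2 := hdrop a (by omega)
      have h3 : (a + 1) * K = a * K + (K - 1) + 1 := by
        rw [add_mul, one_mul]
        omega
      have hb := hbd (a + 1) (by omega)
      rw [h3] at h1 hb
      have h4 := hmono (a * K + (K - 1)) (by omega)
      omega
  have h1 := main (j - 1) 0 (by omega)
  rw [zero_mul] at h1
  have h2 : nloops X (c 0) ≤ nloopsIn X A (box N) + nloops X (c (j * K - 1)) := by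
    unfold nloops nloopsIn
    refine le_trans (card_le_card ?_) (card_union_le _ _)
    intro L hL
    rw [mem_filter] at hL
    rw [mem_union, mem_filter, mem_filter]
    by_cases h3 : Surrounds L (c (j * K - 1))
    · exact Or.inr ⟨hL.1, h3⟩
    · refine Or.inl ⟨hL.1, fun y hy => loop_blocks h0' hD hX (hC 0 hjK) (h0 y hy) hL.1 (hc 0 hjK) hL.2, fun y hy => ?_⟩
      have hlast : 0 < j * K - 1 := by
        by_contra h4
        have h5 : j * K - 1 = 0 := by omega
        rw [h5] at h3
        exact h3 hL.2
      exact loop_in_box hD hX (hC (j * K - 1) (by omega)) (hCN (j * K - 1) (by omega)) hL.1 hL.2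
        (hc (j * K - 1) (by omega)) h3 (hn 0 (j * K - 1) hlast (by omega) (c 0) (hc 0 hjK)) hy
  omega

end XorIsing
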