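import Pool.Agent.Work.MP_bda6fa_nest.FIN3
set_option autoImplicit false

/-! Quantitative form of the nesting theorem: no hypothesis on β. -/

namespace XorIsing
open scoped Classical
open Finset Filter Topology

theorem card_box (n : ℕ) : ((box n).card : ℝ) = (2 * (n : ℝ) + 1) ^ 2 := by
  have h : (box n).card = (2 * n + 1) * (2 * n + 1) := by
    unfold box
    rw [card_product, Int.card_Icc]
    have : ((n : ℤ) + 1 - -(n : ℤ)).toNat = 2 * n + 1 := by omega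
    rw [this]
  rw [h]
  push_cast
  ring

theorem block_boundQ (h1 : S_DISF) (h2 : S_DISM) (h3 : S_CONN) (h4 : S_MARK) (h5 : S_CLH) (h6 : S_SEP) (h7 : S_TRC)
    (h8 : S_TRD) {β : ℝ} (hβ : 0 ≤ β) (ρ m k : ℕ) (D : Finset V) (hD : CoConn D) (hR : box (ρ + 1 + m + k) ⊆ D) :
    dP β D (near D) (fun ω => ¬ Good D ρ (ρ + 1 + m + k) ω) ≤
      (2 * (ρ : ℝ) + 3) ^ 2 * (dis β (box m) ((0, 0), true) + dis β (box m) ((0, 0), false)) +
        (2 * ((ρ : ℝ) + 1 + m) + 1) ^ 2 * corr β (box k) {((0, 0) : V)} ^ 2 := by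
  obtain ⟨T, hT⟩ : ∃ T : Finset (V × Bool), T = box (ρ + 1) ×ˢ (univ : Finset Bool) := ⟨_, rfl⟩
  have hm : ∑ t ∈ T, dis β (box m) (((0, 0) : V), t.2) =
      (2 * (ρ : ℝ) + 3) ^ 2 * (dis β (box m) ((0, 0), true) + dis β (box m) ((0, 0), false)) := by
    rw [hT, sum_product]
    simp only [Fintype.sum_bool, sum_const, nsmul_eq_mul]
    rw [card_box]
    push_cast
    ring
  obtain ⟨R', hR'⟩ : ∃ R' : ℕ, R' = (ρ + 1) + m := ⟨_, rfl⟩
  have hk : ((box R').card : ℝ) * corr β (box k) {((0, 0) : V)} ^ 2 =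
      (2 * ((ρ : ℝ) + 1 + m) + 1) ^ 2 * corr β (box k) {((0, 0) : V)} ^ 2 := by
    rw [card_box, hR']
    push_cast
    ring
  rw [← hm, ← hk, ← hR']
  rw [← hR'] at hR
  have hev : dP β D (near D) (fun ω => ¬ Good D ρ (R' + k) ω) ≤
      dP β D (near D) (fun ω => (∃ x ∈ box R', ∃ w, w ∉ box (R' + k) ∧ FConn ω x w) ∨
        (box R' ⊆ Hof D (box (R' + k)) ω ∧ (fun H ω' => ∃ t ∈ T, Ev H t ω') (Hof D (box (R' + k)) ω)
          (ω ∩ inn (Hof D (box (R' + k)) ω)))) := by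
    apply dP_mono hβ
    intro ω hω hbad
    by_contra hno
    push Not at hno
    obtain ⟨hno1, hno2⟩ := hno
    apply hbad
    have hsub : box R' ⊆ Hof D (box (R' + k)) ω := by
      intro x hx
      rw [Hof, mem_filter]
      refine ⟨hR (box_mono (by omega) hx), fun w hw => ?_⟩
      by_contra hw2
      exact hno1 x hx w hw2 hw
    have h9 := hno2 hsub
    obtain ⟨C, hC, hC1, hC2⟩ := h6 D (Hof D (box (R' + k)) ω) (ω ∩ inn (Hof D (box (R' + k)) ω)) ρ hD
      (filter_subset _ _) inter_subset_right (fun t ht hE => h9 t (by rw [hT, mem_product]; exact ⟨ht, mem_univ _⟩) hE)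
    obtain ⟨hC3, hC4⟩ := h5 D (box (R' + k)) C ω hR hω hC
    exact ⟨C, hC3, hC1, hC4, hC2⟩
  refine hev.trans ((dP_or hβ _ _ _ _).trans ?_)
  have hA : dP β D (near D) (fun ω => ∃ x ∈ box R', ∃ w, w ∉ box (R' + k) ∧ FConn ω x w) ≤
      ((box R').card : ℝ) * corr β (box k) {((0, 0) : V)} ^ 2 := by
    refine (dP_ex hβ D (near D) (box R') (fun x ω => ∃ w, w ∉ box (R' + k) ∧ FConn ω x w)).trans ?_
    refine le_trans (sum_le_card_nsmul (box R') _ (corr β (box k) {((0, 0) : V)} ^ 2) ?_) ?_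
    · intro x hx
      have h10 : shift x (box k) ⊆ box (R' + k) := shift_box hx
      have h11 := h3 β D (shift x (box k)) x hβ (h10.trans hR) (by rw [mem_shift, sub_self, mem_box]; simp)
      rw [h7] at h11
      refine le_trans (dP_mono hβ _ _ fun ω _ => ?_) h11
      rintro ⟨w, hw, hxw⟩
      exact ⟨w, fun h => hw (h10 h), hxw⟩
    · rw [nsmul_eq_mul]
  have hB : dP β D (near D) (fun ω => box R' ⊆ Hof D (box (R' + k)) ω ∧
      (fun H ω' => ∃ t ∈ T, Ev H t ω') (Hof D (box (R' + k)) ω) (ω ∩ inn (Hof D (box (R' + k)) ω))) ≤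
      ∑ t ∈ T, dis β (box m) (((0, 0) : V), t.2) := by
    refine h4 β D (box (R' + k)) (box R') (fun H ω' => ∃ t ∈ T, Ev H t ω') _ hβ hR (box_mono (by omega)) ?_
    intro H hH1 _
    refine (dP_ex hβ H (inn H) T (fun t ω' => Ev H t ω')).trans (sum_le_sum ?_)
    intro t ht
    have h12 : dP β H (inn H) (Ev H t) = dis β H t := h1 β H (inn H) t hβ
    have ht1 : t.1 ∈ box (ρ + 1) := by rw [hT] at ht; exact (mem_product.1 ht).1
    have h13 := h2 β H (shift t.1 (box m)) t hβ ((shift_box ht1).trans (hR' ▸ hH1))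
    have h14 := h8 β m t.1 t.2
    show dP β H (inn H) (Ev H t) ≤ _
    rw [h12]
    refine h13.trans (le_of_eq ?_)
    exact h14
  linarith

theorem chain_boundQ (h1 : S_DISF) (h2 : S_DISM) (h3 : S_CONN) (h4 : S_MARK) (h5 : S_CLH) (h6 : S_SEP) (h7 : S_TRC)
    (h8 : S_TRD) {β : ℝ} (hβ : 0 ≤ β) (r a b : ℕ → ℕ) (hr : ∀ i, r (i + 1) = r i + 1 + a i + b i) (J : ℕ)
    (D : Finset V) (hD : CoConn D) (hN : box (r J) ⊆ D) :
    dP β D (near D) (fun ω => ¬ ∃ C : ℕ → Finset V, (∀ i < J, C i ∈ fclusters D ω) ∧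
        (∀ i < J, ∀ i' < J, C i = C i' → i = i') ∧ (∀ y ∈ box (r 0), Blocks (C 0) D y) ∧
        (∀ i i', i < i' → i' < J → ∀ y ∈ C i, Blocks (C i') D y) ∧ ∀ i < J, C i ⊆ box (r J)) ≤
      ∑ i ∈ range J, ((2 * (r i : ℝ) + 3) ^ 2 * (dis β (box (a i)) ((0, 0), true) + dis β (box (a i)) ((0, 0), false)) +
        (2 * ((r i : ℝ) + 1 + a i) + 1) ^ 2 * corr β (box (b i)) {((0, 0) : V)} ^ 2) := by
  have hmono : Monotone r := monotone_nat_of_le_succ fun i => by rw [hr]; omega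
  have hsub : dP β D (near D) (fun ω => ¬ ∃ C : ℕ → Finset V, (∀ i < J, C i ∈ fclusters D ω) ∧
        (∀ i < J, ∀ i' < J, C i = C i' → i = i') ∧ (∀ y ∈ box (r 0), Blocks (C 0) D y) ∧
        (∀ i i', i < i' → i' < J → ∀ y ∈ C i, Blocks (C i') D y) ∧ ∀ i < J, C i ⊆ box (r J)) ≤
      dP β D (near D) (fun ω => ∃ i ∈ range J, ¬ Good D (r i) (r (i + 1)) ω) := by
    apply dP_mono hβ
    intro ω _ hbad
    by_contra hno
    push Not at hno
    apply hbad
    have hex : ∀ i, ∃ C : Finset V, (i < J → (C ∈ fclusters D ω ∧ (∃ c ∈ C, c ∉ box (r i)) ∧ C ⊆ box (r (i + 1)) ∧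
        ∀ y ∈ box (r i), Blocks C D y)) ∧ (¬ i < J → C = box (r 0)) := by
      intro i
      by_cases hi : i < J
      · obtain ⟨C, hC1, hC2, hC3, hC4⟩ := hno i (mem_range.2 hi)
        exact ⟨C, fun _ => ⟨hC1, hC2, hC3, hC4⟩, fun h => absurd hi h⟩
      · exact ⟨box (r 0), fun h => absurd h hi, fun _ => rfl⟩
    choose C hC hC' using hex
    have hlt : ∀ i i', i < i' → i' < J → C i ≠ C i' := by
      intro i i' h9 h10 h11
      obtain ⟨c, hc1, hc2⟩ := (hC i' h10).2.1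
      rw [← h11] at hc1
      exact hc2 (box_mono (hmono (by omega : i + 1 ≤ i')) ((hC i (by omega)).2.2.1 hc1))
    refine ⟨C, fun i hi => (hC i hi).1, ?_, ?_, ?_, ?_⟩
    · intro i hi i' hi' h9
      rcases lt_trichotomy i i' with h | h | h
      · exact absurd h9 (hlt i i' h hi')
      · exact h
      · exact absurd h9.symm (hlt i' i h hi)
    · intro y hy
      by_cases hJ : 0 < J
      · exact (hC 0 hJ).2.2.2 y hy
      · rw [hC' 0 hJ]
        exact Or.inl hy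
    · intro i i' h9 h10 y hy
      exact (hC i' h10).2.2.2 y (box_mono (hmono (by omega : i + 1 ≤ i')) ((hC i (by omega)).2.2.1 hy))
    · intro i hi y hy
      exact box_mono (hmono (by omega : i + 1 ≤ J)) ((hC i hi).2.2.1 hy)
  refine hsub.trans ((dP_ex hβ D (near D) (range J) (fun i ω => ¬ Good D (r i) (r (i + 1)) ω)).trans ?_)
  refine sum_le_sum fun i hi => ?_
  have hi' := mem_range.1 hi
  have h9 := block_boundQ h1 h2 h3 h4 h5 h6 h7 h8 hβ (r i) (a i) (b i) D hD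
    (by rw [← hr]; exact (box_mono (hmono (by omega))).trans hN)
  rw [← hr] at h9
  exact h9

theorem fin_mainQ (h1 : S_DISF) (h2 : S_DISM) (h3 : S_CONN) (h4 : S_MARK) (h5 : S_CLH) (h6 : S_SEP) (h7 : S_TRC)
    (h8 : S_TRD) (h9 : S_XP) (h0 : S_MONO) (h10 : S_BL) (h11 : S_SIGN) {β : ℝ} (hβ : 0 ≤ β)
    (r a b : ℕ → ℕ) (hr : ∀ i, r (i + 1) = r i + 1 + a i + b i) (j K : ℕ) (D : Finset V) (hD : CoConn D)
    (hN : box (r (j * K)) ⊆ D) :
    1 - 2 * (j : ℝ) * (1 / 2) ^ K - ∑ i ∈ range (j * K), ((2 * (r i : ℝ) + 3) ^ 2 *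
        (dis β (box (a i)) ((0, 0), true) + dis β (box (a i)) ((0, 0), false)) +
        (2 * ((r i : ℝ) + 1 + a i) + 1) ^ 2 * corr β (box (b i)) {((0, 0) : V)} ^ 2) ≤
      xorP β D (fun X => j ≤ nloopsIn X (box (r 0)) (box (r (j * K)))) := by
  have hN' := chain_boundQ h1 h2 h3 h4 h5 h6 h7 h8 hβ r a b hr (j * K) D hD hN
  set S : ℝ := ∑ i ∈ range (j * K), ((2 * (r i : ℝ) + 3) ^ 2 *
        (dis β (box (a i)) ((0, 0), true) + dis β (box (a i)) ((0, 0), false)) +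
        (2 * ((r i : ℝ) + 1 + a i) + 1) ^ 2 * corr β (box (b i)) {((0, 0) : V)} ^ 2) with hS
  set good : Finset Edge → Prop := fun ω => ∃ C : ℕ → Finset V, (∀ i < j * K, C i ∈ fclusters D ω) ∧
      (∀ i < j * K, ∀ i' < j * K, C i = C i' → i = i') ∧ (∀ y ∈ box (r 0), Blocks (C 0) D y) ∧
      (∀ i i', i < i' → i' < j * K → ∀ y ∈ C i, Blocks (C i') D y) ∧ ∀ i < j * K, C i ⊆ box (r (j * K)) with hgood
  have h12 : dP β D (near D) (fun ω => ¬ good ω) ≤ S := hN'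
  have hbad0 : 0 ≤ dP β D (near D) (fun ω => ¬ good ω) := dP_nonneg hβ _ _ _
  rw [dP_compl hβ] at h12 hbad0
  have hgood0 := dP_nonneg hβ D (near D) good
  set c : ℝ := 1 - 2 * (j : ℝ) * (1 / 2) ^ K with hcdef
  have hc1 : c ≤ 1 := by
    have : 0 ≤ 2 * (j : ℝ) * (1 / 2) ^ K := by positivity
    linarith
  have h13 : c * dP β D (near D) good ≤ xorP β D (fun X => j ≤ nloopsIn X (box (r 0)) (box (r (j * K)))) := by
    rw [h9 β D _ hβ]
    unfold dP
    rw [← mul_div_assoc]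
    refine div_le_div_of_nonneg_right ?_ (DW_pos hβ _ _).le
    rw [mul_sum]
    refine sum_le_sum fun ω _ => ?_
    by_cases hg : good ω
    · rw [if_pos hg, mul_one]
      obtain ⟨C, hC1, hC2, hC3, hC4, hC5⟩ := hg
      have h14 := h11 D ω j K C hC1 hC2
      unfold dw
      have h15 : c * (g β D ω * 2 ^ (fclusters D ω).card) = g β D ω *
          ((1 - (j : ℝ) * 2 * (1 / 2) ^ K) * 2 ^ (fclusters D ω).card) := by rw [hcdef]; ring
      rw [h15]
      refine mul_le_mul_of_nonneg_left (h14.trans ?_) (g_nonneg hβ D ω)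
      exact count_le D ω _ _ (fun X hX1 hX2 => det3 h0 h10 D X (box (r 0)) ω j K (r (j * K)) C hD hX1 hC1 hC3 hC4 hC5
        hX2)
    · rw [if_neg hg, mul_zero, mul_zero]
      have := g_nonneg hβ D ω
      positivity
  rcases le_or_gt 0 c with h0c | h0c
  · nlinarith
  · have hx : 0 ≤ xorP β D (fun X => j ≤ nloopsIn X (box (r 0)) (box (r (j * K)))) := by
      rw [h9 β D _ hβ]
      refine div_nonneg (sum_nonneg fun ω _ => mul_nonneg (g_nonneg hβ D ω) (by positivity)) (DW_pos hβ _ _).le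
    linarith

end XorIsing
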