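import Pool.Agent.Work.MP_bda6fa_nest.Interface
set_option autoImplicit false

/-! Block BL: a cluster which separates `y` from the outside is surrounded by at most as many loops as `y`. -/

namespace XorIsing
open scoped Classical
open Finset

namespace BLh

theorem cluster_conn {D : Finset V} {ω : Finset Edge} {C : Finset V} (hC : C ∈ fclusters D ω) :
    Conn C ∧ ∀ u ∈ C, ∀ v ∈ C, FConn ω u v := by
  rw [fclusters, mem_image] at hC
  obtain ⟨v, hv, rfl⟩ := hC
  rw [mem_filter] at hv
  have h1 : ∀ u ∈ D.filter (fun u => FConn ω v u), ∀ w ∈ D.filter (fun u => FConn ω v u), FConn ω u w := by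
    intro u hu w hw
    exact (FConn_symm (mem_filter.1 hu).2).trans (mem_filter.1 hw).2
  refine ⟨fun u hu w hw => ?_, h1⟩
  have h2 : ∀ w, FConn ω u w → Relation.ReflTransGen
      (fun x y => y ∈ D.filter (fun u => FConn ω v u) ∧ Adj x y) u w := by
    intro w hw
    induction hw with
    | refl => exact Relation.ReflTransGen.refl
    | @tail b c hab hbc ih =>
      refine ih.tail ⟨?_, ?_⟩
      · have h3 : FConn ω v c := (mem_filter.1 hu).2.trans (hab.tail hbc)
        exact mem_filter.2 ⟨hv.2 c h3, h3⟩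
      · obtain ⟨k, hk | hk⟩ := hbc
        · exact ⟨k, Or.inl hk.2⟩
        · exact ⟨k, Or.inr hk.2⟩
  exact h2 w (h1 u hu w hw)

theorem nloops_const {D X : Finset V} {ω : Finset Edge} {C : Finset V} (hX : X ∈ compat D ω)
    (hC : C ∈ fclusters D ω) {u v : V} (hu : u ∈ C) (hv : v ∈ C) : nloops X u = nloops X v := by
  obtain ⟨h1, h2⟩ := cluster_conn hC
  unfold nloops
  congr 1
  refine filter_congr fun L hL => ?_
  rcases surr_const h1 (fun a ha b hb => compat_conn hX (h2 a ha b hb)) hL with h | h
  · exact ⟨fun _ => h v hv, fun _ => h u hu⟩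
  · exact ⟨fun h' => absurd h' (h u hu), fun h' => absurd h' (h v hv)⟩

end BLh

theorem p_BL (h : S_MONO) : S_BL := by
  intro D X C ω y hD hX hC hB c hc
  have hXD : X ⊆ D := (mem_compat.1 hX).1
  rcases hB with hy | hB
  · exact (BLh.nloops_const hX hC hc hy).le
  · obtain ⟨z, hz, hp⟩ := h D X y hD hXD
    have key : ∀ z, Relation.ReflTransGen (fun a b => Adj a b ∧ nloops X b ≤ nloops X a) y z →
        (∃ b ∈ C, nloops X b ≤ nloops X y) ∨
          (Relation.ReflTransGen (fun a b => b ∉ C ∧ Adj a b) y z ∧ nloops X z ≤ nloops X y) := by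
      intro z hp
      induction hp with
      | refl => exact Or.inr ⟨Relation.ReflTransGen.refl, le_rfl⟩
      | @tail a b _ hab ih =>
        rcases ih with ih | ⟨ih1, ih2⟩
        · exact Or.inl ih
        · by_cases hb : b ∈ C
          · exact Or.inl ⟨b, hb, hab.2.trans ih2⟩
          · exact Or.inr ⟨ih1.tail ⟨hb, hab.1⟩, hab.2.trans ih2⟩
    rcases key z hp with ⟨b, hb, hb2⟩ | ⟨h1, -⟩
    · exact (BLh.nloops_const hX hC hc hb).le.trans hb2
    · exact absurd (hB z h1) hz

end XorIsing
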