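import Pool.Agent.Work.MP_bda6fa_nest.Interface
set_option autoImplicit false

/-! Block DET: the number of loops is at least the number of groups. -/

namespace XorIsing
open scoped Classical
open Finset

theorem p_DET (h : S_BL) : S_DET := by
  intro D X ω j K C hD hX hC h0 hn hs
  rcases Nat.eq_zero_or_pos j with rfl | hj
  · exact Nat.zero_le _
  obtain ⟨i0, hi0, -⟩ := hs 0 hj
  have hK : 0 < K := by omega
  have hne : ∀ i < j * K, (C i).Nonempty := by
    intro i hi
    obtain ⟨v, -, -, h3⟩ := mem_fclusters.1 (hC i hi)
    exact ⟨v, (h3 v).2 Relation.ReflTransGen.refl⟩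
  have hex : ∀ i, ∃ c : V, i < j * K → c ∈ C i := by
    intro i
    by_cases hi : i < j * K
    · obtain ⟨c, hc⟩ := hne i hi
      exact ⟨c, fun _ => hc⟩
    · exact ⟨(0, 0), fun h => absurd h hi⟩
  choose c hc using hex
  have hconst : ∀ i < j * K, ∀ x ∈ C i, nloops X x = nloops X (c i) := by
    intro i hi x hx
    exact le_antisymm (h D X (C i) ω (c i) hD hX (hC i hi) (Or.inl (hc i hi)) x hx)
      (h D X (C i) ω x hD hX (hC i hi) (Or.inl hx) (c i) (hc i hi))
  have hmono : ∀ i, i + 1 < j * K → nloops X (c (i + 1)) ≤ nloops X (c i) := by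
    intro i hi
    exact h D X (C (i + 1)) ω (c i) hD hX (hC _ hi) (hn i hi (c i) (hc i (by omega))) (c (i + 1))
      (hc (i + 1) hi)
  have hanti : ∀ k m, m + k < j * K → nloops X (c (m + k)) ≤ nloops X (c m) := by
    intro k
    induction k with
    | zero => intro m _; exact le_rfl
    | succ k ih =>
      intro m hm
      exact (hmono (m + k) (by omega)).trans (ih m (by omega))
  have hbd : ∀ a < j, a * K + K ≤ j * K := by
    intro a ha
    have h1 : (a + 1) * K ≤ j * K := Nat.mul_le_mul_right K ha
    rw [add_mul, one_mul] at h1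
    exact h1
  have hdrop : ∀ a < j, nloops X (c (a * K + (K - 1))) + 1 ≤ nloops X (c (a * K)) := by
    intro a ha
    obtain ⟨i, hi, i', hi', h1, h2⟩ := hs a ha
    have hb := hbd a ha
    have hodd : Odd (nloops X (c (a * K + i))) :=
      (nloops_odd X _).2 (h1 (hc _ (by omega)))
    obtain ⟨x, hx, hxX⟩ := Finset.not_subset.1 h2
    have heven : ¬ Odd (nloops X (c (a * K + i'))) := by
      rw [← hconst _ (by omega) x hx, nloops_odd]
      exact hxX
    have hne' : nloops X (c (a * K + i)) ≠ nloops X (c (a * K + i')) := by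
      intro he
      rw [he] at hodd
      exact heven hodd
    have e1 := hanti i (a * K) (by omega)
    have e2 := hanti i' (a * K) (by omega)
    have e3 := hanti (K - 1 - i) (a * K + i) (by omega)
    have e4 := hanti (K - 1 - i') (a * K + i') (by omega)
    have e5 : a * K + i + (K - 1 - i) = a * K + (K - 1) := by omega
    have e6 : a * K + i' + (K - 1 - i') = a * K + (K - 1) := by omega
    rw [e5] at e3
    rw [e6] at e4
    omega
  have main : ∀ k a, a + k + 1 = j → k + 1 ≤ nloops X (c (a * K)) := by
    intro k
    induction k with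
    | zero =>
      intro a ha
      have := hdrop a (by omega)
      omega
    | succ k ih =>
      intro a ha
      have h1 := ih (a + 1) (by omega)
      have h2 := hdrop a (by omega)
      have h3 : (a + 1) * K = a * K + (K - 1) + 1 := by
        rw [add_mul, one_mul]
        omega
      have hb := hbd (a + 1) (by omega)
      rw [h3] at h1 hb
      have h4 := hmono (a * K + (K - 1)) (by omega)
      omega
  have h1 := main (j - 1) 0 (by omega)
  rw [zero_mul] at h1
  have hjK : 0 < j * K := Nat.mul_pos hj hK
  have h2 := h D X (C 0) ω (0, 0) hD hX (hC 0 hjK) (h0 (0, 0) (by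
    rw [mem_box]
    simp)) (c 0) (hc 0 hjK)
  omega

end XorIsing
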