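import Pool.Agent.Work.MP_bda6fa_XOR.PartB
import Pool.Agent.Work.MP_bda6fa_XOR.Topo
set_option autoImplicit false

/-! XOR-Ising on the triangular lattice: nested loops around a point. Objects of the interface. -/

namespace XorIsing
open scoped Classical
open Finset

noncomputable section

/-- the box |i| ≤ n, |j| ≤ n -/
def box (n : ℕ) : Finset V := Finset.Icc (-(n : ℤ)) n ×ˢ Finset.Icc (-(n : ℤ)) n

/-- the edges with both endpoints in H -/
def inn (H : Finset V) : Finset Edge := (near H).filter (fun e => e.1 ∈ H ∧ tip e ∈ H)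

/-- the edge e is crossed by the horizontal ray from the centre of the triangle t in direction e₁ -/
def cut (t : V × Bool) (e : Edge) : Prop :=
  (e.2 = 1 ∧ e.1.2 = t.1.2 ∧ t.1.1 + 1 ≤ e.1.1) ∨
    (e.2 = 2 ∧ e.1.2 = t.1.2 + 1 ∧ (if t.2 then t.1.1 else t.1.1 + 1) ≤ e.1.1)

/-- Ising partition function in D (all spins outside D are +1), with the edges of F -/
def pz (β : ℝ) (D : Finset V) (F : Finset Edge) : ℝ :=
  ∑ M ∈ D.powerset, Real.exp (β * ∑ e ∈ F, spin M e.1 * spin M (tip e))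

/-- the same, the sign of the interaction being reversed on the edges crossed by the ray from t -/
def pzc (β : ℝ) (D : Finset V) (F : Finset Edge) (t : V × Bool) : ℝ :=
  ∑ M ∈ D.powerset, Real.exp (β * ∑ e ∈ F, (if cut t e then -1 else 1) * (spin M e.1 * spin M (tip e)))

/-- disorder correlation: free Ising model on H, ratio of the partition functions with and without reversed signs on the
edges crossed by the ray from the triangle t -/
def dis (β : ℝ) (H : Finset V) (t : V × Bool) : ℝ := pzc β H (inn H) t / pz β H (inn H)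

/-- general couplings J and spin product over A -/
def pA (D : Finset V) (F : Finset Edge) (J : Edge → ℝ) (A : Finset V) : ℝ :=
  ∑ M ∈ D.powerset, Real.exp (∑ e ∈ F, J e * (spin M e.1 * spin M (tip e))) * ∏ a ∈ A, spin M a

/-- every vertex of D has even degree in η -/
def EvenOn (D : Finset V) (η : Finset Edge) : Prop := ∀ v ∈ D, Even (η.filter (fun e => e.1 = v ∨ tip e = v)).card

/-- every vertex has even degree in η -/
def EvenAll (η : Finset Edge) : Prop := ∀ v : V, Even (η.filter (fun e => e.1 = v ∨ tip e = v)).card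

/-- edge weight of the double random current clusters -/
def g (β : ℝ) (D : Finset V) (ω : Finset Edge) : ℝ :=
  ∑ η ∈ ω.powerset, if EvenOn D η then Real.sinh (2 * β) ^ η.card * (Real.cosh (2 * β) - 1) ^ (ω.card - η.card) else 0

/-- weight of ω -/
def dw (β : ℝ) (D : Finset V) (ω : Finset Edge) : ℝ := g β D ω * 2 ^ (fclusters D ω).card

/-- total weight -/
def DW (β : ℝ) (D : Finset V) (F : Finset Edge) : ℝ := ∑ ω ∈ F.powerset, dw β D ω

/-- probability of an event -/
def dP (β : ℝ) (D : Finset V) (F : Finset Edge) (ev : Finset Edge → Prop) : ℝ :=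
  (∑ ω ∈ F.powerset, dw β D ω * (if ev ω then 1 else 0)) / DW β D F

/-- ω carries no circuit around the triangle t -/
def Ev (D : Finset V) (t : V × Bool) (ω : Finset Edge) : Prop :=
  ∃ X ⊆ D, ∀ e ∈ ω, (¬ (e.1 ∈ X ↔ tip e ∈ X) ↔ cut t e)

/-- the sites of D not connected to the outside of Λ -/
def Hof (D Λ : Finset V) (ω : Finset Edge) : Finset V := D.filter (fun v => ∀ w, FConn ω v w → w ∈ Λ)

/-- C separates y from the outside of D (or y ∈ C) -/
def Blocks (C D : Finset V) (y : V) : Prop :=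
  y ∈ C ∨ ∀ z, Relation.ReflTransGen (fun a b => b ∉ C ∧ Adj a b) y z → z ∈ D

/-- parity of the number of edges of η crossed by the ray from t -/
def Par (η : Finset Edge) (t : V × Bool) : Prop := Odd (η.filter (fun e => cut t e)).card

/-- translate -/
def shift (v : V) (D : Finset V) : Finset V := D.image (fun u => u + v)

/-! ### basic facts -/

theorem mem_inn {H : Finset V} {e : Edge} : e ∈ inn H ↔ e.1 ∈ H ∧ tip e ∈ H := by
  rw [inn, mem_filter, mem_near]
  exact ⟨fun h => h.2, fun h => ⟨Or.inl h.1, h⟩⟩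

theorem g_nonneg {β : ℝ} (hβ : 0 ≤ β) (D : Finset V) (ω : Finset Edge) : 0 ≤ g β D ω := by
  unfold g
  apply sum_nonneg
  intro η _
  split_ifs
  · have h1 : 0 ≤ Real.sinh (2 * β) := Real.sinh_nonneg_iff.2 (by positivity)
    have h2 : 0 ≤ Real.cosh (2 * β) - 1 := by linarith [Real.one_le_cosh (2 * β)]
    positivity
  · exact le_rfl

theorem dw_nonneg {β : ℝ} (hβ : 0 ≤ β) (D : Finset V) (ω : Finset Edge) : 0 ≤ dw β D ω :=
  mul_nonneg (g_nonneg hβ D ω) (by positivity)

theorem DW_pos {β : ℝ} (hβ : 0 ≤ β) (D : Finset V) (F : Finset Edge) : 0 < DW β D F := by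
  unfold DW
  have h1 : 0 < dw β D ∅ := by
    unfold dw g
    have h2 : EvenOn D ∅ := fun v _ => by simp
    rw [powerset_empty, sum_singleton, if_pos h2]
    simp
  exact lt_of_lt_of_le h1 (single_le_sum (f := fun ω => dw β D ω) (fun ω _ => dw_nonneg hβ D ω) (empty_mem_powerset F))

theorem pz_pos (β : ℝ) (D : Finset V) (F : Finset Edge) : 0 < pz β D F :=
  sum_pos (fun _ _ => Real.exp_pos _) ⟨∅, empty_mem_powerset D⟩

theorem mem_box {n : ℕ} {v : V} : v ∈ box n ↔ (-(n : ℤ) ≤ v.1 ∧ v.1 ≤ n) ∧ -(n : ℤ) ≤ v.2 ∧ v.2 ≤ n := by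
  rw [box, mem_product, Finset.mem_Icc, Finset.mem_Icc]

theorem dP_nonneg {β : ℝ} (hβ : 0 ≤ β) (D : Finset V) (F : Finset Edge) (ev : Finset Edge → Prop) : 0 ≤ dP β D F ev := by
  unfold dP
  refine div_nonneg (sum_nonneg fun ω _ => mul_nonneg (dw_nonneg hβ D ω) ?_) (DW_pos hβ D F).le
  split_ifs <;> norm_num

theorem dP_mono {β : ℝ} (hβ : 0 ≤ β) (D : Finset V) (F : Finset Edge) {ev ev' : Finset Edge → Prop}
    (h : ∀ ω ⊆ F, ev ω → ev' ω) : dP β D F ev ≤ dP β D F ev' := by
  unfold dP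
  refine div_le_div_of_nonneg_right (sum_le_sum fun ω hω => mul_le_mul_of_nonneg_left ?_ (dw_nonneg hβ D ω))
    (DW_pos hβ D F).le
  by_cases h1 : ev ω
  · rw [if_pos h1, if_pos (h ω (mem_powerset.1 hω) h1)]
  · rw [if_neg h1]
    split_ifs <;> norm_num

theorem dP_or {β : ℝ} (hβ : 0 ≤ β) (D : Finset V) (F : Finset Edge) (ev ev' : Finset Edge → Prop) :
    dP β D F (fun ω => ev ω ∨ ev' ω) ≤ dP β D F ev + dP β D F ev' := by
  unfold dP
  rw [← add_div]
  refine div_le_div_of_nonneg_right ?_ (DW_pos hβ D F).le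
  rw [← sum_add_distrib]
  refine sum_le_sum fun ω _ => ?_
  rw [← mul_add]
  refine mul_le_mul_of_nonneg_left ?_ (dw_nonneg hβ D ω)
  by_cases h1 : ev ω <;> by_cases h2 : ev' ω <;> simp [h1, h2]

theorem dP_ex {β : ℝ} (hβ : 0 ≤ β) (D : Finset V) (F : Finset Edge) {ι : Type*} (s : Finset ι)
    (ev : ι → Finset Edge → Prop) :
    dP β D F (fun ω => ∃ i ∈ s, ev i ω) ≤ ∑ i ∈ s, dP β D F (ev i) := by
  unfold dP
  rw [← sum_div]
  refine div_le_div_of_nonneg_right ?_ (DW_pos hβ D F).le
  rw [sum_comm]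
  refine sum_le_sum fun ω _ => ?_
  rw [← mul_sum]
  refine mul_le_mul_of_nonneg_left ?_ (dw_nonneg hβ D ω)
  by_cases h1 : ∃ i ∈ s, ev i ω
  · rw [if_pos h1]
    obtain ⟨i, hi, h2⟩ := h1
    have h3 : (if ev i ω then (1 : ℝ) else 0) = 1 := if_pos h2
    refine le_trans h3.symm.le ?_
    exact single_le_sum (f := fun i => if ev i ω then (1 : ℝ) else 0) (fun i _ => by positivity) hi
  · rw [if_neg h1]
    exact sum_nonneg fun i _ => by positivity

theorem dP_compl {β : ℝ} (hβ : 0 ≤ β) (D : Finset V) (F : Finset Edge) (ev : Finset Edge → Prop) :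
    dP β D F (fun ω => ¬ ev ω) = 1 - dP β D F ev := by
  unfold dP
  have h0 := (DW_pos hβ D F).ne'
  rw [eq_sub_iff_add_eq, ← add_div, div_eq_one_iff_eq h0, ← sum_add_distrib]
  unfold DW
  refine sum_congr rfl fun ω _ => ?_
  by_cases h1 : ev ω <;> simp [h1]

end

end XorIsing
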