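import Pool.Agent.Work.MP_bda6fa_nest.Def
set_option autoImplicit false

/-! Statements of the blocks. Every block X is a file X.lean with theorem `p_X : S_X`. -/

namespace XorIsing
open scoped Classical
open Finset

/-- G1: Griffiths' first inequality -/
def S_G1 : Prop := ∀ (D : Finset V) (F : Finset Edge) (J : Edge → ℝ) (A : Finset V), (∀ e ∈ F, 0 ≤ J e) → 0 ≤ pA D F J A

/-- G1s: signs of the couplings only decrease the partition function -/
def S_G1s : Prop := ∀ (D : Finset V) (F : Finset Edge) (J ε : Edge → ℝ), (∀ e ∈ F, 0 ≤ J e) → (∀ e, ε e = 1 ∨ ε e = -1) →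
  pA D F (fun e => ε e * J e) ∅ ≤ pA D F J ∅

/-- GKM: spin correlations increase with the set of edges -/
def S_GKM : Prop := ∀ (β : ℝ) (D : Finset V) (F F' : Finset Edge) (A : Finset V), 0 ≤ β → F' ⊆ F →
  pA D F' (fun _ => β) A * pA D F (fun _ => β) ∅ ≤ pA D F (fun _ => β) A * pA D F' (fun _ => β) ∅

/-- PLUS: the probability that all spins of D \ Λ are + increases with the set of edges -/
def S_PLUS : Prop := ∀ (β : ℝ) (D Λ : Finset V) (F F' : Finset Edge), 0 ≤ β → F' ⊆ F → Λ ⊆ D →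
  pz β Λ F' * pz β D F ≤ pz β Λ F * pz β D F'

/-- RAT -/
def S_RAT : Prop := ∀ (β : ℝ) (D Λ C : Finset V), 0 ≤ β → Λ ⊆ D → C ⊆ Λ →
  pz β Λ (near Λ \ near C) * pz β D (near D) ≤ pz β D (near D \ near C) * pz β Λ (near Λ)

/-- HT: high temperature expansion -/
def S_HT : Prop := ∀ (β : ℝ) (D : Finset V) (F : Finset Edge),
  pz (2 * β) D F = 2 ^ D.card * ∑ ω ∈ F.powerset, g β D ω

/-- XDC: the minus set of the product of two independent configurations is compatible with ω -/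
def S_XDC : Prop := ∀ (β : ℝ) (D : Finset V) (F : Finset Edge) (f : Finset V → ℝ),
  ∑ M ∈ D.powerset, ∑ M' ∈ D.powerset, Real.exp (β * ∑ e ∈ F, spin M e.1 * spin M (tip e)) *
      Real.exp (β * ∑ e ∈ F, spin M' e.1 * spin M' (tip e)) * f (symmDiff M M') =
    2 ^ D.card * ∑ ω ∈ F.powerset, g β D ω * ∑ X ∈ compat D ω, f X

/-- SQ -/
def S_SQ : Prop := ∀ (β : ℝ) (D : Finset V) (F : Finset Edge), pz β D F ^ 2 = 2 ^ D.card * DW β D F

/-- XP: the probability of an event of X -/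
def S_XP : Prop := ∀ (β : ℝ) (D : Finset V) (ev : Finset V → Prop), 0 ≤ β →
  xorP β D ev = (∑ ω ∈ (near D).powerset, g β D ω * ((compat D ω).filter ev).card) / DW β D (near D)

/-- DISF: the probability that there is no circuit around t -/
def S_DISF : Prop := ∀ (β : ℝ) (H : Finset V) (F : Finset Edge) (t : V × Bool), 0 ≤ β →
  dP β H F (Ev H t) = pzc β H F t / pz β H F

/-- DISM: disorder correlations decrease when the domain increases -/
def S_DISM : Prop := ∀ (β : ℝ) (H Λ : Finset V) (t : V × Bool), 0 ≤ β → Λ ⊆ H → dis β H t ≤ dis β Λ t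

/-- FACT -/
def S_FACT : Prop := ∀ (β : ℝ) (A B : Finset V) (ω₁ ω₂ : Finset Edge), Disjoint A B → ω₁ ⊆ inn A →
  (∀ e ∈ ω₂, e.1 ∉ A ∧ tip e ∉ A) → dw β (A ∪ B) (ω₁ ∪ ω₂) = dw β A ω₁ * dw β B ω₂

/-- SPLIT: the configurations without edges between S and its complement -/
def S_SPLIT : Prop := ∀ (β : ℝ) (D S : Finset V) (f h : Finset Edge → ℝ), S ⊆ D →
  (∑ ω ∈ (near D).powerset, dw β D ω *
      (if Disjoint ω (near S \ inn S) then f (ω ∩ inn S) * h (ω \ near S) else 0)) =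
    (∑ ω ∈ (inn S).powerset, dw β S ω * f ω) * ∑ ω ∈ (near D \ near S).powerset, dw β (D \ S) ω * h ω

/-- CORR2: the probability that x is connected to the outside -/
def S_CORR2 : Prop := ∀ (β : ℝ) (Λ : Finset V) (x : V), 0 ≤ β → x ∈ Λ →
  dP β Λ (near Λ) (fun ω => ∃ w, w ∉ Λ ∧ FConn ω x w) = corr β Λ {x} ^ 2

/-- CLUS: the probability that C is the cluster of x -/
def S_CLUS : Prop := ∀ (C : Finset V) (x : V) (β : ℝ), 0 ≤ β → x ∈ C → ∃ a : ℝ, 0 ≤ a ∧ ∀ D : Finset V, C ⊆ D →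
  dP β D (near D) (fun ω => ∀ w, FConn ω x w ↔ w ∈ C) = a * (pz β D (near D \ near C) / pz β D (near D)) ^ 2

/-- CONN -/
def S_CONN : Prop := ∀ (β : ℝ) (D Λ : Finset V) (x : V), 0 ≤ β → Λ ⊆ D → x ∈ Λ →
  dP β D (near D) (fun ω => ∃ w, w ∉ Λ ∧ FConn ω x w) ≤ corr β Λ {x} ^ 2

/-- HOF: description of the configurations with given Hof -/
def S_HOF : Prop := ∀ (D Λ H : Finset V) (ω : Finset Edge), Λ ⊆ D → ω ⊆ near D →
  (Hof D Λ ω = H ↔ H ⊆ D ∧ Disjoint ω (near H \ inn H) ∧ Hof D Λ (ω \ near H) = H)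

/-- MARK: given the sites connected to the outside of Λ, the rest is the free model -/
def S_MARK : Prop := ∀ (β : ℝ) (D Λ Λ' : Finset V) (ev : Finset V → Finset Edge → Prop) (c : ℝ), 0 ≤ β → Λ ⊆ D →
  Λ' ⊆ Λ → (∀ H, Λ' ⊆ H → H ⊆ Λ → dP β H (inn H) (ev H) ≤ c) →
  dP β D (near D) (fun ω => Λ' ⊆ Hof D Λ ω ∧ ev (Hof D Λ ω) (ω ∩ inn (Hof D Λ ω))) ≤ c

/-- CLH: clusters of the rest are clusters -/
def S_CLH : Prop := ∀ (D Λ C : Finset V) (ω : Finset Edge), Λ ⊆ D → ω ⊆ near D →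
  C ∈ fclusters (Hof D Λ ω) (ω ∩ inn (Hof D Λ ω)) → C ∈ fclusters D ω ∧ C ⊆ Λ

/-- ESTEP -/
def S_ESTEP : Prop := ∀ (H : Finset V) (ω : Finset Edge) (e : Edge) (t t' : V × Bool), ω ⊆ inn H → e ∉ ω →
  e ∈ tri t → e ∈ tri t' → Ev H t ω → Ev H t' ω

/-- PETA -/
def S_PETA : Prop := ∀ (η : Finset Edge) (e : Edge) (t t' : V × Bool), EvenAll η → t ≠ t' → e ∈ tri t → e ∈ tri t' →
  ((Par η t ↔ Par η t') ↔ e ∉ η)

/-- ETA: the boundary of the set of triangles reachable from far away is an even set of edges of ω -/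
def S_ETA : Prop := ∀ (H : Finset V) (ω : Finset Edge) (ρ : ℕ), ω ⊆ inn H →
  (∀ t : V × Bool, t.1 ∈ box (ρ + 1) → ¬ Ev H t ω) →
  ∃ η ⊆ ω, EvenAll η ∧ (∀ e ∈ η, e.1 ∉ box ρ ∧ tip e ∉ box ρ) ∧ Par η (((0, 0), true) : V × Bool)

/-- ETAC: a connected part of it -/
def S_ETAC : Prop := ∀ η : Finset Edge, EvenAll η → Par η (((0, 0), true) : V × Bool) →
  ∃ η' ⊆ η, EvenAll η' ∧ Par η' (((0, 0), true) : V × Bool) ∧
    ∀ e ∈ η', ∀ f ∈ η', FConn η' e.1 f.1

/-- ETAB: the set of vertices of η separates the box from the outside of D -/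
def S_ETAB : Prop := ∀ (D C : Finset V) (η : Finset Edge) (ρ : ℕ), CoConn D → C ⊆ D → EvenAll η →
  (∀ e ∈ η, e.1 ∉ box ρ ∧ tip e ∉ box ρ) → (∀ e ∈ η, e.1 ∈ C ∧ tip e ∈ C) → Par η (((0, 0), true) : V × Bool) →
  ∀ y ∈ box ρ, Blocks C D y

/-- SEP: if there are circuits around all triangles near the box, then some cluster separates the box from the outside -/
def S_SEP : Prop := ∀ (D H : Finset V) (ω : Finset Edge) (ρ : ℕ), CoConn D → H ⊆ D → ω ⊆ inn H →
  (∀ t : V × Bool, t.1 ∈ box (ρ + 1) → ¬ Ev H t ω) →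
  ∃ C ∈ fclusters H ω, (∃ c ∈ C, c ∉ box ρ) ∧ ∀ y ∈ box ρ, Blocks C D y

/-- MONO: from every point there is a path to the outside along which the number of loops does not increase -/
def S_MONO : Prop := ∀ (D X : Finset V) (y : V), CoConn D → X ⊆ D → ∃ z, z ∉ D ∧
  Relation.ReflTransGen (fun a b => Adj a b ∧ nloops X b ≤ nloops X a) y z

/-- BL -/
def S_BL : Prop := ∀ (D X C : Finset V) (ω : Finset Edge) (y : V), CoConn D → X ∈ compat D ω → C ∈ fclusters D ω →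
  Blocks C D y → ∀ c ∈ C, nloops X c ≤ nloops X y

/-- DET: nested clusters, j groups of K clusters, in every group both signs occur -/
def S_DET : Prop := ∀ (D X : Finset V) (ω : Finset Edge) (j K : ℕ) (C : ℕ → Finset V), CoConn D → X ∈ compat D ω →
  (∀ i < j * K, C i ∈ fclusters D ω) → (∀ y ∈ box 0, Blocks (C 0) D y) →
  (∀ i, i + 1 < j * K → ∀ y ∈ C i, Blocks (C (i + 1)) D y) →
  (∀ a < j, ∃ i < K, ∃ i' < K, C (a * K + i) ⊆ X ∧ ¬ C (a * K + i') ⊆ X) → j ≤ nloops X (0, 0)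

/-- SIGN: the signs of the clusters are independent -/
def S_SIGN : Prop := ∀ (D : Finset V) (ω : Finset Edge) (j K : ℕ) (C : ℕ → Finset V),
  (∀ i < j * K, C i ∈ fclusters D ω) → (∀ i < j * K, ∀ i' < j * K, C i = C i' → i = i') →
  (1 - (j : ℝ) * 2 * (1 / 2) ^ K) * 2 ^ (fclusters D ω).card ≤
    (((compat D ω).filter (fun X => ∀ a < j, ∃ i < K, ∃ i' < K, C (a * K + i) ⊆ X ∧ ¬ C (a * K + i') ⊆ X)).card : ℝ)

/-- TRC, TRD: translation -/
def S_TRC : Prop := ∀ (β : ℝ) (n : ℕ) (v : V), corr β (shift v (box n)) {v} = corr β (box n) {(0, 0)}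

def S_TRD : Prop := ∀ (β : ℝ) (n : ℕ) (v : V) (b : Bool), dis β (shift v (box n)) (v, b) = dis β (box n) ((0, 0), b)

end XorIsing
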