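import Pool.Agent.Work.MP_bda6fa_nest.FINQ
import Pool.Agent.Work.MP_bda6fa_nest.CLH
import Pool.Agent.Work.MP_bda6fa_nest.CLUS
import Pool.Agent.Work.MP_bda6fa_nest.CONN
import Pool.Agent.Work.MP_bda6fa_nest.CORR2
import Pool.Agent.Work.MP_bda6fa_nest.DISF
import Pool.Agent.Work.MP_bda6fa_nest.DISM
import Pool.Agent.Work.MP_bda6fa_nest.ESTEP
import Pool.Agent.Work.MP_bda6fa_nest.ETA
import Pool.Agent.Work.MP_bda6fa_nest.ETAB
import Pool.Agent.Work.MP_bda6fa_nest.ETAC
import Pool.Agent.Work.MP_bda6fa_nest.FACT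
import Pool.Agent.Work.MP_bda6fa_nest.G1
import Pool.Agent.Work.MP_bda6fa_nest.G1s
import Pool.Agent.Work.MP_bda6fa_nest.GKM
import Pool.Agent.Work.MP_bda6fa_nest.HOF
import Pool.Agent.Work.MP_bda6fa_nest.HT
import Pool.Agent.Work.MP_bda6fa_nest.MARK
import Pool.Agent.Work.MP_bda6fa_nest.MONO
import Pool.Agent.Work.MP_bda6fa_nest.PETA
import Pool.Agent.Work.MP_bda6fa_nest.PLUS
import Pool.Agent.Work.MP_bda6fa_nest.RAT
import Pool.Agent.Work.MP_bda6fa_nest.SIGN
import Pool.Agent.Work.MP_bda6fa_nest.SPLIT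
import Pool.Agent.Work.MP_bda6fa_nest.SQ
import Pool.Agent.Work.MP_bda6fa_nest.TRC
import Pool.Agent.Work.MP_bda6fa_nest.TRD
import Pool.Agent.Work.MP_bda6fa_nest.XDC
import Pool.Agent.Work.MP_bda6fa_nest.XP
set_option autoImplicit false

namespace XorIsing.NestedIneq

open XorIsing
open scoped Classical

/-- XOR-Ising model on the triangular lattice, finite domain D with connected complement, + boundary conditions for both
copies, any β ≥ 0. Let r_0 = m, r_(i+1) = r_i + 1 + a_i + b_i, N = r_(jK), and let D contain the box N (all |i|, |j| ≤ N).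
With probability at least 1 - 2j/2^K - (sum over i < jK of
(2 r_i + 3)² (d(a_i, true) + d(a_i, false)) + (2 r_i + 2 a_i + 3)² c(b_i)²) at least j XOR loops surround the whole box m and
stay in the box N (they surround only faces of the box N). Here c(n) is the magnetisation at the centre of the box n with +
boundary conditions, and d(n, ·) are the free disorder correlations of the two triangles at the centre of the box n (ratio of
the partition functions of the free Ising model with and without the sign of the interaction reversed on the edges crossed by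
a ray from the triangle; the magnetisation of the dual model). -/
theorem nested_ineq (β : ℝ) (hβ : 0 ≤ β) (m j K : ℕ) (r a b : ℕ → ℕ) (h0 : r 0 = m)
    (hr : ∀ i, r (i + 1) = r i + 1 + a i + b i) (D : Finset V) (hD : CoConn D) (hN : box (r (j * K)) ⊆ D) :
    1 - 2 * (j : ℝ) / 2 ^ K - ∑ i ∈ Finset.range (j * K),
        ((2 * (r i : ℝ) + 3) ^ 2 * (dis β (box (a i)) ((0, 0), true) + dis β (box (a i)) ((0, 0), false)) +
          (2 * (r i : ℝ) + 2 * (a i : ℝ) + 3) ^ 2 * corr β (box (b i)) {((0, 0) : V)} ^ 2) ≤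
      xorP β D (fun X => j ≤ nloopsIn X (box m) (box (r (j * K)))) := by
  have hXDC := p_XDC p_HT
  have hSQ := p_SQ hXDC
  have hDISF := p_DISF p_HT hSQ
  have hDISM := p_DISM p_G1s
  have hSPLIT := p_SPLIT p_FACT
  have hCONN := p_CONN (p_CLUS hSPLIT hSQ) (p_RAT (p_PLUS (p_GKM p_G1))) (p_CORR2 hXDC hSQ)
  have hMARK := p_MARK hSPLIT p_HOF
  have hSEP := p_SEP (p_ETA p_ESTEP p_PETA) p_ETAC (p_ETAB p_PETA)
  have h := fin_mainQ hDISF hDISM hCONN hMARK p_CLH hSEP p_TRC p_TRD (p_XP hXDC hSQ) p_MONO (p_BL p_MONO) p_SIGN hβ r a b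
    hr j K D hD hN
  rw [h0] at h
  refine le_trans (le_of_eq ?_) h
  have e1 : 2 * (j : ℝ) / 2 ^ K = 2 * (j : ℝ) * (1 / 2) ^ K := by rw [one_div, inv_pow, div_eq_mul_inv]
  rw [e1]
  congr 1
  refine Finset.sum_congr rfl fun i _ => ?_
  ring

end XorIsing.NestedIneq
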