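import Pool.Agent.Work.MP_bda6fa_nest.Interface
set_option autoImplicit false

namespace XorIsing
open scoped Classical
open Finset

theorem sg35_eq {D M : Finset V} {ω : Finset Edge} (hM' : M ∈ compat D ω) :
    ((fclusters D ω).filter (fun C => C ⊆ M)).biUnion id = M := by
  obtain ⟨hM1, -⟩ := mem_compat.1 hM'
  ext v
  rw [mem_biUnion]
  constructor
  · rintro ⟨C, hC, hv⟩
    exact (mem_filter.1 hC).2 hv
  · intro hv
    have h1 : ∀ w, FConn ω v w → w ∈ M := fun w hw => (compat_conn hM' hw).1 hv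
    refine ⟨D.filter (fun u => FConn ω v u), mem_filter.2 ⟨?_, ?_⟩, ?_⟩
    · refine mem_fclusters.2 ⟨v, hM1 hv, fun w hw => hM1 (h1 w hw), fun u => ?_⟩
      rw [mem_filter]
      exact ⟨fun h => h.2, fun h => ⟨hM1 (h1 u h), h⟩⟩
    · intro u hu
      exact h1 u (mem_filter.1 hu).2
    · rw [id, mem_filter]
      exact ⟨hM1 hv, Relation.ReflTransGen.refl⟩

/-- all clusters of `E` have the same sign: few configurations -/
theorem sg35_card {D : Finset V} {ω : Finset Edge} (E : Finset (Finset V)) (p : Prop) :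
    ((compat D ω).filter (fun X => ∀ C ∈ E, (C ⊆ X ↔ p))).card ≤ 2 ^ ((fclusters D ω) \ E).card := by
  rw [← card_powerset]
  refine card_le_card_of_injOn (fun M => ((fclusters D ω) \ E).filter (fun C => C ⊆ M)) ?_ ?_
  · intro M _
    rw [mem_coe, mem_powerset]
    exact filter_subset _ _
  · intro M hM M' hM' h
    obtain ⟨h1, h2⟩ := mem_filter.1 (mem_coe.1 hM)
    obtain ⟨h1', h2'⟩ := mem_filter.1 (mem_coe.1 hM')
    rw [← sg35_eq h1, ← sg35_eq h1']
    congr 1
    ext C
    rw [mem_filter, mem_filter]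
    refine and_congr_right fun hC => ?_
    by_cases hE : C ∈ E
    · exact (h2 C hE).trans (h2' C hE).symm
    · have h3 : C ∈ ((fclusters D ω) \ E).filter (fun C => C ⊆ M) ↔
          C ∈ ((fclusters D ω) \ E).filter (fun C => C ⊆ M') := by
        have h' : ((fclusters D ω) \ E).filter (fun C => C ⊆ M) =
          ((fclusters D ω) \ E).filter (fun C => C ⊆ M') := h
        rw [h']
      rw [mem_filter, mem_filter] at h3
      have h4 : C ∈ (fclusters D ω) \ E := mem_sdiff.2 ⟨hC, hE⟩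
      exact ⟨fun h5 => (h3.1 ⟨h4, h5⟩).2, fun h5 => (h3.2 ⟨h4, h5⟩).2⟩

theorem p_SIGN35 : S_SIGN := by
  intro D ω j K C hC hinj
  obtain ⟨n, hn⟩ : ∃ n, n = (fclusters D ω).card := ⟨_, rfl⟩
  have hcard := card_compat D ω
  obtain ⟨E, hE⟩ : ∃ E : ℕ → Finset (Finset V), E = fun a => (range K).image (fun i => C (a * K + i)) :=
    ⟨_, rfl⟩
  have hlt : ∀ a < j, ∀ i < K, a * K + i < j * K := by
    intro a ha i hi
    calc a * K + i < a * K + K := by omega
      _ = (a + 1) * K := by ring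
      _ ≤ j * K := Nat.mul_le_mul_right K ha
  have hEc : ∀ a < j, (E a).card = K := by
    intro a ha
    rw [hE]
    show ((range K).image (fun i => C (a * K + i))).card = K
    rw [card_image_of_injOn, card_range]
    intro i hi i' hi' h
    have h1 := hinj _ (hlt a ha i (mem_range.1 (mem_coe.1 hi))) _ (hlt a ha i' (mem_range.1 (mem_coe.1 hi'))) h
    omega
  have hEs : ∀ a < j, E a ⊆ fclusters D ω := by
    intro a ha c hc
    rw [hE] at hc
    obtain ⟨i, hi, rfl⟩ := mem_image.1 hc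
    exact hC _ (hlt a ha i (mem_range.1 hi))
  -- the bad configurations
  have hbad : ((compat D ω).filter (fun X => ¬ ∀ a < j, ∃ i < K, ∃ i' < K,
      C (a * K + i) ⊆ X ∧ ¬ C (a * K + i') ⊆ X)) ⊆
      (range j).biUnion (fun a => (compat D ω).filter (fun X => ∀ c ∈ E a, (c ⊆ X ↔ True)) ∪
        (compat D ω).filter (fun X => ∀ c ∈ E a, (c ⊆ X ↔ False))) := by
    intro X hX
    obtain ⟨h1, h2⟩ := mem_filter.1 hX
    push Not at h2
    obtain ⟨a, ha, h3⟩ := h2
    rw [mem_biUnion]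
    refine ⟨a, mem_range.2 ha, ?_⟩
    rw [mem_union, mem_filter, mem_filter]
    by_cases h4 : ∃ i < K, C (a * K + i) ⊆ X
    · left
      obtain ⟨i, hi, h5⟩ := h4
      refine ⟨h1, fun c hc => ?_⟩
      rw [hE] at hc
      obtain ⟨i', hi', rfl⟩ := mem_image.1 hc
      exact iff_of_true (h3 i hi i' (mem_range.1 hi') h5) trivial
    · right
      refine ⟨h1, fun c hc => ?_⟩
      rw [hE] at hc
      obtain ⟨i', hi', rfl⟩ := mem_image.1 hc
      exact iff_of_false (fun h5 => h4 ⟨i', mem_range.1 hi', h5⟩) id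
  have hbadc : (((compat D ω).filter (fun X => ¬ ∀ a < j, ∃ i < K, ∃ i' < K,
      C (a * K + i) ⊆ X ∧ ¬ C (a * K + i') ⊆ X)).card : ℝ) ≤ (j : ℝ) * 2 * (1 / 2) ^ K * 2 ^ n := by
    have h1 := (card_le_card hbad).trans card_biUnion_le
    have h2 : ∀ a ∈ range j, (((compat D ω).filter (fun X => ∀ c ∈ E a, (c ⊆ X ↔ True)) ∪
        (compat D ω).filter (fun X => ∀ c ∈ E a, (c ⊆ X ↔ False))).card : ℝ) ≤
        2 * (1 / 2) ^ K * 2 ^ n := by
      intro a ha
      have ha' := mem_range.1 ha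
      have h3 : ((fclusters D ω) \ E a).card = n - K := by
        rw [card_sdiff_of_subset (hEs a ha'), hEc a ha', hn]
      have hKn : K ≤ n := by
        rw [← hEc a ha', hn]; exact card_le_card (hEs a ha')
      have h4 : (((compat D ω).filter (fun X => ∀ c ∈ E a, (c ⊆ X ↔ True)) ∪
          (compat D ω).filter (fun X => ∀ c ∈ E a, (c ⊆ X ↔ False))).card) ≤ 2 ^ (n - K) + 2 ^ (n - K) := by
        refine (card_union_le _ _).trans ?_
        have e1 := sg35_card (D := D) (ω := ω) (E a) True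
        have e2 := sg35_card (D := D) (ω := ω) (E a) False
        rw [h3] at e1 e2
        refine add_le_add (le_of_eq_of_le ?_ e1) (le_of_eq_of_le ?_ e2) <;> congr!
      have h5 : ((1 : ℝ) / 2) ^ K * 2 ^ n = 2 ^ (n - K) := by
        have : (2 : ℝ) ^ n = 2 ^ K * 2 ^ (n - K) := by
          rw [← pow_add]; congr 1; omega
        rw [this, ← mul_assoc, ← mul_pow]
        norm_num
      have h6 : (((compat D ω).filter (fun X => ∀ c ∈ E a, (c ⊆ X ↔ True)) ∪
          (compat D ω).filter (fun X => ∀ c ∈ E a, (c ⊆ X ↔ False))).card : ℝ) ≤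
          2 ^ (n - K) + 2 ^ (n - K) := by exact_mod_cast h4
      rw [mul_assoc, h5]
      linarith
    have h7 : (((compat D ω).filter (fun X => ¬ ∀ a < j, ∃ i < K, ∃ i' < K,
        C (a * K + i) ⊆ X ∧ ¬ C (a * K + i') ⊆ X)).card : ℝ) ≤
        ∑ a ∈ range j, (((compat D ω).filter (fun X => ∀ c ∈ E a, (c ⊆ X ↔ True)) ∪
        (compat D ω).filter (fun X => ∀ c ∈ E a, (c ⊆ X ↔ False))).card : ℝ) := by exact_mod_cast h1
    refine h7.trans ((sum_le_sum h2).trans ?_)
    rw [sum_const, card_range, nsmul_eq_mul]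
    apply le_of_eq
    ring
  have hsum := card_filter_add_card_filter_not (s := compat D ω) (fun X => ∀ a < j, ∃ i < K, ∃ i' < K,
      C (a * K + i) ⊆ X ∧ ¬ C (a * K + i') ⊆ X)
  rw [hcard, ← hn] at hsum
  have hsum' : (((compat D ω).filter (fun X => ∀ a < j, ∃ i < K, ∃ i' < K,
      C (a * K + i) ⊆ X ∧ ¬ C (a * K + i') ⊆ X)).card : ℝ) +
      (((compat D ω).filter (fun X => ¬ ∀ a < j, ∃ i < K, ∃ i' < K,
      C (a * K + i) ⊆ X ∧ ¬ C (a * K + i') ⊆ X)).card : ℝ) = 2 ^ n := by exact_mod_cast hsum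
  rw [← hn]
  have : (1 - (j : ℝ) * 2 * (1 / 2) ^ K) * 2 ^ n = 2 ^ n - (j : ℝ) * 2 * (1 / 2) ^ K * 2 ^ n := by ring
  rw [this]
  linarith

end XorIsing
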